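import Pool.Agent.Work.MP_065151_hh.Crit
import Pool.Agent.Work.MP_e3f5d9_al_cx.BOT
import Pool.Agent.Work.MP_e3f5d9_al_cx.SML

/-!
# Basic facts on the filled Julia set, and backward orbits with small steps
-/

set_option autoImplicit false

open Topology Metric Filter Set

namespace HH

open R4C (f K Bot Cof IsDisk rad)

/-! ### Connectedness -/

lemma conn_iInter (Y : ℕ → Set ℂ) (hanti : Antitone Y) (hc : ∀ n, IsCompact (Y n))
    (hconn : ∀ n, IsPreconnected (Y n)) : IsPreconnected (⋂ n, Y n) := by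
  rw [isPreconnected_closed_iff]
  intro t t' ht ht' hsub h1 h2
  by_contra hne
  have hcl : IsCompact (⋂ n, Y n) := by
    refine (hc 0).of_isClosed_subset (isClosed_iInter fun n => (hc n).isClosed) ?_
    exact Set.iInter_subset _ 0
  have hd : Disjoint ((⋂ n, Y n) ∩ t) ((⋂ n, Y n) ∩ t') := by
    rw [Set.disjoint_left]
    rintro x ⟨hx, hx1⟩ ⟨-, hx2⟩
    exact hne ⟨x, hx, hx1, hx2⟩
  obtain ⟨U, V, hU, hV, hsU, hsV, hUV⟩ :=
    SeparatedNhds.of_isCompact_isCompact (hcl.inter_right ht) (hcl.inter_right ht') hd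
  have hcov : ∀ x ∈ ⋂ n, Y n, U ∪ V ∈ 𝓝 x := by
    intro x hx
    refine (hU.union hV).mem_nhds ?_
    rcases hsub hx with h | h
    · exact Or.inl (hsU ⟨hx, h⟩)
    · exact Or.inr (hsV ⟨hx, h⟩)
  obtain ⟨n, hn⟩ := exists_subset_nhds_of_isCompact (V := Y) hanti.directed_ge hc hcov
  obtain ⟨x, hx, hxt⟩ := h1
  obtain ⟨y, hy, hyt⟩ := h2
  obtain ⟨z, -, hzU, hzV⟩ := hconn n U V hU hV hn
    ⟨x, Set.mem_iInter.1 hx n, hsU ⟨hx, hxt⟩⟩ ⟨y, Set.mem_iInter.1 hy n, hsV ⟨hy, hyt⟩⟩
  exact Set.disjoint_left.1 hUV hzU hzV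

lemma c_mem_K {c : ℂ} (h0 : (0 : ℂ) ∈ K c) : c ∈ K c := by
  have := ((R4C.stmt_ELM c).2.2.2.2.2.1 0).2 h0
  rwa [f_zero] at this

/-- The filled Julia set is connected if the critical orbit is bounded. -/
theorem K_conn {c : ℂ} (h0 : (0 : ℂ) ∈ K c) : IsConnected (K c) := by
  refine ⟨⟨0, h0⟩, ?_⟩
  obtain ⟨-, h2, -, hKeq, -, hKf, -, -, -, -, -⟩ := R4C.stmt_ELM c
  set Y : ℕ → Set ℂ := fun n => (f c)^[n] ⁻¹' closedBall 0 (rad c) with hY
  have hYs : ∀ n, Y (n + 1) = f c ⁻¹' Y n := by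
    intro n
    ext z
    simp only [hY, Set.mem_preimage, Function.iterate_succ_apply]
  have hcK := c_mem_K h0
  have hK : K c = ⋂ n, Y n := by
    ext z
    rw [hKeq, Set.mem_iInter]
    simp only [Set.mem_ofPred_eq, hY, Set.mem_preimage, mem_closedBall_zero_iff]
  have hcY : ∀ n, c ∈ Y n := by
    intro n
    rw [hK] at hcK
    exact Set.mem_iInter.1 hcK n
  have hcpt : ∀ n, IsCompact (Y n) := by
    intro n
    induction n with
    | zero => simpa [hY] using isCompact_closedBall (0 : ℂ) (rad c)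
    | succ n ih => rw [hYs]; exact preimage_compact c ih
  have hcon : ∀ n, IsPreconnected (Y n) := by
    intro n
    induction n with
    | zero => simpa [hY] using (convex_closedBall (0 : ℂ) (rad c)).isPreconnected
    | succ n ih => rw [hYs]; exact preimage_conn c (hcpt n) ih (hcY n)
  rw [hK]
  refine conn_iInter Y (antitone_nat_of_succ_le fun n z hz => ?_) hcpt hcon
  simp only [hY, Set.mem_preimage, mem_closedBall_zero_iff] at hz ⊢
  rw [Function.iterate_succ_apply'] at hz
  exact h2 _ hz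

lemma isConnected_outside : IsConnected {w : ℂ | 1 < ‖w‖} := by
  have hs : IsPathConnected (sphere (0 : ℂ) 1) := by
    refine isPathConnected_sphere ?_ _ zero_le_one
    rw [Complex.rank_real_complex]
    norm_num
  have h1 : IsConnected ((Set.Ioi (1 : ℝ)) ×ˢ (sphere (0 : ℂ) 1)) :=
    (isConnected_Ioi).prod hs.isConnected
  have h2 : {w : ℂ | 1 < ‖w‖} =
      (fun p : ℝ × ℂ => (p.1 : ℂ) * p.2) '' ((Set.Ioi (1 : ℝ)) ×ˢ (sphere (0 : ℂ) 1)) := by
    ext w
    constructor
    · intro hw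
      have hw : 1 < ‖w‖ := hw
      have h0 : (‖w‖ : ℂ) ≠ 0 := by
        rw [Complex.ofReal_ne_zero]
        linarith
      refine ⟨(‖w‖, w / ‖w‖), ⟨hw, ?_⟩, ?_⟩
      · simp only [mem_sphere, dist_zero_right, norm_div, Complex.norm_real, norm_norm]
        exact div_self (by linarith)
      · simp only
        field_simp
    · rintro ⟨⟨r, v⟩, ⟨hr, hv⟩, rfl⟩
      have hr : (1 : ℝ) < r := hr
      have hv : ‖v‖ = 1 := by simpa using hv
      change 1 < ‖(r : ℂ) * v‖
      rw [norm_mul, hv, mul_one, Complex.norm_real, Real.norm_of_nonneg (by linarith)]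
      exact hr
  rw [h2]
  exact h1.image _ (by fun_prop)

lemma compl_K_conn {c : ℂ} (h0 : (0 : ℂ) ∈ K c) : IsPreconnected (K c)ᶜ := by
  obtain ⟨ψ, hψ⟩ := R4C.stmt_BOT R4C.stmt_ELM c h0
  rw [← hψ.img]
  exact isConnected_outside.isPreconnected.image _ hψ.hol.continuousOn

/-- Every subset of a filled Julia set without interior is full. -/
theorem full_sub {c : ℂ} (h0 : (0 : ℂ) ∈ K c) (hi : interior (K c) = ∅) {Y : Set ℂ}
    (hY : Y ⊆ K c) : IsPreconnected Yᶜ := by
  refine (compl_K_conn h0).subset_closure (Set.compl_subset_compl.2 hY) ?_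
  rw [(interior_eq_empty_iff_dense_compl.1 hi).closure_eq]
  exact Set.subset_univ _

lemma compl_unbdd {Y : Set ℂ} (hY : Bornology.IsBounded Y) : ¬ Bornology.IsBounded Yᶜ := by
  intro h
  have := hY.union h
  rw [Set.union_compl_self] at this
  exact NormedSpace.unbounded_univ ℝ ℂ this

/-- The parameter is not zero. -/
lemma c_ne_zero {c : ℂ} (hi : interior (K c) = ∅) : c ≠ 0 := by
  rintro rfl
  have h1 : ball (0 : ℂ) 1 ⊆ K 0 := by
    intro z hz
    rw [mem_ball_zero_iff] at hz
    refine ⟨1, fun n => ?_⟩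
    have : (f 0)^[n] z = z ^ 2 ^ n := by
      induction n with
      | zero => simp
      | succ n ih =>
        rw [Function.iterate_succ_apply', ih]
        simp only [f, add_zero]
        rw [← pow_mul, pow_succ]
    rw [this, norm_pow]
    exact pow_le_one₀ (norm_nonneg z) hz.le
  have h2 : (0 : ℂ) ∈ interior (K 0) :=
    mem_interior.2 ⟨ball 0 1, h1, isOpen_ball, mem_ball_self one_pos⟩
  rw [hi] at h2
  exact h2

/-! ### Backward orbits with small steps -/

theorem seq_lim {c : ℂ} {r : ℕ → ℂ} (hr : ∀ n, f c (r (n + 1)) = r n)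
    (hs : Tendsto (fun n => ‖r (n + 1) - r n‖) atTop (𝓝 0)) :
    ∃ p, f c p = p ∧ Tendsto r atTop (𝓝 p) := by
  obtain ⟨s, hs2⟩ := IsAlgClosed.exists_pow_nat_eq (1 - 4 * c) (n := 2) (by norm_num)
  set a : ℂ := (1 + s) / 2 with ha
  set b : ℂ := (1 - s) / 2 with hb
  have hfac : ∀ z, f c z - z = (z - a) * (z - b) := by
    intro z
    show z ^ 2 + c - z = _
    rw [ha, hb]
    linear_combination (1 / 4 : ℂ) * hs2
  have hfa : f c a = a := by
    have := hfac a
    rw [sub_self, zero_mul] at this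
    exact sub_eq_zero.1 this
  have hfb : f c b = b := by
    have := hfac b
    rw [sub_self b, mul_zero] at this
    exact sub_eq_zero.1 this
  have hprod : Tendsto (fun n => ‖r (n + 1) - a‖ * ‖r (n + 1) - b‖) atTop (𝓝 0) := by
    refine hs.congr fun n => ?_
    rw [← norm_mul, ← hfac, hr, norm_sub_rev]
  have hprod' : Tendsto (fun n => ‖r n - a‖ * ‖r n - b‖) atTop (𝓝 0) :=
    (tendsto_add_atTop_iff_nat (f := fun n => ‖r n - a‖ * ‖r n - b‖) 1).1 hprod
  -- if the sequence stays away from b it tends to a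
  have key : ∀ a b : ℂ, ∀ δ : ℝ, 0 < δ →
      Tendsto (fun n => ‖r n - a‖ * ‖r n - b‖) atTop (𝓝 0) →
      (∀ᶠ n in atTop, δ ≤ ‖r n - b‖) → Tendsto r atTop (𝓝 a) := by
    intro a b δ hδ hp hb
    rw [tendsto_iff_norm_sub_tendsto_zero]
    have h1 : Tendsto (fun n => (‖r n - a‖ * ‖r n - b‖) / δ) atTop (𝓝 0) := by
      have := hp.div_const δ
      rwa [zero_div] at this
    refine squeeze_zero' (Eventually.of_forall fun n => norm_nonneg _) ?_ h1
    filter_upwards [hb] with n hn
    rw [le_div_iff₀ hδ]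
    exact mul_le_mul_of_nonneg_left hn (norm_nonneg _)
  by_cases hab : a = b
  · refine ⟨a, hfa, ?_⟩
    rw [tendsto_iff_norm_sub_tendsto_zero]
    have h1 : Tendsto (fun n => Real.sqrt (‖r n - a‖ * ‖r n - b‖)) atTop (𝓝 0) := by
      have := hprod'.sqrt
      rwa [Real.sqrt_zero] at this
    refine h1.congr fun n => ?_
    rw [← hab, Real.sqrt_mul_self (norm_nonneg _)]
  · set δ : ℝ := ‖a - b‖ / 4 with hδ
    have hd0 : 0 < ‖a - b‖ := norm_pos_iff.2 (sub_ne_zero.2 hab)
    have hδ0 : 0 < δ := by positivity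
    have e1 : ∀ᶠ n in atTop, ‖r (n + 1) - r n‖ < δ := hs.eventually_lt_const hδ0
    have e2 : ∀ᶠ n in atTop, ‖r n - a‖ * ‖r n - b‖ < δ * δ :=
      hprod'.eventually_lt_const (by positivity)
    obtain ⟨N, hN⟩ := eventually_atTop.1 (e1.and e2)
    have hor : ∀ n, N ≤ n → ‖r n - a‖ < δ ∨ ‖r n - b‖ < δ := by
      intro n hn
      by_contra hcon
      push Not at hcon
      have := mul_le_mul hcon.1 hcon.2 hδ0.le (norm_nonneg _)
      exact absurd (hN n hn).2 (not_lt.2 this)
    have htri : ∀ z, ‖a - b‖ ≤ ‖z - a‖ + ‖z - b‖ := by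
      intro z
      have := norm_sub_le (z - b) (z - a)
      have h2 : z - b - (z - a) = a - b := by ring
      rw [h2] at this
      linarith
    have hstay : ∀ x y : ℂ, (∀ z : ℂ, ‖a - b‖ ≤ ‖z - x‖ + ‖z - y‖) →
        (∀ n, N ≤ n → ‖r n - x‖ < δ ∨ ‖r n - y‖ < δ) → ‖r N - x‖ < δ →
        ∀ n, N ≤ n → ‖r n - x‖ < δ := by
      intro x y h1 h2 h3 n hn
      induction n, hn using Nat.le_induction with
      | base => exact h3
      | succ n hn ih =>
        rcases h2 (n + 1) (by omega) with h | h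
        · exact h
        · exfalso
          have h4 := h1 (r n)
          have h5 := (hN n hn).1
          have h6 : ‖r n - y‖ ≤ ‖r (n + 1) - y‖ + ‖r (n + 1) - r n‖ := by
            have := norm_sub_le (r (n + 1) - y) (r (n + 1) - r n)
            have h7 : r (n + 1) - y - (r (n + 1) - r n) = r n - y := by ring
            rw [h7] at this
            exact this
          linarith
    rcases hor N le_rfl with h | h
    · refine ⟨a, hfa, key a b δ hδ0 hprod' ?_⟩
      filter_upwards [eventually_ge_atTop N] with n hn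
      have h1 := hstay a b htri hor h n hn
      have h2 := htri (r n)
      linarith
    · refine ⟨b, hfb, key b a δ hδ0 (hprod'.congr fun n => mul_comm _ _) ?_⟩
      filter_upwards [eventually_ge_atTop N] with n hn
      have h1 := hstay b a (fun z => by rw [add_comm]; exact htri z)
        (fun n hn => (hor n hn).symm) h n hn
      have h2 := htri (r n)
      linarith

end HH
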