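import Pool.Agent.Work.MP_065151_hh.Basic

/-!
# The chain of preimages of the hedgehog
-/

set_option autoImplicit false

open Topology Metric Filter Set

namespace HH

open R4C (f K Bot Cof IsDisk rad)

/-- A critical hedgehog. -/
structure Hog (c : ℂ) (H : Set ℂ) : Prop where
  cpt : IsCompact H
  con : IsPreconnected H
  zer : (0 : ℂ) ∈ H
  img : f c '' H = H
  inj : Set.InjOn (f c) H

variable {c : ℂ} {H : Set ℂ}

lemma iter_mem_K (c : ℂ) (n : ℕ) (z : ℂ) : (f c)^[n] z ∈ K c ↔ z ∈ K c := by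
  induction n with
  | zero => simp
  | succ n ih =>
    rw [Function.iterate_succ_apply', (R4C.stmt_ELM c).2.2.2.2.2.1]
    exact ih

lemma neg_mem_K (c z : ℂ) : -z ∈ K c ↔ z ∈ K c := (R4C.stmt_ELM c).2.2.2.2.2.2.1 z

lemma f_mem_K (c z : ℂ) : f c z ∈ K c ↔ z ∈ K c := (R4C.stmt_ELM c).2.2.2.2.2.1 z

namespace Hog

lemma map (h : Hog c H) {z : ℂ} (hz : z ∈ H) : f c z ∈ H := by
  have : f c z ∈ f c '' H := ⟨z, hz, rfl⟩
  rwa [h.img] at this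

lemma iter (h : Hog c H) (n : ℕ) {z : ℂ} (hz : z ∈ H) : (f c)^[n] z ∈ H := by
  induction n with
  | zero => exact hz
  | succ n ih => rw [Function.iterate_succ_apply']; exact h.map ih

lemma sub_K (h : Hog c H) : H ⊆ K c := by
  intro z hz
  obtain ⟨R, hR⟩ := h.cpt.isBounded.subset_closedBall 0
  exact ⟨R, fun n => mem_closedBall_zero_iff.1 (hR (h.iter n hz))⟩

lemma c_mem (h : Hog c H) : c ∈ H := by
  have := h.map h.zer
  rwa [f_zero] at this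

lemma neg_inter (h : Hog c H) {z : ℂ} (hz : z ∈ H) (hz' : -z ∈ H) : z = 0 := by
  have := h.inj hz hz' (f_neg c z).symm
  exact self_eq_neg.1 this

lemma neg_c_notMem (h : Hog c H) (hc : c ≠ 0) : -c ∉ H := fun h1 => hc (h.neg_inter h.c_mem h1)

lemma zero_mem_K (h : Hog c H) : (0 : ℂ) ∈ K c := h.sub_K h.zer

lemma exists_pre (h : Hog c H) : ∃ x ∈ H, f c x = 0 := by
  have : (0 : ℂ) ∈ f c '' H := by rw [h.img]; exact h.zer
  obtain ⟨x, hx, hx0⟩ := this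
  exact ⟨x, hx, hx0⟩

end Hog

/-- The reflected hedgehog. -/
def nH (H : Set ℂ) : Set ℂ := Neg.neg ⁻¹' H

lemma mem_nH {z : ℂ} : z ∈ nH H ↔ -z ∈ H := Iff.rfl

lemma nH_cpt (h : Hog c H) : IsCompact (nH H) := (Homeomorph.neg ℂ).isCompact_preimage.2 h.cpt

lemma nH_con (h : Hog c H) : IsPreconnected (nH H) :=
  (Homeomorph.neg ℂ).isPreconnected_preimage.2 h.con

lemma nH_sub (h : Hog c H) : nH H ⊆ K c := fun z hz => (neg_mem_K c z).1 (h.sub_K hz)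

lemma nH_zero (h : Hog c H) : (0 : ℂ) ∈ nH H := by
  rw [mem_nH, neg_zero]; exact h.zer

/-- The first link of the chain. -/
lemma first (h : Hog c H) (hi : interior (K c) = ∅) {x : ℂ} (hx : x ∈ H) (hx0 : f c x = 0) :
    ∃ C : Set ℂ, IsCompact C ∧ IsConnected C ∧ C ⊆ K c ∧ Disjoint C H ∧ -x ∈ C ∧
      (∀ z ∈ C, -(f c z) ∈ H) ∧ nH H ⊆ f c '' C := by
  have hc := c_ne_zero hi
  have hx2 : x ^ 2 = -c := by
    have : x ^ 2 + c = 0 := hx0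
    linear_combination this
  obtain ⟨s, hs, hsq⟩ := sqrt_of_log (log_unbdd (nH_cpt h)
    (full_sub h.zero_mem_K hi (nH_sub h)) (compl_unbdd (nH_cpt h).isBounded)
    disjoint_compl_left (x := c) (h.neg_c_notMem hc))
  obtain ⟨σ, hσ, hσq, hσ0⟩ : ∃ σ : ℂ → ℂ, ContinuousOn σ (nH H) ∧
      (∀ z ∈ nH H, σ z ^ 2 = z - c) ∧ σ 0 = -x := by
    have h1 : s 0 ^ 2 = (-x) ^ 2 := by
      rw [hsq 0 (nH_zero h), neg_sq, hx2, zero_sub]
    rcases sq_eq_sq_iff_eq_or_eq_neg.1 h1 with h2 | h2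
    · exact ⟨s, hs, hsq, h2⟩
    · refine ⟨fun z => -s z, hs.neg, fun z hz => by rw [neg_sq]; exact hsq z hz, ?_⟩
      simp only
      rw [h2, neg_neg]
  have hfσ : ∀ z ∈ nH H, f c (σ z) = z := by
    intro z hz
    show σ z ^ 2 + c = z
    rw [hσq z hz]
    ring
  refine ⟨σ '' nH H, (nH_cpt h).image_of_continuousOn hσ,
    ⟨⟨_, 0, nH_zero h, rfl⟩, (nH_con h).image _ hσ⟩, ?_, ?_, ⟨0, nH_zero h, hσ0⟩, ?_, ?_⟩
  · rintro _ ⟨z, hz, rfl⟩
    rw [← f_mem_K, hfσ z hz]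
    exact nH_sub h hz
  · rw [Set.disjoint_left]
    rintro _ ⟨z, hz, rfl⟩ hH
    have h1 := h.map hH
    rw [hfσ z hz] at h1
    have h2 : z = 0 := h.neg_inter h1 hz
    subst h2
    rw [hσ0] at hH
    have h3 := h.neg_inter hx hH
    rw [h3, f_zero] at hx0
    exact hc hx0
  · rintro _ ⟨z, hz, rfl⟩
    rw [hfσ z hz]
    exact hz
  · intro z hz
    exact ⟨σ z, ⟨z, hz, rfl⟩, hfσ z hz⟩

lemma exists_disk {X : Set ℂ} (hX : IsCompact X) (hXc : IsConnected X)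
    (hXf : IsPreconnected Xᶜ) (hH : IsClosed H) (hd : Disjoint X H) :
    ∃ V : Set ℂ, IsOpen V ∧ IsPreconnected V ∧ Cof V ∧ X ⊆ V ∧ Bornology.IsBounded V ∧
      Disjoint V H := by
  have hne : (Xᶜ).Nonempty := by
    rw [Set.nonempty_iff_ne_empty]
    intro h
    rw [Set.compl_empty_iff] at h
    have := hX.isBounded
    rw [h] at this
    exact NormedSpace.unbounded_univ ℝ ℂ this
  obtain ⟨W, hW1, -, hW3⟩ := R4C.stmt_DSK.2.2.2 X hX hXc ⟨hne, hXf⟩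
  obtain ⟨ε, hε, hεs⟩ := hX.exists_thickening_subset_open hH.isOpen_compl
    (fun z hz hzH => Set.disjoint_left.1 hd hz hzH)
  obtain ⟨δ, hδ, hδs⟩ := hW3 ε hε
  obtain ⟨⟨h1, h2, h3⟩, h4, h5⟩ := hW1 δ hδ
  refine ⟨W δ, h1, h2.isPreconnected, h3, ?_, h5, ?_⟩
  · exact (self_subset_thickening hδ X).trans h4
  · rw [Set.disjoint_left]
    exact fun z hz hzH => hεs (hδs hz) hzH

lemma diff_sqrt {V : Set ℂ} (hV : IsOpen V) {h q : ℂ → ℂ} (hc : ContinuousOn h V)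
    (hq : DifferentiableOn ℂ q V) (hsq : ∀ w ∈ V, h w ^ 2 = q w) (hne : ∀ w ∈ V, q w ≠ 0) :
    DifferentiableOn ℂ h V := by
  intro w0 hw0
  have hVn : V ∈ 𝓝 w0 := hV.mem_nhds hw0
  have hq' := (hq.differentiableAt hVn).hasDerivAt
  have hc0 : ContinuousAt h w0 := hc.continuousAt hVn
  have h0 : h w0 ≠ 0 := by
    intro h1
    apply hne w0 hw0
    rw [← hsq w0 hw0, h1]
    simp
  have h00 : h w0 + h w0 ≠ 0 := by
    rw [← two_mul]
    exact mul_ne_zero two_ne_zero h0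
  have key : HasDerivAt h (deriv q w0 / (h w0 + h w0)) w0 := by
    rw [hasDerivAt_iff_tendsto_slope] at hq' ⊢
    have h1 : Tendsto (fun w => h w + h w0) (𝓝[≠] w0) (𝓝 (h w0 + h w0)) :=
      (hc0.tendsto.mono_left nhdsWithin_le_nhds).add_const _
    refine (hq'.div h1 h00).congr' ?_
    have h2 : ∀ᶠ w in 𝓝 w0, h w + h w0 ≠ 0 :=
      (hc0.add continuousAt_const).eventually_ne h00
    filter_upwards [nhdsWithin_le_nhds hVn, nhdsWithin_le_nhds h2] with w hw hw2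
    rw [Pi.div_apply, slope_def_field, slope_def_field, ← hsq w hw, ← hsq w0 hw0]
    rw [div_right_comm]
    congr 1
    rw [div_eq_iff hw2]
    ring
  exact key.differentiableAt.differentiableWithinAt

lemma step (h : Hog c H) {V : Set ℂ} (hV : IsOpen V) (hC : Cof V) (hd : Disjoint V H) (k : ℕ)
    {s : ℂ → ℂ} (hs : DifferentiableOn ℂ s V) (hfs : ∀ w ∈ V, (f c)^[k] (s w) = w) :
    ∃ s' : ℂ → ℂ, DifferentiableOn ℂ s' V ∧ ∀ w ∈ V, f c (s' w) = s w := by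
  have hcV : c ∉ (f c)^[k] ⁻¹' V := fun h1 => Set.disjoint_left.1 hd h1 (h.iter k h.c_mem)
  obtain ⟨A, hAV, hcA, hAc, hAu⟩ := R4C.DSK.cof_preimage c k V hV hC c hcV
  have hcl : closure A ⊆ ((f c)^[k] ⁻¹' V)ᶜ :=
    closure_minimal hAV (hV.preimage (R4C.DSK.continuous_iter c k)).isClosed_compl
  obtain ⟨B, hBc, hB⟩ := sqrt_unbdd isClosed_closure hAc.closure
    (fun hb => hAu (hb.subset subset_closure)) (subset_closure hcA)
  have hmem : ∀ w ∈ V, s w ∉ closure A := by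
    intro w hw h1
    apply hcl h1
    rw [Set.mem_preimage, hfs w hw]
    exact hw
  have hne : ∀ w ∈ V, s w - c ≠ 0 := by
    intro w hw h1
    exact hmem w hw (by rw [sub_eq_zero.1 h1]; exact subset_closure hcA)
  refine ⟨fun w => B (s w), diff_sqrt hV (hBc.comp hs.continuousOn hmem)
    (hs.sub_const c) (fun w hw => hB _ (hmem w hw)) hne, fun w hw => ?_⟩
  show B (s w) ^ 2 + c = s w
  rw [hB _ (hmem w hw)]
  ring

/-- The chain. -/
theorem chain (h : Hog c H) (hi : interior (K c) = ∅) :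
    ∃ (x : ℂ) (C : ℕ → Set ℂ) (p : ℂ), x ∈ H ∧ -x ∈ C 0 ∧
      (∀ k, IsCompact (C k) ∧ IsPreconnected (C k) ∧ C k ⊆ K c ∧ Disjoint (C k) H) ∧
      (∀ k, (C k ∩ C (k + 1)).Nonempty) ∧ (∀ k, ∀ z ∈ C k, -((f c)^[k + 1] z) ∈ H) ∧
      f c p = p ∧ ∀ ε : ℝ, 0 < ε → ∃ N, ∀ k, N ≤ k → ∀ z ∈ C k, ‖z - p‖ < ε := by
  obtain ⟨x, hx, hx0⟩ := h.exists_pre
  obtain ⟨C1, hC1c, hC1n, hC1K, hC1H, hxC, hC1f, hC1s⟩ := first h hi hx hx0
  obtain ⟨V, hVo, hVc, hVC, hCV, hVb, hVH⟩ := exists_disk hC1c hC1n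
    (full_sub h.zero_mem_K hi hC1K) h.cpt.isClosed hC1H
  have hxV : -x ∈ V := hCV hxC
  let T : ℕ → Type := fun k => {s : ℂ → ℂ // DifferentiableOn ℂ s V ∧
    (∀ w ∈ V, (f c)^[k] (s w) = w) ∧ s (-x) ∈ f c '' (s '' C1)}
  have hstep : ∀ k (s : T k), ∃ s' : T (k + 1), (∀ w ∈ V, f c (s'.1 w) = s.1 w) ∧
      s'.1 (-x) ∈ s.1 '' C1 := by
    rintro k ⟨s, hs1, hs2, hs3⟩
    obtain ⟨_, ⟨u, hu, rfl⟩, hu2⟩ := hs3
    obtain ⟨s', hs'1, hs'2⟩ : ∃ s' : ℂ → ℂ, (DifferentiableOn ℂ s' V ∧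
        ∀ w ∈ V, f c (s' w) = s w) ∧ s' (-x) = s u := by
      obtain ⟨s', h1, h2⟩ := step h hVo hVC hVH k hs1 hs2
      have h3 : f c (s' (-x)) = f c (s u) := by rw [h2 _ hxV, hu2]
      rcases f_eq h3 with h4 | h4
      · exact ⟨s', ⟨h1, h2⟩, h4⟩
      · refine ⟨fun w => -s' w, ⟨h1.neg, fun w hw => ?_⟩, ?_⟩
        · rw [f_neg]; exact h2 w hw
        · simp only
          rw [h4, neg_neg]
    refine ⟨⟨s', hs'1.1, fun w hw => ?_, ?_⟩, hs'1.2, ⟨u, hu, hs'2.symm⟩⟩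
    · rw [Function.iterate_succ_apply, hs'1.2 w hw]
      exact hs2 w hw
    · refine ⟨s' u, ⟨u, hu, rfl⟩, ?_⟩
      rw [hs'1.2 u (hCV hu), hs'2]
  choose nxt hn1 hn2 using hstep
  let init : T 0 := ⟨fun w => w, differentiableOn_id, fun w _ => rfl, by
    rw [Set.image_id']
    exact hC1s (by rw [mem_nH, neg_neg]; exact hx)⟩
  let S : (k : ℕ) → T k := fun k => Nat.rec init (fun k s => nxt k s) k
  have hS1 : ∀ k, ∀ w ∈ V, f c ((S (k + 1)).1 w) = (S k).1 w := fun k => hn1 k (S k)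
  have hS2 : ∀ k, (S (k + 1)).1 (-x) ∈ (S k).1 '' C1 := fun k => hn2 k (S k)
  have hSML : ∀ ε : ℝ, 0 < ε → ∃ N0 : ℕ, ∀ N, N0 ≤ N → ∀ w ∈ C1, ∀ w' ∈ C1,
      ‖(S N).1 w - (S N).1 w'‖ < ε := by
    intro ε hε
    have hex : ∃ w ∈ V, w ∉ K c := by
      by_contra hcon
      push Not at hcon
      have h1 : -x ∈ interior (K c) := mem_interior.2 ⟨V, hcon, hVo, hxV⟩
      rw [hi] at h1
      exact h1
    obtain ⟨N0, hN0⟩ := R4C.stmt_SML R4C.stmt_ELM c V C1 (fun w => w) hVo hVc continuousOn_id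
      (by rw [Set.image_id']; exact hVb) hex hCV hC1c ε hε
    exact ⟨N0, fun N hN => hN0 N hN (S N).1 (S N).2.1 (S N).2.2.1⟩
  have hr : ∀ n, f c ((S (n + 1)).1 (-x)) = (S n).1 (-x) := fun n => hS1 n _ hxV
  have hrs : Tendsto (fun n => ‖(S (n + 1)).1 (-x) - (S n).1 (-x)‖) atTop (𝓝 0) := by
    rw [Metric.tendsto_atTop]
    intro ε hε
    obtain ⟨N0, hN0⟩ := hSML ε hε
    refine ⟨N0, fun n hn => ?_⟩
    rw [dist_zero_right, norm_norm]
    obtain ⟨u, hu, hu2⟩ := hS2 n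
    rw [← hu2]
    exact hN0 n hn u hu _ hxC
  obtain ⟨p, hp, hlim⟩ := seq_lim (r := fun n => (S n).1 (-x)) hr hrs
  refine ⟨x, fun k => (S k).1 '' C1, p, hx, ⟨-x, hxC, rfl⟩, fun k => ⟨?_, ?_, ?_, ?_⟩,
    fun k => ⟨(S (k + 1)).1 (-x), hS2 k, ⟨-x, hxC, rfl⟩⟩, ?_, hp, ?_⟩
  · exact hC1c.image_of_continuousOn ((S k).2.1.continuousOn.mono hCV)
  · exact hC1n.isPreconnected.image _ ((S k).2.1.continuousOn.mono hCV)
  · rintro _ ⟨w, hw, rfl⟩
    rw [← iter_mem_K c k, (S k).2.2.1 w (hCV hw)]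
    exact hC1K hw
  · rw [Set.disjoint_left]
    rintro _ ⟨w, hw, rfl⟩ hH
    have h1 := h.iter k hH
    rw [(S k).2.2.1 w (hCV hw)] at h1
    exact Set.disjoint_left.1 hC1H hw h1
  · rintro k _ ⟨w, hw, rfl⟩
    rw [Function.iterate_succ_apply', (S k).2.2.1 w (hCV hw)]
    exact hC1f w hw
  · intro ε hε
    obtain ⟨N0, hN0⟩ := hSML (ε / 2) (by linarith)
    obtain ⟨N1, hN1⟩ := Metric.tendsto_atTop.1 hlim (ε / 2) (by linarith)
    refine ⟨max N0 N1, ?_⟩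
    rintro k hk _ ⟨w, hw, rfl⟩
    have h1 := hN0 k (by omega) w hw _ hxC
    have h2 := hN1 k (by omega)
    rw [dist_eq_norm] at h2
    have h3 : (S k).1 w - p = ((S k).1 w - (S k).1 (-x)) + ((S k).1 (-x) - p) := by ring
    rw [h3]
    exact (norm_add_le _ _).trans_lt (by linarith)

end HH
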