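import Pool.Agent.Work.MP_065151_hh.Logs
import Pool.Agent.Work.MP_e3f5d9_al_cx.ELM
import Pool.Agent.Work.MP_e3f5d9_al_cx.DSK

/-!
# Preimages of continua and the separation criterion
-/

set_option autoImplicit false

open Topology Metric Filter Set

namespace HH

open R4C (f K Bot Cof IsDisk rad)

lemma f_neg (c z : ℂ) : f c (-z) = f c z := by simp [f]

lemma f_zero (c : ℂ) : f c 0 = c := by simp [f]

lemma f_eq {c z w : ℂ} (h : f c z = f c w) : z = w ∨ z = -w := by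
  have h1 : z ^ 2 = w ^ 2 := by
    have : z ^ 2 + c = w ^ 2 + c := h
    linear_combination this
  exact sq_eq_sq_iff_eq_or_eq_neg.1 h1

lemma f_surj (c y : ℂ) : ∃ z, f c z = y := by
  obtain ⟨z, hz⟩ := IsAlgClosed.exists_pow_nat_eq (y - c) (n := 2) (by norm_num)
  exact ⟨z, by simp [f, hz]⟩

lemma f_cont (c : ℂ) : Continuous (f c) := R4C.DSK.continuous_f c

lemma preimage_compact (c : ℂ) {A : Set ℂ} (hA : IsCompact A) : IsCompact (f c ⁻¹' A) := by
  obtain ⟨R, hR⟩ := hA.isBounded.subset_closedBall 0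
  refine Metric.isCompact_of_isClosed_isBounded (hA.isClosed.preimage (f_cont c)) ?_
  refine (Metric.isBounded_closedBall (x := (0 : ℂ)) (r := max R (rad c))).subset fun z hz => ?_
  rw [mem_closedBall_zero_iff]
  have h1 := (R4C.stmt_ELM c).2.2.1 z 1 (max R (rad c)) (le_max_right _ _)
  apply h1
  rw [Function.iterate_one]
  exact (mem_closedBall_zero_iff.1 (hR hz)).trans (le_max_left _ _)

lemma preimage_conn_aux (c : ℂ) {A : Set ℂ} (hA : IsCompact A) (hAc : IsPreconnected A)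
    (hc : c ∈ A) (t t' : Set ℂ) (ht : IsClosed t) (ht' : IsClosed t')
    (hsub : f c ⁻¹' A ⊆ t ∪ t') (h0 : (0 : ℂ) ∈ t) (hn : (f c ⁻¹' A ∩ t').Nonempty) :
    (f c ⁻¹' A ∩ (t ∩ t')).Nonempty := by
  have hF := preimage_compact c hA
  have h1 : IsCompact (f c '' (f c ⁻¹' A ∩ t')) := (hF.inter_right ht').image (f_cont c)
  have h2 : IsCompact (f c '' ((f c ⁻¹' A ∩ t) ∩ (Neg.neg ⁻¹' t))) :=
    ((hF.inter_right ht).inter_right (ht.preimage continuous_neg)).image (f_cont c)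
  obtain ⟨a, -, ⟨u, ⟨⟨-, hu1⟩, hu2⟩, rfl⟩, ⟨v, ⟨hv1, hv2⟩, hv3⟩⟩ :=
    (isPreconnected_closed_iff.1 hAc) _ _ h2.isClosed h1.isClosed
    (by
      intro a ha
      obtain ⟨z, rfl⟩ := f_surj c a
      by_cases hz : z ∈ t'
      · exact Or.inr ⟨z, ⟨ha, hz⟩, rfl⟩
      · by_cases hz' : -z ∈ t'
        · exact Or.inr ⟨-z, ⟨by rw [Set.mem_preimage, f_neg]; exact ha, hz'⟩, f_neg c z⟩
        · have h3 : z ∈ t := (hsub ha).resolve_right hz
          have h4 : -z ∈ t := by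
            have : -z ∈ f c ⁻¹' A := by rw [Set.mem_preimage, f_neg]; exact ha
            exact (hsub this).resolve_right hz'
          exact Or.inl ⟨z, ⟨⟨ha, h3⟩, h4⟩, rfl⟩)
    ⟨c, hc, 0, ⟨⟨by rw [Set.mem_preimage, f_zero]; exact hc, h0⟩,
      by rw [Set.mem_preimage, neg_zero]; exact h0⟩, f_zero c⟩
    (by
      obtain ⟨q, hq1, hq2⟩ := hn
      exact ⟨f c q, hq1, q, ⟨hq1, hq2⟩, rfl⟩)
  refine ⟨v, hv1, ?_, hv2⟩
  rcases f_eq hv3 with h | h
  · rw [h]; exact hu1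
  · rw [h]; exact hu2

/-- L1 -/
theorem preimage_conn (c : ℂ) {A : Set ℂ} (hA : IsCompact A) (hAc : IsPreconnected A)
    (hc : c ∈ A) : IsPreconnected (f c ⁻¹' A) := by
  rw [isPreconnected_closed_iff]
  intro t t' ht ht' hsub hn hn'
  have h0 : (0 : ℂ) ∈ f c ⁻¹' A := by rw [Set.mem_preimage, f_zero]; exact hc
  rcases hsub h0 with h | h
  · exact preimage_conn_aux c hA hAc hc t t' ht ht' hsub h hn'
  · obtain ⟨z, h1, h2, h3⟩ := preimage_conn_aux c hA hAc hc t' t ht' ht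
      (by rw [Set.union_comm]; exact hsub) h hn
    exact ⟨z, h1, h3, h2⟩

lemma preconn_of_inter {A B : Set ℂ} (hA : IsClosed A) (hB : IsClosed B)
    (hAB : IsPreconnected (A ∪ B)) (hi : IsPreconnected (A ∩ B)) (hn : (A ∩ B).Nonempty) :
    IsPreconnected A := by
  rw [isPreconnected_closed_iff] at hAB hi ⊢
  have key : ∀ t t' : Set ℂ, IsClosed t → IsClosed t' → A ⊆ t ∪ t' → (A ∩ t').Nonempty →
      ((A ∩ B) ∩ t).Nonempty → (A ∩ (t ∩ t')).Nonempty := by
    intro t t' ht ht' hs hn1 hn2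
    by_cases hn3 : ((A ∩ B) ∩ t').Nonempty
    · obtain ⟨y, hy1, hy2⟩ := hi t t' ht ht' (Set.inter_subset_left.trans hs) hn2 hn3
      exact ⟨y, hy1.1, hy2⟩
    · obtain ⟨y, hy1, hy2⟩ := hAB ((A ∩ t) ∪ B) (A ∩ t') ((hA.inter ht).union hB) (hA.inter ht')
        (by
          rintro y (hy | hy)
          · rcases hs hy with h | h
            · exact Or.inl (Or.inl ⟨hy, h⟩)
            · exact Or.inr ⟨hy, h⟩
          · exact Or.inl (Or.inr hy))
        (by
          obtain ⟨y, hy⟩ := hn2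
          exact ⟨y, Or.inl hy.1.1, Or.inl ⟨hy.1.1, hy.2⟩⟩)
        (by
          obtain ⟨y, hy⟩ := hn1
          exact ⟨y, Or.inl hy.1, hy⟩)
      rcases hy2.1 with h | h
      · exact ⟨y, hy2.2.1, h.2, hy2.2.2⟩
      · exact absurd ⟨y, ⟨hy2.2.1, h⟩, hy2.2.2⟩ hn3
  intro t t' ht ht' hs hn1 hn2
  obtain ⟨x, hx⟩ := hn
  rcases hs hx.1 with h | h
  · exact key t t' ht ht' hs hn2 ⟨x, hx, h⟩
  · obtain ⟨y, h1, h2, h3⟩ := key t' t ht' ht (by rw [Set.union_comm]; exact hs) hn1 ⟨x, hx, h⟩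
    exact ⟨y, h1, h3, h2⟩

/-- The separation criterion. -/
theorem crit {c : ℂ} (hKc : IsPreconnected (K c)) {S' G : Set ℂ} (hS : IsCompact S')
    (hSc : IsPreconnected S') (hcS : c ∈ S') (hSK : S' ⊆ K c) (hne : ∃ z ∈ K c, z ∉ S')
    (hG : IsClosed G) (hGc : IsPreconnected G) (hGu : ¬ Bornology.IsBounded G)
    (hGK : G ∩ K c ⊆ S') (hGS : (G ∩ S').Nonempty) :
    ∃ A B : Set ℂ, IsCompact A ∧ IsConnected A ∧ IsCompact B ∧ IsConnected B ∧ A ≠ K c ∧
      B ≠ K c ∧ A ∪ B = K c ∧ A ∩ B = f c ⁻¹' S' ∧ (∀ z, z ∈ A ↔ -z ∈ B) ∧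
    ∀ R : Set ℂ, IsPreconnected R → (∀ z ∈ R, f c z ∉ S' ∪ G) →
      K c ∩ closure R ⊆ A ∨ K c ∩ closure R ⊆ B := by
  obtain ⟨-, -, -, -, hKcpt, hKf, hKn, -, -, -, -⟩ := R4C.stmt_ELM c
  set E := S' ∪ G with hE
  have hEcl : IsClosed E := hS.isClosed.union hG
  have hEc : IsPreconnected E := by
    obtain ⟨x, hx1, hx2⟩ := hGS
    exact IsPreconnected.union x hx2 hx1 hSc hGc
  have hEu : ¬ Bornology.IsBounded E := fun h => hGu (h.subset Set.subset_union_right)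
  have hcE : c ∈ E := Or.inl hcS
  obtain ⟨B, hBc, hB⟩ := sqrt_unbdd hEcl hEc hEu hcE
  have hsq : ∀ y, f c y ∉ E → B (f c y) ^ 2 = y ^ 2 := by
    intro y hy
    rw [hB _ hy]
    show y ^ 2 + c - c = y ^ 2
    ring
  have hy0 : ∀ y, f c y ∉ E → y ≠ 0 := by
    rintro y hy rfl
    exact hy (by rw [f_zero]; exact hcE)
  have hB0 : ∀ y, f c y ∉ E → B (f c y) ≠ 0 := by
    intro y hy h
    have h1 := hsq y hy
    rw [h] at h1
    exact hy0 y hy (by simpa using h1.symm)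
  have hdich : ∀ y, f c y ∉ E → y = B (f c y) ∨ y = -B (f c y) := fun y hy =>
    sq_eq_sq_iff_eq_or_eq_neg.1 (hsq y hy).symm
  have hOE : IsOpen (f c ⁻¹' Eᶜ) := hEcl.isOpen_compl.preimage (f_cont c)
  have hBf : ContinuousOn (fun y => B (f c y)) (f c ⁻¹' Eᶜ) :=
    hBc.comp (f_cont c).continuousOn (fun y hy => hy)
  -- the two sides
  set Op : Set ℂ := {y | f c y ∉ E ∧ y = B (f c y)} with hOp
  set Om : Set ℂ := {y | f c y ∉ E ∧ y = -B (f c y)} with hOm
  have hOpo : IsOpen Op := by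
    have h1 : Op = (f c ⁻¹' Eᶜ) ∩ (fun y => y + B (f c y)) ⁻¹' {0}ᶜ := by
      ext y
      simp only [hOp, Set.mem_ofPred_eq, Set.mem_inter_iff, Set.mem_preimage, Set.mem_compl_iff,
        Set.mem_singleton_iff]
      refine and_congr_right fun hy => ⟨fun h h2 => ?_, fun h => ?_⟩
      · rw [← h] at h2
        exact hy0 y hy (by
          have : (2 : ℂ) * y = 0 := by linear_combination h2
          simpa using this)
      · rcases hdich y hy with h2 | h2
        · exact h2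
        · exact absurd (by linear_combination h2) h
    rw [h1]
    exact (continuousOn_id.add hBf).isOpen_inter_preimage hOE isOpen_compl_singleton
  have hOmo : IsOpen Om := by
    have h1 : Om = (f c ⁻¹' Eᶜ) ∩ (fun y => y - B (f c y)) ⁻¹' {0}ᶜ := by
      ext y
      simp only [hOm, Set.mem_ofPred_eq, Set.mem_inter_iff, Set.mem_preimage, Set.mem_compl_iff,
        Set.mem_singleton_iff]
      refine and_congr_right fun hy => ⟨fun h h2 => ?_, fun h => ?_⟩
      · exact hy0 y hy (by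
          have : (2 : ℂ) * y = 0 := by linear_combination h + h2
          simpa using this)
      · rcases hdich y hy with h2 | h2
        · exact absurd (by linear_combination h2) h
        · exact h2
    rw [h1]
    exact (continuousOn_id.sub hBf).isOpen_inter_preimage hOE isOpen_compl_singleton
  have hdisj : ∀ y, y ∈ Op → y ∈ Om → False := by
    rintro y ⟨h1, h2⟩ ⟨-, h3⟩
    exact hy0 y h1 (by
      have : (2 : ℂ) * y = 0 := by linear_combination h2 + h3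
      simpa using this)
  have hneg : ∀ y, y ∈ Op → -y ∈ Om := by
    rintro y ⟨h1, h2⟩
    refine ⟨by rw [f_neg]; exact h1, ?_⟩
    rw [f_neg]
    exact congrArg _ h2
  have hneg' : ∀ y, y ∈ Om → -y ∈ Op := by
    rintro y ⟨h1, h2⟩
    refine ⟨by rw [f_neg]; exact h1, ?_⟩
    rw [f_neg]
    linear_combination -h2
  -- a point off the preimage of S'
  obtain ⟨z0, hz0K, hz0S⟩ := hne
  obtain ⟨q, rfl⟩ := f_surj c z0
  have hqK : q ∈ K c := (hKf q).1 hz0K
  have hKE : ∀ y ∈ K c, f c y ∈ E → f c y ∈ S' := by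
    rintro y hy (h | h)
    · exact h
    · exact hGK ⟨h, (hKf y).2 hy⟩
  have hqE : f c q ∉ E := fun h => hz0S (hKE q hqK h)
  obtain ⟨yp, hyp1, hyp2⟩ : ∃ y ∈ K c, y ∈ Op := by
    rcases hdich q hqE with h | h
    · exact ⟨q, hqK, hqE, h⟩
    · exact ⟨-q, (hKn q).2 hqK, hneg' q ⟨hqE, h⟩⟩
  have hym1 : -yp ∈ K c := (hKn yp).2 hyp1
  have hym2 : -yp ∈ Om := hneg yp hyp2
  have hcov : (K c \ Om) ∪ (K c \ Op) = K c := by
    ext y
    constructor
    · rintro (h | h)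
      · exact h.1
      · exact h.1
    · intro hy
      by_cases h : y ∈ Om
      · exact Or.inr ⟨hy, fun h2 => hdisj y h2 h⟩
      · exact Or.inl ⟨hy, h⟩
  have hint : (K c \ Om) ∩ (K c \ Op) = f c ⁻¹' S' := by
    ext y
    constructor
    · rintro ⟨⟨h1, h2⟩, ⟨-, h3⟩⟩
      by_contra hcon
      have h4 : f c y ∉ E := fun h => hcon (hKE y h1 h)
      rcases hdich y h4 with h | h
      · exact h3 ⟨h4, h⟩
      · exact h2 ⟨h4, h⟩
    · intro hy
      have hyK : y ∈ K c := (hKf y).1 (hSK hy)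
      exact ⟨⟨hyK, fun h => h.1 (Or.inl hy)⟩, ⟨hyK, fun h => h.1 (Or.inl hy)⟩⟩
  have hcl1 : IsClosed (K c \ Om) := hKcpt.isClosed.sdiff hOmo
  have hcl2 : IsClosed (K c \ Op) := hKcpt.isClosed.sdiff hOpo
  have hintc : IsPreconnected ((K c \ Om) ∩ (K c \ Op)) := by
    rw [hint]; exact preimage_conn c hS hSc hcS
  have h0S : (0 : ℂ) ∈ f c ⁻¹' S' := by rw [Set.mem_preimage, f_zero]; exact hcS
  have hintn : ((K c \ Om) ∩ (K c \ Op)).Nonempty := ⟨0, by rw [hint]; exact h0S⟩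
  have hn1 : (K c \ Om).Nonempty := hintn.mono Set.inter_subset_left
  have hn2 : (K c \ Op).Nonempty := hintn.mono Set.inter_subset_right
  refine ⟨K c \ Om, K c \ Op, hKcpt.of_isClosed_subset hcl1 Set.sdiff_subset,
    ⟨hn1, preconn_of_inter hcl1 hcl2 (by rw [hcov]; exact hKc) hintc hintn⟩,
    hKcpt.of_isClosed_subset hcl2 Set.sdiff_subset,
    ⟨hn2, preconn_of_inter hcl2 hcl1 (by rw [Set.union_comm, hcov]; exact hKc)
      (by rw [Set.inter_comm]; exact hintc) (by rw [Set.inter_comm]; exact hintn)⟩, ?_, ?_, hcov,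
    hint, ?_, ?_⟩
  · intro h
    have h2 : -yp ∈ K c \ Om := by rw [h]; exact hym1
    exact h2.2 hym2
  · intro h
    have h2 : yp ∈ K c \ Op := by rw [h]; exact hyp1
    exact h2.2 hyp2
  · intro z
    constructor
    · rintro ⟨h1, h2⟩
      refine ⟨(hKn z).2 h1, fun h3 => h2 ?_⟩
      have := hneg _ h3
      rwa [neg_neg] at this
    · rintro ⟨h1, h2⟩
      exact ⟨(hKn z).1 h1, fun h3 => h2 (hneg' _ h3)⟩
  · intro R hR hRE
    have hRsub : R ⊆ Op ∪ Om := by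
      intro z hz
      rcases hdich z (hRE z hz) with h | h
      · exact Or.inl ⟨hRE z hz, h⟩
      · exact Or.inr ⟨hRE z hz, h⟩
    by_contra hcon
    push Not at hcon
    obtain ⟨h1, h2⟩ := hcon
    obtain ⟨a, ⟨haK, haR⟩, ha⟩ := Set.not_subset.1 h1
    obtain ⟨b, ⟨hbK, hbR⟩, hb⟩ := Set.not_subset.1 h2
    have ha2 : a ∈ Om := by
      by_contra h
      exact ha ⟨haK, h⟩
    have hb2 : b ∈ Op := by
      by_contra h
      exact hb ⟨hbK, h⟩
    obtain ⟨u, hu1, hu2⟩ := mem_closure_iff.1 hbR Op hOpo hb2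
    obtain ⟨v, hv1, hv2⟩ := mem_closure_iff.1 haR Om hOmo ha2
    obtain ⟨w, -, hw1, hw2⟩ := hR Op Om hOpo hOmo hRsub ⟨u, hu2, hu1⟩ ⟨v, hv2, hv1⟩
    exact hdisj w hw1 hw2

end HH
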