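import Mathlib

/-!
# Quadratic Julia sets, external rays and principal sets
-/

set_option autoImplicit false

open Topology Filter

namespace HH

/-- The quadratic map `z ^ 2 + c`. -/
def quad (c z : ℂ) : ℂ := z ^ 2 + c

/-- The filled-in Julia set: the points whose orbit is bounded. -/
def filledJulia (c : ℂ) : Set ℂ :=
  {z | Bornology.IsBounded (Set.range fun n : ℕ => (quad c)^[n] z)}

/-- The Julia set: the boundary of the filled-in Julia set. -/
def julia (c : ℂ) : Set ℂ := frontier (filledJulia c)

/-- The Boettcher uniformization: a conformal map of the outside of the closed unit disc onto the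
complement of the filled-in Julia set that fixes infinity and conjugates squaring to the
quadratic map. -/
structure IsBottcher (c : ℂ) (φ : ℂ → ℂ) : Prop where
  differentiableOn : DifferentiableOn ℂ φ {w | 1 < ‖w‖}
  bijOn : Set.BijOn φ {w | 1 < ‖w‖} (filledJulia c)ᶜ
  tendsto_infty : Tendsto φ (Bornology.cobounded ℂ) (Bornology.cobounded ℂ)
  map_sq : ∀ w, 1 < ‖w‖ → φ (w ^ 2) = quad c (φ w)

/-- The external ray of angle `t`. -/
def ray (φ : ℂ → ℂ) (t : ℝ) : Set ℂ :=
  (fun r : ℝ => φ ((r : ℂ) * Complex.exp (2 * Real.pi * Complex.I * t))) '' Set.Ioi 1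

/-- The principal continuum of angle `t`: the limit set of the external ray of angle `t`. -/
def principal (φ : ℂ → ℂ) (t : ℝ) : Set ℂ := closure (ray φ t) \ ray φ t

/-- A critical hedgehog: a continuum that contains the critical point and a fixed point, and
that the quadratic map sends bijectively onto itself. -/
structure CriticalHedgehog (c : ℂ) (H : Set ℂ) : Prop where
  isCompact : IsCompact H
  isConnected : IsConnected H
  zero_mem : (0 : ℂ) ∈ H
  fixed_mem : ∃ a ∈ H, quad c a = a
  bijOn : Set.BijOn (quad c) H H

/-- The set `X` is irreducible between `x` and `y`: it contains both points, and no proper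
subcontinuum of `X` contains both. -/
def IrreducibleBetween (X : Set ℂ) (x y : ℂ) : Prop :=
  x ∈ X ∧ y ∈ X ∧ ∀ S : Set ℂ, S ⊆ X → IsCompact S → IsConnected S → x ∈ S → y ∈ S → S = X

/-- The reflection of a set in the critical point `0`. -/
def reflect (A : Set ℂ) : Set ℂ := {z | -z ∈ A}

/-- The set `A` splits the Julia set: it is a proper subcontinuum of the Julia set, it covers the
Julia set together with its reflection, and every principal continuum lies in `A` or in the
reflection of `A`. -/
structure Splits (c : ℂ) (φ : ℂ → ℂ) (A : Set ℂ) : Prop where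
  isCompact : IsCompact A
  isConnected : IsConnected A
  ne_julia : A ≠ julia c
  union_eq : A ∪ reflect A = julia c
  principal_subset : ∀ t : ℝ, principal φ t ⊆ A ∨ principal φ t ⊆ reflect A

end HH
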