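import Pool.Agent.Work.MP_065151_hh.Ray
import Pool.Agent.Work.MP_065151_hh.Chain

/-!
# The final argument
-/

set_option autoImplicit false

open Topology Metric Filter Set

namespace HH

open R4C (f K Bot Cof IsDisk rad)

/-- There is no continuous square root of `z - a` on a circle around `a`. -/
lemma circle (r : ℝ) (hr : 0 < r) (a : ℂ) (B : ℂ → ℂ) (hB : ContinuousOn B (sphere a r))
    (h : ∀ z ∈ sphere a r, B z ^ 2 = z - a) : False := by
  have hm : ∀ θ : ℝ, a + r * Complex.exp (θ * Complex.I) ∈ sphere a r := by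
    intro θ
    rw [mem_sphere, dist_eq_norm]
    rw [add_sub_cancel_left, norm_mul, Complex.norm_exp_ofReal_mul_I, mul_one, Complex.norm_real,
      Real.norm_of_nonneg hr.le]
  set β : ℝ → ℂ := fun θ => B (a + r * Complex.exp (θ * Complex.I)) *
    Complex.exp (-((θ : ℂ) / 2) * Complex.I) with hβ
  have hc : Continuous β := by
    have h1 : Continuous (fun θ : ℝ => B (a + r * Complex.exp (θ * Complex.I))) :=
      hB.comp_continuous (by fun_prop) hm
    exact h1.mul (by fun_prop)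
  have hsq : ∀ θ, β θ ^ 2 = r := by
    intro θ
    rw [hβ]
    simp only
    rw [mul_pow, h _ (hm θ), ← Complex.exp_nat_mul]
    have h2 : ((2 : ℕ) : ℂ) * (-((θ : ℂ) / 2) * Complex.I) = -(θ * Complex.I) := by
      push_cast; ring
    rw [h2, Complex.exp_neg, add_sub_cancel_left, mul_assoc,
      mul_inv_cancel₀ (Complex.exp_ne_zero _), mul_one]
  have h0 : β 0 ≠ 0 := by
    intro h1
    have := hsq 0
    rw [h1] at this
    have h3 : (r : ℂ) ≠ 0 := by exact_mod_cast hr.ne'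
    apply h3
    rw [← this]; simp
  have h2 : β (2 * Real.pi) = -β 0 := by
    rw [hβ]
    simp only
    have e1 : Complex.exp (((2 * Real.pi : ℝ) : ℂ) * Complex.I) = 1 := by
      push_cast
      exact Complex.exp_two_pi_mul_I
    have e2 : Complex.exp (-(((2 * Real.pi : ℝ) : ℂ) / 2) * Complex.I) = -1 := by
      have : -(((2 * Real.pi : ℝ) : ℂ) / 2) * Complex.I = -(Real.pi * Complex.I) := by
        push_cast; ring
      rw [this, Complex.exp_neg, Complex.exp_pi_mul_I]
      norm_num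
    rw [e1, e2]
    simp
  rcases (isPreconnected_univ (α := ℝ)).eq_or_eq_neg_of_sq_eq (f := β) (g := fun _ => β 0)
    hc.continuousOn continuousOn_const (fun θ _ => by
      show β θ ^ 2 = β 0 ^ 2
      rw [hsq, hsq]) (fun _ => h0) with h3 | h3
  · have h4 : β (2 * Real.pi) = β 0 := h3 (Set.mem_univ _)
    rw [h2] at h4
    exact h0 (by linear_combination (-1/2 : ℂ) * h4)
  · have h4 : β 0 = -β 0 := h3 (Set.mem_univ _)
    exact h0 (by linear_combination (1/2 : ℂ) * h4)


lemma seq_compact {C : ℕ → Set ℂ} {p : ℂ} (hC : ∀ k, IsCompact (C k))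
    (hp : ∀ ε : ℝ, 0 < ε → ∃ N, ∀ k, N ≤ k → ∀ z ∈ C k, ‖z - p‖ < ε) :
    IsCompact (insert p (⋃ k, C k)) := by
  rw [isCompact_iff_ultrafilter_le_nhds]
  intro F hF
  rw [le_principal_iff] at hF
  by_cases h : ∃ N : ℕ, (⋃ k ∈ Finset.range N, C k) ∈ F
  · obtain ⟨N, hN⟩ := h
    have hc : IsCompact (⋃ k ∈ Finset.range N, C k) :=
      (Finset.range N).isCompact_biUnion fun k _ => hC k
    obtain ⟨x, hx, hx2⟩ := isCompact_iff_ultrafilter_le_nhds.1 hc F (le_principal_iff.2 hN)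
    refine ⟨x, ?_, hx2⟩
    obtain ⟨k, -, hk⟩ := Set.mem_iUnion₂.1 hx
    exact Or.inr (Set.mem_iUnion.2 ⟨k, hk⟩)
  · push Not at h
    refine ⟨p, Set.mem_insert _ _, ?_⟩
    rw [Metric.nhds_basis_ball.ge_iff]
    intro ε hε
    obtain ⟨N, hN⟩ := hp ε hε
    have h1 : (⋃ k ∈ Finset.range N, C k)ᶜ ∈ F := Ultrafilter.compl_mem_iff_notMem.2 (h N)
    refine Filter.mem_of_superset (Filter.inter_mem hF h1) ?_
    rintro z ⟨hz | hz, hz2⟩
    · rw [hz]; exact mem_ball_self hε
    · obtain ⟨k, hk⟩ := Set.mem_iUnion.1 hz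
      have hkN : N ≤ k := by
        by_contra hcon
        push Not at hcon
        exact hz2 (Set.mem_iUnion₂.2 ⟨k, Finset.mem_range.2 hcon, hk⟩)
      rw [mem_ball, dist_eq_norm]
      exact hN k hkN z hk

lemma seq_conn {C : ℕ → Set ℂ} {p : ℂ} (hC : ∀ k, IsPreconnected (C k))
    (hn : ∀ k, (C k ∩ C (k + 1)).Nonempty)
    (hp : ∀ ε : ℝ, 0 < ε → ∃ N, ∀ k, N ≤ k → ∀ z ∈ C k, ‖z - p‖ < ε) :
    IsPreconnected (insert p (⋃ k, C k)) := by
  refine (IsPreconnected.iUnion_of_chain hC hn).subset_closure (Set.subset_insert _ _) ?_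
  refine Set.insert_subset ?_ subset_closure
  rw [Metric.mem_closure_iff]
  intro ε hε
  obtain ⟨N, hN⟩ := hp ε hε
  obtain ⟨z, hz, -⟩ := hn N
  refine ⟨z, Set.mem_iUnion.2 ⟨N, hz⟩, ?_⟩
  rw [dist_comm, dist_eq_norm]
  exact hN N le_rfl z hz

/-- Two closed connected sets that meet in exactly two points separate the plane. -/
theorem unic {A B : Set ℂ} {p : ℂ} (hA : IsClosed A) (hB : IsClosed B) (hAc : IsPreconnected A)
    (hBc : IsPreconnected B) (h0A : (0 : ℂ) ∈ A) (hpA : p ∈ A) (h0B : (0 : ℂ) ∈ B) (hpB : p ∈ B)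
    (hp0 : p ≠ 0) (hAB : ∀ z ∈ A, z ∈ B → z = 0 ∨ z = p) (hf : IsPreconnected (A ∪ B)ᶜ) :
    False := by
  obtain ⟨B1, hB1c, hB1⟩ := sqrt_pair hA hAc h0A hpA
  obtain ⟨B2, hB2c, hB2⟩ := sqrt_pair hB hBc h0B hpB
  obtain ⟨B3, hB3c, hB3, hB13⟩ : ∃ B3 : ℂ → ℂ, ContinuousOn B3 Bᶜ ∧
      (∀ z ∉ B, B3 z ^ 2 = (z - 0) / (z - p)) ∧ ∀ z, z ∉ A → z ∉ B → B1 z = B3 z := by
    have hsubA : (A ∪ B)ᶜ ⊆ Aᶜ := Set.compl_subset_compl.2 Set.subset_union_left
    have hsubB : (A ∪ B)ᶜ ⊆ Bᶜ := Set.compl_subset_compl.2 Set.subset_union_right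
    rcases hf.eq_or_eq_neg_of_sq_eq (hB1c.mono hsubA) (hB2c.mono hsubB)
      (fun z hz => by
        simp only [Pi.pow_apply]
        rw [hB1 z (hsubA hz), hB2 z (hsubB hz)])
      (fun {z} hz h1 => by
        have h2 := hB2 z (hsubB hz)
        rw [h1] at h2
        have h3 : (z - 0) / (z - p) ≠ 0 := by
          apply div_ne_zero
          · intro h4
            exact hsubB hz (by rw [sub_eq_zero.1 h4]; exact h0B)
          · intro h4
            exact hsubB hz (by rw [sub_eq_zero.1 h4]; exact hpB)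
        exact h3 (by rw [← h2]; simp)) with h | h
    · exact ⟨B2, hB2c, hB2, fun z h1 h2 => h (fun h3 => h3.elim h1 h2)⟩
    · refine ⟨fun z => -B2 z, hB2c.neg, fun z hz => by rw [neg_sq]; exact hB2 z hz,
        fun z h1 h2 => h (fun h3 => h3.elim h1 h2)⟩
  classical
  set Q : ℂ → ℂ := fun z => if z ∈ A then B3 z else B1 z with hQ
  have hQB : ∀ z, z ∉ B → Q z = B3 z := by
    intro z hz
    by_cases h : z ∈ A
    · simp only [hQ, if_pos h]
    · simp only [hQ, if_neg h]
      exact hB13 z h hz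
  have hQA : ∀ z, z ∉ A → Q z = B1 z := fun z hz => by simp only [hQ, if_neg hz]
  have hQc : ∀ z, z ≠ 0 → z ≠ p → ContinuousAt Q z := by
    intro z hz0 hzp
    by_cases hzA : z ∈ A
    · have hzB : z ∉ B := fun h => (hAB z hzA h).elim hz0 hzp
      exact ((hB3c.congr fun w hw => hQB w hw).continuousAt (hB.isOpen_compl.mem_nhds hzB))
    · exact ((hB1c.congr fun w hw => hQA w hw).continuousAt (hA.isOpen_compl.mem_nhds hzA))
  have hQs : ∀ z, z ≠ 0 → z ≠ p → Q z ^ 2 = z / (z - p) := by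
    intro z hz0 hzp
    by_cases hzA : z ∈ A
    · have hzB : z ∉ B := fun h => (hAB z hzA h).elim hz0 hzp
      rw [hQB z hzB, hB3 z hzB, sub_zero]
    · rw [hQA z hzA, hB1 z hzA, sub_zero]
  have hpn : 0 < ‖p‖ := norm_pos_iff.2 hp0
  have hmem : ∀ z ∈ sphere (0 : ℂ) (‖p‖ / 2), z ≠ 0 ∧ z ≠ p ∧ ‖z‖ < ‖p‖ := by
    intro z hz
    have hz' : ‖z‖ = ‖p‖ / 2 := by simpa using hz
    refine ⟨?_, ?_, by linarith⟩
    · intro h
      rw [h, norm_zero] at hz'
      linarith
    · intro h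
      rw [h] at hz'
      linarith
  have hsl : ∀ z ∈ sphere (0 : ℂ) (‖p‖ / 2), 1 + -(z / p) ∈ Complex.slitPlane := by
    intro z hz
    apply Complex.mem_slitPlane_of_norm_lt_one
    rw [norm_neg, norm_div, div_lt_one hpn]
    exact (hmem z hz).2.2
  refine circle (‖p‖ / 2) (by linarith) 0
    (fun z => Q z * Complex.exp ((Complex.log (1 + -(z / p)) + Complex.log (-p)) / 2)) ?_ ?_
  · refine ContinuousOn.mul (fun z hz => (hQc z (hmem z hz).1 (hmem z hz).2.1).continuousWithinAt)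
      (ContinuousOn.cexp ?_)
    exact ((ContinuousOn.clog (by fun_prop) hsl).add continuousOn_const).div_const 2
  · intro z hz
    obtain ⟨h1, h2, h3⟩ := hmem z hz
    rw [mul_pow, hQs z h1 h2, ← Complex.exp_nat_mul]
    have h4 : ((2 : ℕ) : ℂ) * ((Complex.log (1 + -(z / p)) + Complex.log (-p)) / 2) =
        Complex.log (1 + -(z / p)) + Complex.log (-p) := by
      push_cast
      ring
    rw [h4, Complex.exp_add, Complex.exp_log (Complex.slitPlane_ne_zero (hsl z hz)),
      Complex.exp_log (neg_ne_zero.2 hp0), sub_zero]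
    have h5 : z - p ≠ 0 := sub_ne_zero.2 h2
    field_simp
    ring

variable {c : ℂ} {H : Set ℂ} {ψ : ℂ → ℂ}

/-- A proper subcontinuum that contains the critical value and the landing point. -/
theorem exists_S (hi : interior (K c) = ∅) (h : Hog c H) {a : ℂ} (ha : a ∈ H) (hfa : f c a = a)
    {p' : ℂ} (hp' : f c p' = p') : ∃ S' : Set ℂ, IsCompact S' ∧ IsPreconnected S' ∧ c ∈ S' ∧
      S' ⊆ K c ∧ (∃ z ∈ K c, z ∉ S') ∧ p' ∈ S' := by
  have hc := c_ne_zero hi
  have hne0 : ∀ {q : ℂ}, f c q = q → q ≠ 0 := by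
    rintro q hq rfl
    rw [f_zero] at hq
    exact hc hq
  by_cases hpH : p' ∈ H
  · exact ⟨H, h.cpt, h.con, h.c_mem, h.sub_K,
      ⟨-c, (neg_mem_K c c).2 (h.sub_K h.c_mem), h.neg_c_notMem hc⟩, hpH⟩
  · obtain ⟨x, C, p, hx, hxC, hC, hCn, hCf, hp, hlim⟩ := chain h hi
    have hEc := seq_compact (fun k => (hC k).1) hlim
    have hEn := seq_conn (fun k => (hC k).2.1) hCn hlim
    set E := insert p (⋃ k, C k) with hE
    have hpK : p ∈ K c := fixed_mem_K hp
    have hEK : E ⊆ K c := by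
      rintro z (hz | hz)
      · rw [hz]; exact hpK
      · obtain ⟨k, hk⟩ := Set.mem_iUnion.1 hz
        exact (hC k).2.2.1 hk
    have hxE : -x ∈ E := Or.inr (Set.mem_iUnion.2 ⟨0, hxC⟩)
    have hxn : -x ∈ nH H := by rw [mem_nH, neg_neg]; exact hx
    set F := nH H ∪ E with hF
    have hFc : IsCompact F := (nH_cpt h).union hEc
    have hFn : IsPreconnected F := IsPreconnected.union (-x) hxn hxE (nH_con h) hEn
    have hFK : F ⊆ K c := Set.union_subset (nH_sub h) hEK
    have h0F : (0 : ℂ) ∈ F := Or.inl (nH_zero h)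
    have hpF : p ∈ F := Or.inr (Set.mem_insert _ _)
    have hp0 := hne0 hp
    have hpnH : p ∉ H := by
      intro hpH'
      refine unic h.cpt.isClosed hFc.isClosed h.con hFn h.zer hpH' h0F hpF hp0 ?_
        (full_sub h.zero_mem_K hi (Set.union_subset h.sub_K hFK))
      rintro z hz (hz2 | hz2 | hz2)
      · exact Or.inl (h.neg_inter hz hz2)
      · exact Or.inr hz2
      · obtain ⟨k, hk⟩ := Set.mem_iUnion.1 hz2
        exact absurd hz (fun hz => Set.disjoint_left.1 (hC k).2.2.2 hk hz)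
    have hfix : ∀ {u v : ℂ}, f c u = u → f c v = v → u ≠ v → u + v = 1 := by
      intro u v hu hv huv
      have h1 : u ^ 2 + c = u := hu
      have h2 : v ^ 2 + c = v := hv
      have h3 : (u - v) * (u + v - 1) = 0 := by linear_combination h1 - h2
      rcases mul_eq_zero.1 h3 with h4 | h4
      · exact absurd (sub_eq_zero.1 h4) huv
      · linear_combination h4
    have hpp : p = p' := by
      have h1 := hfix hp hfa (fun h1 => hpnH (h1 ▸ ha))
      have h2 := hfix hp' hfa (fun h1 => hpH (h1 ▸ ha))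
      linear_combination h1 - h2
    refine ⟨H ∪ F, h.cpt.union hFc, IsPreconnected.union 0 h.zer h0F h.con hFn, Or.inl h.c_mem,
      Set.union_subset h.sub_K hFK, ⟨-p, (neg_mem_K c p).2 hpK, ?_⟩, Or.inr (hpp ▸ hpF)⟩
    have hfnp : f c (-p) = p := by rw [f_neg, hp]
    have hnpH : -p ∉ H := by
      intro h1
      have := h.map h1
      rw [hfnp] at this
      exact hpnH this
    rintro (h1 | h1 | h1 | h1)
    · exact hnpH h1
    · rw [mem_nH, neg_neg] at h1
      exact hpnH h1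
    · have h2 : p = 0 := self_eq_neg.1 (by rw [h1])
      exact hp0 h2
    · obtain ⟨k, hk⟩ := Set.mem_iUnion.1 h1
      have h2 := hCf k _ hk
      rw [Function.iterate_succ_apply, hfnp, Function.iterate_fixed hp] at h2
      exact hnpH h2

end HH
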