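import Pool.Agent.Work.MP_065151_hh.Leo
import Pool.Agent.Work.MP_065151_hh.Chain

/-!
# An irreducible Julia set is indecomposable
-/

set_option autoImplicit false

open Topology Metric Filter Set

namespace HH

open R4C (f K Bot Cof IsDisk rad)

variable {c : ℂ}

/-- A proper subcontinuum that covers the Julia set together with its reflection. -/
structure Half (c : ℂ) (T : Set ℂ) : Prop where
  cpt : IsCompact T
  con : IsPreconnected T
  sub : T ⊆ K c
  ne : ¬ K c ⊆ T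
  cov : ∀ z ∈ K c, z ∈ T ∨ -z ∈ T

lemma neg_cpt {T : Set ℂ} (h : IsCompact T) : IsCompact (nH T) :=
  (Homeomorph.neg ℂ).isCompact_preimage.2 h

lemma neg_con {T : Set ℂ} (h : IsPreconnected T) : IsPreconnected (nH T) :=
  (Homeomorph.neg ℂ).isPreconnected_preimage.2 h

lemma Half.neg {T : Set ℂ} (h : Half c T) : Half c (nH T) := by
  refine ⟨neg_cpt h.cpt, neg_con h.con, fun z hz => (neg_mem_K c z).1 (h.sub hz), fun h1 => ?_,
    fun z hz => ?_⟩
  · apply h.ne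
    intro z hz
    have := h1 ((neg_mem_K c z).2 hz)
    rwa [mem_nH, neg_neg] at this
  · rw [mem_nH, mem_nH, neg_neg]
    exact (h.cov z hz).symm

lemma Half.zero (h0 : (0 : ℂ) ∈ K c) {T : Set ℂ} (h : Half c T) : (0 : ℂ) ∈ T := by
  rcases h.cov 0 h0 with h1 | h1
  · exact h1
  · rwa [neg_zero] at h1

/-- A decomposition gives a half. -/
theorem decomp_half (hi : interior (K c) = ∅) {A B : Set ℂ} (hA : IsCompact A)
    (hAc : IsPreconnected A) (hAK : A ⊆ K c) (hB : IsClosed B) (hAB : K c ⊆ A ∪ B)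
    (hAne : ¬ K c ⊆ A) (hBne : ¬ K c ⊆ B) : ∃ T, Half c T := by
  obtain ⟨z0, hz0, hz0B⟩ := Set.not_subset.1 hBne
  obtain ⟨ρ, hρ, hb⟩ := Metric.isOpen_iff.1 hB.isOpen_compl z0 hz0B
  obtain ⟨n, hn⟩ := leo hi hρ hz0
  have hex : ∃ n, K c ⊆ (f c)^[n] '' A := by
    refine ⟨n, fun b hbK => ?_⟩
    obtain ⟨u, hu, rfl⟩ := hn hbK
    have huK : u ∈ K c := (iter_mem_K c n u).1 hbK
    refine ⟨u, ?_, rfl⟩
    exact (hAB huK).resolve_right (hb hu)
  classical
  set m := Nat.find hex with hm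
  have hm1 : K c ⊆ (f c)^[m] '' A := Nat.find_spec hex
  have hm0 : m ≠ 0 := by
    intro h0
    rw [h0, Function.iterate_zero, Set.image_id] at hm1
    exact hAne hm1
  obtain ⟨k, hk⟩ : ∃ k, m = k + 1 := ⟨m - 1, by omega⟩
  have hmin : ¬ K c ⊆ (f c)^[k] '' A := Nat.find_min hex (by omega)
  have hcont : Continuous (f c)^[k] := R4C.DSK.continuous_iter c k
  refine ⟨(f c)^[k] '' A, hA.image hcont, hAc.image _ hcont.continuousOn, ?_, hmin, ?_⟩
  · rintro _ ⟨a, ha, rfl⟩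
    exact (iter_mem_K c k a).2 (hAK ha)
  · intro z hz
    rw [hk] at hm1
    obtain ⟨a, ha, ha2⟩ := hm1 ((f_mem_K c z).2 hz)
    rw [Function.iterate_succ_apply'] at ha2
    rcases f_eq ha2 with h | h
    · left; exact ⟨a, ha, h⟩
    · right; exact ⟨a, ha, h⟩

/-- The Julia set is irreducible between `x` and `y`. -/
def Irr (c x y : ℂ) : Prop := x ∈ K c ∧ y ∈ K c ∧ ∀ S : Set ℂ, IsCompact S → IsPreconnected S →
  S ⊆ K c → x ∈ S → y ∈ S → K c ⊆ S

lemma not_sub_pre {T : Set ℂ} (h : ¬ K c ⊆ T) : ¬ K c ⊆ f c ⁻¹' T := by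
  intro h1
  apply h
  intro z hz
  obtain ⟨u, rfl⟩ := f_surj c z
  exact h1 ((f_mem_K c u).1 hz)

lemma not_both (h0 : (0 : ℂ) ∈ K c) {x y : ℂ} (hirr : Irr c x y) {T : Set ℂ} (hT : Half c T) :
    ¬ (c ∈ T ∧ -c ∈ T) := by
  rintro ⟨hc1, hc2⟩
  obtain ⟨hx, hy, hI⟩ := hirr
  obtain ⟨T', hT', hc1', hc2', hxT'⟩ : ∃ T', Half c T' ∧ c ∈ T' ∧ -c ∈ T' ∧ x ∈ T' := by
    rcases hT.cov x hx with h | h
    · exact ⟨T, hT, hc1, hc2, h⟩
    · exact ⟨nH T, hT.neg, hc2, by rw [mem_nH, neg_neg]; exact hc1, h⟩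
  have hN := hT'.neg
  have hnx : -x ∉ T' := by
    intro h
    rcases hT'.cov y hy with h1 | h1
    · exact hT'.ne (hI T' hT'.cpt hT'.con hT'.sub hxT' h1)
    · exact hN.ne (hI (nH T') hN.cpt hN.con hN.sub h h1)
  have hX1 := preimage_compact c hT'.cpt
  have hX2 := preimage_conn c hT'.cpt hT'.con hc1'
  have hX3 : f c ⁻¹' T' ⊆ K c := fun z hz => (f_mem_K c z).1 (hT'.sub hz)
  have hY1 := preimage_compact c hN.cpt
  have hY2 := preimage_conn c hN.cpt hN.con hc2'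
  have hY3 : f c ⁻¹' nH T' ⊆ K c := fun z hz => (f_mem_K c z).1 (hN.sub hz)
  have h0T : (0 : ℂ) ∈ T' := hT'.zero h0
  have h0X : (0 : ℂ) ∈ f c ⁻¹' T' := by rw [Set.mem_preimage, f_zero]; exact hc1'
  have h0Y : (0 : ℂ) ∈ f c ⁻¹' nH T' := by rw [Set.mem_preimage, f_zero]; exact hc2'
  have hnotX : ¬ (f c x ∈ T' ∧ f c y ∈ T') := fun h =>
    not_sub_pre hT'.ne (hI _ hX1 hX2 hX3 h.1 h.2)
  have hnotY : ¬ (-(f c x) ∈ T' ∧ -(f c y) ∈ T') := fun h =>
    not_sub_pre hN.ne (hI _ hY1 hY2 hY3 h.1 h.2)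
  have hfx := hT'.cov (f c x) ((f_mem_K c x).2 hx)
  have hfy := hT'.cov (f c y) ((f_mem_K c y).2 hy)
  have hnxK : -x ∈ K c := (neg_mem_K c x).2 hx
  by_cases hfxT : f c x ∈ T'
  · have hfyT : f c y ∉ T' := fun h => hnotX ⟨hfxT, h⟩
    have hfyN : -(f c y) ∈ T' := hfy.resolve_left hfyT
    have hfxN : -(f c x) ∉ T' := fun h => hnotY ⟨h, hfyN⟩
    have h1 := hI (T' ∪ f c ⁻¹' nH T') (hT'.cpt.union hY1)
      (IsPreconnected.union 0 h0T h0Y hT'.con hY2) (Set.union_subset hT'.sub hY3)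
      (Or.inl hxT') (Or.inr hfyN) hnxK
    rcases h1 with h1 | h1
    · exact hnx h1
    · rw [Set.mem_preimage, f_neg] at h1
      exact hfxN h1
  · have hfxN : -(f c x) ∈ T' := hfx.resolve_left hfxT
    have hfyT : f c y ∈ T' := hfy.resolve_right fun h => hnotY ⟨hfxN, h⟩
    have h1 := hI (T' ∪ f c ⁻¹' T') (hT'.cpt.union hX1)
      (IsPreconnected.union 0 h0T h0X hT'.con hX2) (Set.union_subset hT'.sub hX3)
      (Or.inl hxT') (Or.inr hfyT) hnxK
    rcases h1 with h1 | h1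
    · exact hnx h1
    · rw [Set.mem_preimage, f_neg] at h1
      exact hfxT h1

/-- The data of one step. -/
structure Arm (c : ℂ) (T A : Set ℂ) : Prop where
  cpt : IsCompact A
  map : ∀ z ∈ A, f c z ∈ T
  cov : ∀ z, f c z ∈ T → z ∈ A ∨ -z ∈ A
  dis : ∀ z ∈ A, -z ∉ A

lemma Arm.neg {T A : Set ℂ} (h : Arm c T A) : Arm c T (nH A) := by
  refine ⟨neg_cpt h.cpt, fun z hz => ?_, fun z hz => ?_, fun z hz h1 => ?_⟩
  · have := h.map _ hz
    rwa [f_neg] at this
  · rw [mem_nH, mem_nH, neg_neg]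
    exact (h.cov z hz).symm
  · exact h.dis (-z) hz h1

lemma half_step (h0 : (0 : ℂ) ∈ K c) (hi : interior (K c) = ∅) {x y : ℂ} (hirr : Irr c x y)
    {T : Set ℂ} (hT : Half c T) (hcT : c ∉ T) : ∃ A, Arm c T A ∧
      Half c (A ∪ f c ⁻¹' nH T) ∧ c ∉ A ∪ f c ⁻¹' nH T := by
  obtain ⟨s, hs, hsq⟩ := sqrt_of_log (log_unbdd hT.cpt (full_sub h0 hi hT.sub)
    (compl_unbdd hT.cpt.isBounded) disjoint_compl_left (x := c) hcT)
  have hfs : ∀ z ∈ T, f c (s z) = z := by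
    intro z hz
    show s z ^ 2 + c = z
    rw [hsq z hz]
    ring
  have hcK := c_mem_K h0
  have hncT : -c ∈ T := (hT.cov c hcK).resolve_left hcT
  have hN := hT.neg
  set B := f c ⁻¹' nH T with hB
  have hB1 : IsCompact B := preimage_compact c hN.cpt
  have hB2 : IsPreconnected B := preimage_conn c hN.cpt hN.con hncT
  have hB3 : B ⊆ K c := fun z hz => (f_mem_K c z).1 (hN.sub hz)
  have h0B : (0 : ℂ) ∈ B := by rw [hB, Set.mem_preimage, f_zero]; exact hncT
  have hBn : ∀ z, -z ∈ B ↔ z ∈ B := by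
    intro z
    rw [hB, Set.mem_preimage, Set.mem_preimage, f_neg]
  have hArm : Arm c T (s '' T) := by
    refine ⟨hT.cpt.image_of_continuousOn hs, ?_, ?_, ?_⟩
    · rintro _ ⟨z, hz, rfl⟩
      rw [hfs z hz]; exact hz
    · intro z hz
      have h1 : f c z = f c (s (f c z)) := (hfs _ hz).symm
      rcases f_eq h1 with h | h
      · left; exact ⟨_, hz, h.symm⟩
      · right; exact ⟨_, hz, by rw [h, neg_neg, ← h]⟩
    · rintro _ ⟨z, hz, rfl⟩ ⟨w, hw, hw2⟩
      have h1 : f c (s w) = f c (s z) := by rw [hw2, f_neg]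
      rw [hfs w hw, hfs z hz] at h1
      rw [h1] at hw2
      have h2 : s z = 0 := self_eq_neg.1 hw2
      have h3 := hfs z hz
      rw [h2, f_zero] at h3
      exact hcT (h3 ▸ hz)
  have hhalf : ∀ A, Arm c T A → IsPreconnected A → A ⊆ K c → A.Nonempty → Half c (A ∪ B) := by
    intro A hA hAc hAK hAn
    have hcov : ∀ z ∈ K c, z ∈ A ∨ -z ∈ A ∨ z ∈ B := by
      intro z hz
      rcases hT.cov _ ((f_mem_K c z).2 hz) with h | h
      · rcases hA.cov z h with h1 | h1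
        · exact Or.inl h1
        · exact Or.inr (Or.inl h1)
      · exact Or.inr (Or.inr h)
    refine ⟨hA.cpt.union hB1, ?_, Set.union_subset hAK hB3, ?_, ?_⟩
    · obtain ⟨z, -, hz1, hz2⟩ := isPreconnected_closed_iff.1 (K_conn h0).isPreconnected A
        (nH A ∪ B) hA.cpt.isClosed ((neg_cpt hA.cpt).isClosed.union hB1.isClosed)
        (fun z hz => by
          rcases hcov z hz with h | h | h
          · exact Or.inl h
          · exact Or.inr (Or.inl h)
          · exact Or.inr (Or.inr h))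
        (by
          obtain ⟨a, ha⟩ := hAn
          exact ⟨a, hAK ha, ha⟩)
        ⟨0, h0, Or.inr h0B⟩
      have hzB : z ∈ B := by
        rcases hz2 with h | h
        · exact absurd h (hA.dis z hz1)
        · exact h
      exact IsPreconnected.union z hz1 hzB hAc hB2
    · intro hsub
      apply hT.ne
      intro z hz
      rcases hT.cov z hz with h | h
      · exact h
      · -- `-z ∈ T`; a preimage `a ∈ A` of `-z`; `-a ∈ K`
        obtain ⟨u, hu⟩ := f_surj c (-z)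
        have h1 : ∃ a ∈ A, f c a = -z := by
          rcases hA.cov u (by rw [hu]; exact h) with h2 | h2
          · exact ⟨u, h2, hu⟩
          · exact ⟨-u, h2, by rw [f_neg, hu]⟩
        obtain ⟨a, ha, ha2⟩ := h1
        have h3 : -a ∈ K c := (neg_mem_K c a).2 (hAK ha)
        rcases hsub h3 with h4 | h4
        · exact absurd h4 (hA.dis a ha)
        · rw [hB, Set.mem_preimage, f_neg, ha2, mem_nH, neg_neg] at h4
          exact h4
    · intro z hz
      rcases hcov z hz with h | h | h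
      · exact Or.inl (Or.inl h)
      · exact Or.inr (Or.inl h)
      · exact Or.inl (Or.inr h)
  have hsK : s '' T ⊆ K c := by
    rintro _ ⟨z, hz, rfl⟩
    rw [← f_mem_K, hfs z hz]
    exact hT.sub hz
  have hsc : IsPreconnected (s '' T) := hT.con.image _ hs
  have hsn : (s '' T).Nonempty := ⟨_, _, hncT, rfl⟩
  have hH1 := hhalf _ hArm hsc hsK hsn
  by_cases hc1 : c ∈ s '' T ∪ B
  · have hc2 : -c ∉ s '' T ∪ B := fun h => not_both h0 hirr hH1 ⟨hc1, h⟩
    refine ⟨nH (s '' T), hArm.neg, hhalf _ hArm.neg (neg_con hsc)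
      (fun z hz => (neg_mem_K c z).1 (hsK hz)) ?_, ?_⟩
    · obtain ⟨a, ha⟩ := hsn
      exact ⟨-a, by rw [mem_nH, neg_neg]; exact ha⟩
    · rintro (h | h)
      · exact hc2 (Or.inl h)
      · exact hc2 (Or.inr ((hBn c).2 h))
  · exact ⟨_, hArm, hH1, hc1⟩

/-- Extension of an inverse branch whose image misses the critical value. -/
lemma step' {V : Set ℂ} (hV : IsOpen V) (hVc : IsPreconnected V) (hVn : V.Nonempty)
    (hC : Cof V) (k : ℕ) {s : ℂ → ℂ} (hs : DifferentiableOn ℂ s V)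
    (hfs : ∀ w ∈ V, (f c)^[k] (s w) = w) (hcs : c ∉ s '' V) :
    ∃ s' : ℂ → ℂ, DifferentiableOn ℂ s' V ∧ ∀ w ∈ V, f c (s' w) = s w := by
  obtain ⟨v0, hv0⟩ := hVn
  have hWo : IsOpen ((f c)^[k] ⁻¹' V) := hV.preimage (R4C.DSK.continuous_iter c k)
  have hWC := R4C.DSK.cof_preimage c k V hV hC
  have hsW : s '' V ⊆ (f c)^[k] ⁻¹' V := by
    rintro _ ⟨w, hw, rfl⟩
    rw [Set.mem_preimage, hfs w hw]
    exact hw
  have hso : IsOpen (s '' V) := by
    rcases (hs.analyticOnNhd hV).is_constant_or_isOpen hVc with ⟨v, hv⟩ | hop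
    · exfalso
      obtain ⟨ε, hε, hb⟩ := Metric.isOpen_iff.1 hV v0 hv0
      have h1 : v0 + (ε / 2 : ℝ) ∈ V := by
        apply hb
        rw [mem_ball, dist_eq_norm, add_sub_cancel_left, Complex.norm_real, Real.norm_of_nonneg
          (by linarith)]
        linarith
      have h2 := hfs v0 hv0
      have h3 := hfs _ h1
      rw [hv _ hv0] at h2
      rw [hv _ h1, h2] at h3
      have h4 : ((ε / 2 : ℝ) : ℂ) = 0 := by linear_combination -h3
      have h5 : (ε / 2 : ℝ) = 0 := by exact_mod_cast h4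
      linarith
    · exact hop V subset_rfl hV
  have hcomp : connectedComponentIn ((f c)^[k] ⁻¹' V) (s v0) ⊆ s '' V := by
    intro z hz
    by_contra hzs
    have ho2 : IsOpen (((f c)^[k] ⁻¹' V) ∩ (fun y => s ((f c)^[k] y) - y) ⁻¹' {0}ᶜ) := by
      apply ContinuousOn.isOpen_inter_preimage _ hWo isOpen_compl_singleton
      refine (hs.continuousOn.comp (R4C.DSK.continuous_iter c k).continuousOn
        (fun y hy => hy)).sub continuousOn_id
    have hzW : z ∈ (f c)^[k] ⁻¹' V := connectedComponentIn_subset _ _ hz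
    have hz3 : z ∈ ((f c)^[k] ⁻¹' V) ∩ (fun y => s ((f c)^[k] y) - y) ⁻¹' {0}ᶜ :=
      ⟨hzW, fun h1 => hzs ⟨(f c)^[k] z, hzW, sub_eq_zero.1 h1⟩⟩
    obtain ⟨w, -, ⟨u, hu, rfl⟩, hw2⟩ := isPreconnected_connectedComponentIn (s '' V) _ hso ho2
      (by
        intro w hw
        have hwW := connectedComponentIn_subset _ _ hw
        by_cases h : s ((f c)^[k] w) = w
        · exact Or.inl ⟨_, hwW, h⟩
        · exact Or.inr ⟨hwW, fun h1 => h (sub_eq_zero.1 h1)⟩)
      ⟨s v0, mem_connectedComponentIn (hsW ⟨v0, hv0, rfl⟩), ⟨v0, hv0, rfl⟩⟩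
      ⟨z, hz, hz3⟩
    apply hw2.2
    show s ((f c)^[k] (s u)) - s u = 0
    rw [hfs u hu, sub_self]
  have hcomp2 : s '' V ⊆ connectedComponentIn ((f c)^[k] ⁻¹' V) (s v0) :=
    (hVc.image _ hs.continuousOn).subset_connectedComponentIn ⟨v0, hv0, rfl⟩ hsW
  obtain ⟨-, -, hdisk⟩ := R4C.DSK.cof_component _ (s v0) hWo hWC (hsW ⟨v0, hv0, rfl⟩)
  obtain ⟨A, hAV, hcA, hAc, hAu⟩ := hdisk c (fun h => hcs (hcomp h))
  have hAs : A ⊆ (s '' V)ᶜ := fun a ha h => hAV ha (hcomp2 h)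
  have hcl : closure A ⊆ (s '' V)ᶜ := closure_minimal hAs hso.isClosed_compl
  obtain ⟨B, hBc, hB⟩ := sqrt_unbdd isClosed_closure hAc.closure
    (fun hb => hAu (hb.subset subset_closure)) (subset_closure hcA)
  have hmem : ∀ w ∈ V, s w ∉ closure A := fun w hw h1 => hcl h1 ⟨w, hw, rfl⟩
  have hne : ∀ w ∈ V, s w - c ≠ 0 := fun w hw h1 => hcs ⟨w, hw, sub_eq_zero.1 h1⟩
  refine ⟨fun w => B (s w), diff_sqrt hV (hBc.comp hs.continuousOn hmem)
    (hs.sub_const c) (fun w hw => hB _ (hmem w hw)) hne, fun w hw => ?_⟩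
  show B (s w) ^ 2 + c = s w
  rw [hB _ (hmem w hw)]
  ring

/-- **Theorem I.** If a half exists and the Julia set is irreducible then `c = -2`. -/
theorem irr_forces (h0 : (0 : ℂ) ∈ K c) (hi : interior (K c) = ∅) {x y : ℂ}
    (hirr : Irr c x y) {T : Set ℂ} (hT : Half c T) : c = -2 := by
  -- the sequence of halves
  let 𝒯 : Type := {T : Set ℂ // Half c T ∧ c ∉ T}
  have hstep : ∀ T : 𝒯, ∃ A, Arm c T.1 A ∧ Half c (A ∪ f c ⁻¹' nH T.1) ∧
      c ∉ A ∪ f c ⁻¹' nH T.1 := fun T => half_step h0 hi hirr T.2.1 T.2.2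
  choose A hA1 hA2 hA3 using hstep
  obtain ⟨T0, -⟩ : ∃ T0 : 𝒯, True := by
    by_cases h : c ∈ T
    · refine ⟨⟨nH T, hT.neg, fun h1 => not_both h0 hirr hT ⟨h, h1⟩⟩, trivial⟩
    · exact ⟨⟨T, hT, h⟩, trivial⟩
  let S : ℕ → 𝒯 := fun n => Nat.rec T0
    (fun _ T => ⟨A T ∪ f c ⁻¹' nH T.1, hA2 T, hA3 T⟩) n
  have hSs : ∀ n, (S (n + 1)).1 = A (S n) ∪ f c ⁻¹' nH (S n).1 := fun n => rfl
  have hS0 : S 0 = T0 := rfl
  -- facts on the sides
  have F1 : ∀ m z, z ∈ K c → -z ∉ (S (m + 1)).1 →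
      z ∈ A (S m) ∧ f c z ∈ K c ∧ -(f c z) ∉ (S m).1 := by
    intro m z hz hzS
    rw [hSs] at hzS
    have hfz : f c z ∈ K c := (f_mem_K c z).2 hz
    have h1 : -(f c z) ∉ (S m).1 := by
      intro h
      apply hzS
      right
      rw [Set.mem_preimage, f_neg]
      exact h
    have h2 : f c z ∈ (S m).1 := ((S m).2.1.cov _ hfz).resolve_right h1
    exact ⟨((hA1 (S m)).cov z h2).resolve_right fun h => hzS (Or.inl h), hfz, h1⟩
  have F2 : ∀ n y, y ∈ K c → -y ∉ (S n).1 → (f c)^[n] y ∈ (S 0).1 := by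
    intro n
    induction n with
    | zero =>
      intro y hy hyS
      exact ((S 0).2.1.cov _ hy).resolve_right hyS
    | succ n ih =>
      intro y hy hyS
      obtain ⟨-, h2, h3⟩ := F1 n y hy hyS
      rw [Function.iterate_succ_apply]
      exact ih _ h2 h3
  have hcK := c_mem_K h0
  have hncK : -c ∈ K c := (neg_mem_K c c).2 hcK
  have hncS : ∀ n, -(-c) ∉ (S n).1 := fun n => by rw [neg_neg]; exact (S n).2.2
  -- the disk
  obtain ⟨V, hVo, hVc, hVC, hCV, hVb, hVH⟩ := exists_disk T0.2.1.cpt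
    ⟨⟨0, T0.2.1.zero h0⟩, T0.2.1.con⟩ (full_sub h0 hi T0.2.1.sub) (isClosed_singleton (x := c))
    (Set.disjoint_singleton_right.2 T0.2.2)
  have hcV : c ∉ V := Set.disjoint_singleton_right.1 hVH
  have hVn : V.Nonempty := ⟨0, hCV (T0.2.1.zero h0)⟩
  -- the branches
  let Br : ℕ → Type := fun k => {s : ℂ → ℂ // DifferentiableOn ℂ s V ∧
    (∀ w ∈ V, (f c)^[k] (s w) = w) ∧ ∀ w ∈ T0.1, s w ∈ (S k).1}
  have hbstep : ∀ k (s : Br k), ∃ s' : Br (k + 1), (∀ w ∈ V, f c (s'.1 w) = s.1 w) ∧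
      ∀ w ∈ T0.1, s'.1 w ∈ A (S k) := by
    rintro k ⟨s, hs1, hs2, hs3⟩
    have hcs : c ∉ s '' V := by
      rintro ⟨v, hv, hvc⟩
      have h1 := hs2 v hv
      rw [hvc] at h1
      rcases Nat.eq_zero_or_pos k with hk | hk
      · subst hk
        rw [Function.iterate_zero, id] at h1
        rw [← h1] at hv
        exact hcV hv
      · obtain ⟨j, rfl⟩ : ∃ j, k = j + 1 := ⟨k - 1, by omega⟩
        have h2 : (f c)^[j + 1] (-c) = v := by
          rw [Function.iterate_succ_apply, f_neg, ← Function.iterate_succ_apply, h1]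
        have h3 := F2 (j + 1) (-c) hncK (hncS (j + 1))
        rw [h2, hS0] at h3
        have h4 := hs3 v h3
        rw [hvc] at h4
        exact (S (j + 1)).2.2 h4
    obtain ⟨s', hs'1, hs'2⟩ := step' hVo hVc hVn hVC k hs1 hs2 hcs
    have hArm := hA1 (S k)
    have himg : ∀ w ∈ T0.1, s' w ∈ A (S k) ∨ -(s' w) ∈ A (S k) := by
      intro w hw
      apply hArm.cov
      rw [hs'2 w (hCV hw)]
      exact hs3 w hw
    obtain ⟨s'', hs''1, hs''2, hs''3⟩ : ∃ s'' : ℂ → ℂ, DifferentiableOn ℂ s'' V ∧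
        (∀ w ∈ V, f c (s'' w) = s w) ∧ ∀ w ∈ T0.1, s'' w ∈ A (S k) := by
      by_cases hall : ∀ w ∈ T0.1, s' w ∈ A (S k)
      · exact ⟨s', hs'1, hs'2, hall⟩
      · refine ⟨fun w => -(s' w), hs'1.neg, fun w hw => by rw [f_neg]; exact hs'2 w hw, ?_⟩
        push Not at hall
        obtain ⟨w0, hw0, hw0A⟩ := hall
        by_contra hcon
        push Not at hcon
        obtain ⟨w1, hw1, hw1A⟩ := hcon
        have hcon2 : IsPreconnected (s' '' T0.1) :=
          T0.2.1.con.image _ (hs'1.continuousOn.mono hCV)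
        obtain ⟨z, -, hz1, hz2⟩ := isPreconnected_closed_iff.1 hcon2 (A (S k)) (nH (A (S k)))
          hArm.cpt.isClosed (neg_cpt hArm.cpt).isClosed
          (by
            rintro _ ⟨w, hw, rfl⟩
            exact himg w hw)
          ⟨s' w1, ⟨w1, hw1, rfl⟩, (himg w1 hw1).resolve_right hw1A⟩
          ⟨s' w0, ⟨w0, hw0, rfl⟩, (himg w0 hw0).resolve_left hw0A⟩
        exact hArm.dis z hz1 hz2
    refine ⟨⟨s'', hs''1, fun w hw => ?_, fun w hw => ?_⟩, hs''2, hs''3⟩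
    · rw [Function.iterate_succ_apply, hs''2 w hw]
      exact hs2 w hw
    · rw [hSs]
      exact Or.inl (hs''3 w hw)
  choose nxt hn1 hn2 using hbstep
  let init : Br 0 := ⟨fun w => w, differentiableOn_id, fun w _ => rfl, fun w hw => hw⟩
  let B : (k : ℕ) → Br k := fun k => Nat.rec init (fun k s => nxt k s) k
  have hB1 : ∀ k, ∀ w ∈ V, f c ((B (k + 1)).1 w) = (B k).1 w := fun k => hn1 k (B k)
  have hB2 : ∀ k, ∀ w ∈ T0.1, (B (k + 1)).1 w ∈ A (S k) := fun k => hn2 k (B k)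
  have F3 : ∀ n y, y ∈ K c → -y ∉ (S n).1 → (B n).1 ((f c)^[n] y) = y := by
    intro n
    induction n with
    | zero => intro y _ _; rfl
    | succ n ih =>
      intro y hy hyS
      obtain ⟨h1, h2, h3⟩ := F1 n y hy hyS
      have h4 := ih _ h2 h3
      have h5 := F2 (n + 1) y hy hyS
      rw [hS0] at h5
      have h6 := hB1 n _ (hCV h5)
      have h7 : (f c)^[n + 1] y = (f c)^[n] (f c y) := Function.iterate_succ_apply _ _ _
      rw [h7] at h5 h6 ⊢
      rw [h4] at h6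
      have h8 := hB2 n _ h5
      rcases f_eq h6 with h | h
      · exact h
      · exfalso
        rw [h] at h8
        exact (hA1 (S n)).dis _ h8 (by rw [neg_neg]; exact h1)
  -- contraction
  have hSML : ∀ ε : ℝ, 0 < ε → ∃ N0 : ℕ, ∀ N, N0 ≤ N → ∀ w ∈ T0.1, ∀ w' ∈ T0.1,
      ‖(B N).1 w - (B N).1 w'‖ < ε := by
    intro ε hε
    have hex : ∃ w ∈ V, w ∉ K c := by
      by_contra hcon
      push Not at hcon
      obtain ⟨v, hv⟩ := hVn
      have h1 : v ∈ interior (K c) := mem_interior.2 ⟨V, hcon, hVo, hv⟩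
      rw [hi] at h1
      exact h1
    obtain ⟨N0, hN0⟩ := R4C.stmt_SML R4C.stmt_ELM c V T0.1 (fun w => w) hVo hVc continuousOn_id
      (by rw [Set.image_id']; exact hVb) hex hCV T0.2.1.cpt ε hε
    exact ⟨N0, fun N hN => hN0 N hN (B N).1 (B N).2.1 (B N).2.2.1⟩
  have hw : ∀ n, (f c)^[n] (-c) ∈ T0.1 := fun n => F2 n (-c) hncK (hncS n)
  have hBw : ∀ n, (B n).1 ((f c)^[n] (-c)) = -c := fun n => F3 n (-c) hncK (hncS n)
  have hq1 : ∀ n, f c ((B (n + 1)).1 ((f c)^[n] (-c))) = -c := by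
    intro n
    rw [hB1 n _ (hCV (hw n)), hBw n]
  have hq2 : Tendsto (fun n => (B (n + 1)).1 ((f c)^[n] (-c))) atTop (𝓝 (-c)) := by
    rw [Metric.tendsto_atTop]
    intro ε hε
    obtain ⟨N0, hN0⟩ := hSML ε hε
    refine ⟨N0, fun n hn => ?_⟩
    rw [dist_eq_norm]
    have h1 := hN0 (n + 1) (by omega) _ (hw n) _ (hw (n + 1))
    rw [hBw (n + 1)] at h1
    exact h1
  have hq3 : f c (-c) = -c := by
    have h1 := ((f_cont c).tendsto (-c)).comp hq2
    refine tendsto_nhds_unique h1 ?_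
    refine tendsto_const_nhds.congr fun n => ?_
    rw [Function.comp_apply, hq1 n]
  have hc0 := c_ne_zero hi
  have h1 : (-c) ^ 2 + c = -c := hq3
  have h2 : c * (c + 2) = 0 := by linear_combination h1
  rcases mul_eq_zero.1 h2 with h3 | h3
  · exact absurd h3 hc0
  · linear_combination h3

end HH
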