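import Pool.Agent.Work.MP_065151_hh.Basic

/-!
# Exactness: iterates of an open set that meets the Julia set cover the Julia set
-/

set_option autoImplicit false

open Topology Metric Filter Set

namespace HH

open R4C (f K Bot Cof IsDisk rad)

lemma norm_b_le {c b : ℂ} (hb : b ∈ K c) : ‖b‖ ≤ 2 + ‖c‖ := by
  rw [(R4C.stmt_ELM c).2.2.2.1] at hb
  exact hb 0

lemma growth_upper (c z : ℂ) (n : ℕ) :
    ‖(f c)^[n] z‖ + ‖c‖ + 1 ≤ (‖z‖ + ‖c‖ + 1) ^ 2 ^ n := by
  induction n with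
  | zero => simp
  | succ n ih =>
    rw [Function.iterate_succ_apply', pow_succ 2 n, pow_mul]
    set w := (f c)^[n] z with hw
    have h1 : ‖f c w‖ ≤ ‖w‖ ^ 2 + ‖c‖ := by
      show ‖w ^ 2 + c‖ ≤ _
      rw [← norm_pow]
      exact norm_add_le _ _
    have h2 : (‖w‖ + ‖c‖ + 1) ^ 2 ≤ ((‖z‖ + ‖c‖ + 1) ^ 2 ^ n) ^ 2 :=
      pow_le_pow_left₀ (by positivity) ih 2
    nlinarith [norm_nonneg w, norm_nonneg c, mul_nonneg (norm_nonneg w) (norm_nonneg c)]

lemma growth_lower (c z : ℂ) (hz : 2 + ‖c‖ ≤ ‖z‖) (n : ℕ) :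
    (‖z‖ - ‖c‖ - 1) ^ 2 ^ n ≤ ‖(f c)^[n] z‖ - ‖c‖ - 1 ∧ 2 + ‖c‖ ≤ ‖(f c)^[n] z‖ := by
  induction n with
  | zero => exact ⟨by simp, hz⟩
  | succ n ih =>
    rw [Function.iterate_succ_apply', pow_succ 2 n, pow_mul]
    set w := (f c)^[n] z with hw
    have h1 : ‖w‖ ^ 2 - ‖c‖ ≤ ‖f c w‖ := by
      show _ ≤ ‖w ^ 2 + c‖
      have := norm_sub_norm_le (w ^ 2) (-c)
      rw [norm_neg, sub_neg_eq_add, norm_pow] at this
      exact this
    have h0 : 0 ≤ (‖z‖ - ‖c‖ - 1) ^ 2 ^ n := pow_nonneg (by linarith) _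
    have h2 : ((‖z‖ - ‖c‖ - 1) ^ 2 ^ n) ^ 2 ≤ (‖w‖ - ‖c‖ - 1) ^ 2 :=
      pow_le_pow_left₀ h0 ih.1 2
    have h3 := ih.2
    have hc := norm_nonneg c
    have h4 : (‖w‖ - ‖c‖ - 1) ^ 2 ≤ ‖f c w‖ - ‖c‖ - 1 := by nlinarith
    exact ⟨h2.trans h4, by nlinarith⟩

/-- Limits of bounded sequences of holomorphic functions along an ultrafilter. -/
lemma ultra_lim {ι : Type} {U : Ultrafilter ι} {D : Set ℂ} (hDo : IsOpen D)
    {s : ι → ℂ → ℂ} {R : ℝ} (hRpos : 0 < R) (hs : ∀ k, DifferentiableOn ℂ (s k) D)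
    (hs0 : ∀ k, ∀ x ∈ D, ‖s k x‖ ≤ R) :
    ∃ t : ℂ → ℂ, DifferentiableOn ℂ t D ∧ ∀ x ∈ D, Tendsto (fun k => s k x) U (𝓝 (t x)) := by
  have hlim : ∀ x ∈ D, ∃ l, Tendsto (fun k => s k x) U (𝓝 l) := by
    intro x hx
    obtain ⟨l, _, hl⟩ := (isCompact_closedBall (0 : ℂ) R).ultrafilter_le_nhds
      (U.map fun k => s k x) (by
        rw [le_principal_iff, Ultrafilter.coe_map, Filter.mem_map]
        exact Filter.univ_mem' fun k => mem_closedBall_zero_iff.2 (hs0 k x hx))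
    exact ⟨l, hl⟩
  choose! t ht using hlim
  have hLip : ∀ w0 ∈ D, ∃ r > 0, closedBall w0 (2 * r) ⊆ D := by
    intro w0 hw0
    obtain ⟨δ, hδ, hb⟩ := Metric.isOpen_iff.1 hDo w0 hw0
    exact ⟨δ / 3, by positivity, (closedBall_subset_ball (by linarith)).trans hb⟩
  have hloc : TendstoLocallyUniformlyOn s t U D := by
    rw [Metric.tendstoLocallyUniformlyOn_iff]
    intro e he w0 hw0
    obtain ⟨r, hr, hb⟩ := hLip w0 hw0
    obtain ⟨ρ, hρ, hρr, hρe⟩ : ∃ ρ : ℝ, 0 < ρ ∧ ρ ≤ r ∧ R / r * ρ ≤ e / 4 := by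
      refine ⟨min r (e * r / (4 * R)), lt_min hr (by positivity), min_le_left _ _, ?_⟩
      calc R / r * min r (e * r / (4 * R)) ≤ R / r * (e * r / (4 * R)) :=
            mul_le_mul_of_nonneg_left (min_le_right _ _) (by positivity)
        _ = e / 4 := by field_simp
    refine ⟨ball w0 ρ, mem_nhdsWithin_of_mem_nhds (ball_mem_nhds _ hρ), ?_⟩
    have hin : ∀ y ∈ ball w0 ρ, y ∈ ball w0 r := fun y hy => ball_subset_ball hρr hy
    have hD' : ∀ y ∈ ball w0 ρ, y ∈ D := fun y hy =>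
      hb (ball_subset_closedBall (ball_subset_ball (by linarith) (hin y hy)))
    have hk1 : ∀ k, ∀ y ∈ ball w0 ρ, ‖s k y - s k w0‖ ≤ e / 4 := by
      intro k y hy
      refine (R4C.SML.lip hDo (hs k) (hs0 k) hr hb (mem_ball_self hr) (hin y hy)).trans ?_
      refine (mul_le_mul_of_nonneg_left ?_ (by positivity)).trans hρe
      have := mem_ball.1 hy
      rw [dist_eq_norm] at this
      exact this.le
    have ht1 : ∀ y ∈ ball w0 ρ, ‖t y - t w0‖ ≤ e / 4 := by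
      intro y hy
      exact le_of_tendsto ((ht y (hD' y hy)).sub (ht w0 hw0)).norm
        (Filter.Eventually.of_forall fun k => hk1 k y hy)
    have h1 := (Metric.tendsto_nhds.1 (ht w0 hw0)) (e / 4) (by positivity)
    filter_upwards [h1] with k hk y hy
    have h2 := hk1 k y hy
    have h3 := ht1 y hy
    rw [dist_eq_norm] at hk ⊢
    have h4 : t y - s k y = (t y - t w0) - (s k w0 - t w0) - (s k y - s k w0) := by ring
    rw [h4]
    calc ‖(t y - t w0) - (s k w0 - t w0) - (s k y - s k w0)‖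
        ≤ ‖(t y - t w0) - (s k w0 - t w0)‖ + ‖s k y - s k w0‖ := norm_sub_le _ _
      _ ≤ ‖t y - t w0‖ + ‖s k w0 - t w0‖ + ‖s k y - s k w0‖ := by
          gcongr
          exact norm_sub_le _ _
      _ < e := by linarith
  exact ⟨t, hloc.differentiableOn (Filter.Eventually.of_forall hs) hDo, ht⟩

/-- A continuous logarithm of a differentiable function is differentiable. -/
lemma diff_log {V : Set ℂ} (hV : IsOpen V) {G h : ℂ → ℂ} (hG : ContinuousOn G V)
    (hexp : ∀ z ∈ V, Complex.exp (G z) = h z) (hh : DifferentiableOn ℂ h V) :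
    DifferentiableOn ℂ G V := by
  intro z₀ hz₀
  apply DifferentiableAt.differentiableWithinAt
  have hnhds : V ∈ 𝓝 z₀ := hV.mem_nhds hz₀
  have hGc : ContinuousAt G z₀ := hG.continuousAt hnhds
  have hhd : DifferentiableAt ℂ h z₀ := hh.differentiableAt hnhds
  have hh0 : h z₀ ≠ 0 := by rw [← hexp z₀ hz₀]; exact Complex.exp_ne_zero _
  have h1 : DifferentiableAt ℂ (fun z => Complex.log (h z / h z₀) + G z₀) z₀ := by
    apply DifferentiableAt.add_const
    apply DifferentiableAt.clog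
    · exact hhd.div_const _
    · rw [div_self hh0]; exact Complex.one_mem_slitPlane
  apply h1.congr_of_eventuallyEq
  have h2 : ∀ᶠ z in 𝓝 z₀, ‖G z - G z₀‖ < 1 := by
    have := Metric.continuousAt_iff.mp hGc 1 one_pos
    obtain ⟨δ, hδ, hδ'⟩ := this
    filter_upwards [ball_mem_nhds z₀ hδ] with z hz
    have := hδ' hz
    rwa [dist_eq_norm] at this
  filter_upwards [h2, hnhds] with z hz hzb
  have h3 : h z / h z₀ = Complex.exp (G z - G z₀) := by
    rw [Complex.exp_sub, hexp z hzb, hexp z₀ hz₀]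
  rw [h3, Complex.log_exp]
  · ring
  · have := Complex.abs_im_le_norm (G z - G z₀)
    have h4 := Real.pi_gt_three
    have h5 := (abs_le.mp (this.trans hz.le)).1
    linarith
  · have := Complex.abs_im_le_norm (G z - G z₀)
    have h4 := Real.pi_gt_three
    have h5 := (abs_le.mp (this.trans hz.le)).2
    linarith

/-- Roots of order `2 ^ n` on discs. -/
lemma exists_root {z0 : ℂ} {ρ : ℝ} (hρ : 0 < ρ) {F : ℂ → ℂ} (hF : Differentiable ℂ F)
    (h0 : ∀ z ∈ ball z0 ρ, F z ≠ 0) (n : ℕ) : ∃ h : ℂ → ℂ, DifferentiableOn ℂ h (ball z0 ρ) ∧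
      ∀ z ∈ ball z0 ρ, ‖h z‖ ^ 2 ^ n = ‖F z‖ := by
  have h1 : IsSimplyConnected (ball z0 ρ) := by
    have : ContractibleSpace (ball z0 ρ) :=
      (convex_ball z0 ρ).contractibleSpace ⟨z0, mem_ball_self hρ⟩
    show SimplyConnectedSpace (ball z0 ρ)
    infer_instance
  obtain ⟨g, hg, he⟩ := Complex.exists_continuousOn_eqOn_exp_comp h1 isOpen_ball
    hF.continuous.continuousOn (by rintro ⟨x, hx, hx0⟩; exact h0 x hx hx0)
  have hgd := diff_log isOpen_ball hg (fun z hz => he hz) hF.differentiableOn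
  refine ⟨fun z => Complex.exp (g z / 2 ^ n), (hgd.div_const _).cexp, fun z hz => ?_⟩
  rw [← norm_pow, ← Complex.exp_nat_mul]
  have h2 : ((2 ^ n : ℕ) : ℂ) * (g z / 2 ^ n) = g z := by
    push_cast
    field_simp
  rw [h2]
  exact congrArg norm (he hz)

/-- Exactness. -/
theorem leo {c : ℂ} (hi : interior (K c) = ∅) {z0 : ℂ} {ρ : ℝ} (hρ : 0 < ρ) (hz0 : z0 ∈ K c) :
    ∃ n, K c ⊆ (f c)^[n] '' ball z0 ρ := by
  by_contra hcon
  push Not at hcon
  have hcon' : ∀ n, ∃ b ∈ K c, b ∉ (f c)^[n] '' ball z0 ρ := fun n => Set.not_subset.1 (hcon n)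
  choose b hbK hb using hcon'
  have hc0 := norm_nonneg c
  set D := ball z0 ρ with hD
  have hfd : ∀ n, Differentiable ℂ (f c)^[n] := by
    intro n
    induction n with
    | zero => exact differentiable_id
    | succ n ih =>
      rw [Function.iterate_succ']
      refine Differentiable.comp ?_ ih
      unfold R4C.f
      fun_prop
  have hroot := fun n => exists_root (z0 := z0) hρ (F := fun z => (f c)^[n] z - b n)
    ((hfd n).sub_const _) (fun z hz h => hb n ⟨z, hz, sub_eq_zero.1 h⟩) n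
  choose h hhd hhn using hroot
  set M : ℝ := ‖z0‖ + ρ + ‖c‖ + 2 with hM
  have hM1 : 1 ≤ M := by
    have := norm_nonneg z0
    linarith
  have hzM : ∀ z ∈ D, ‖z‖ + ‖c‖ + 1 ≤ M := by
    intro z hz
    rw [hD, mem_ball, dist_eq_norm] at hz
    have : ‖z‖ ≤ ‖z0‖ + ‖z - z0‖ := by
      have := norm_add_le z0 (z - z0)
      rwa [add_sub_cancel] at this
    linarith
  have hbd : ∀ n, ∀ z ∈ D, ‖h n z‖ ≤ 2 * M := by
    intro n z hz
    have h1 : ‖h n z‖ ^ 2 ^ n ≤ (2 * M) ^ 2 ^ n := by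
      rw [hhn n z hz]
      have h2 := growth_upper c z n
      have h3 : (‖z‖ + ‖c‖ + 1) ^ 2 ^ n ≤ M ^ 2 ^ n :=
        pow_le_pow_left₀ (by positivity) (hzM z hz) _
      have h4 := norm_b_le (hbK n)
      have h5 : M ≤ M ^ 2 ^ n := le_self_pow₀ hM1 (by positivity)
      have h6 : (2 : ℝ) ≤ 2 ^ 2 ^ n := le_self_pow₀ (by norm_num) (by positivity)
      have h7 : ‖(f c)^[n] z - b n‖ ≤ ‖(f c)^[n] z‖ + ‖b n‖ := norm_sub_le _ _
      have h8 : 0 ≤ M ^ 2 ^ n := by positivity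
      rw [mul_pow]
      have h9 := norm_nonneg z0
      nlinarith
    exact (pow_le_pow_iff_left₀ (norm_nonneg _) (by linarith) (by positivity)).1 h1
  obtain ⟨U, hU⟩ : ∃ U : Ultrafilter ℕ, (U : Filter ℕ) ≤ atTop := by
    refine ⟨Filter.hyperfilter ℕ, ?_⟩
    rw [← Nat.cofinite_eq_atTop]
    exact Filter.hyperfilter_le_cofinite
  obtain ⟨t, htd, ht⟩ := ultra_lim (U := U) isOpen_ball (by linarith : 0 < 2 * M) hhd hbd
  have hpow : ∀ n z (κ : ℝ), z ∈ D → 0 ≤ κ → κ ^ 2 ^ n ≤ ‖(f c)^[n] z - b n‖ → κ ≤ ‖h n z‖ := by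
    intro n z κ hz hκ h1
    rw [← hhn n z hz] at h1
    exact (pow_le_pow_iff_left₀ hκ (norm_nonneg _) (by positivity)).1 h1
  have hpow' : ∀ n z (κ : ℝ), z ∈ D → 0 ≤ κ → ‖(f c)^[n] z - b n‖ ≤ κ ^ 2 ^ n → ‖h n z‖ ≤ κ := by
    intro n z κ hz hκ h1
    rw [← hhn n z hz] at h1
    exact (pow_le_pow_iff_left₀ (norm_nonneg _) hκ (by positivity)).1 h1
  have htend := fun z hz => (R4C.stmt_ELM c).2.2.2.2.2.2.2.2.1 z hz
  -- the limit has modulus at least one
  have h1 : ∀ z ∈ D, z ∉ K c → 1 ≤ ‖t z‖ := by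
    intro z hz hzK
    refine ge_of_tendsto (ht z hz).norm ?_
    have h2 : ∀ᶠ n in atTop, 3 + ‖c‖ ≤ ‖(f c)^[n] z‖ := (htend z hzK).eventually_ge_atTop _
    filter_upwards [hU h2] with n hn
    apply hpow n z 1 hz zero_le_one
    rw [one_pow]
    have h3 := norm_b_le (hbK n)
    have h4 := norm_sub_norm_le ((f c)^[n] z) (b n)
    linarith
  have hdense : Dense (K c)ᶜ := interior_eq_empty_iff_dense_compl.1 hi
  have h2 : ∀ z ∈ D, 1 ≤ ‖t z‖ := by
    intro z hz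
    by_contra hlt
    push Not at hlt
    have hop : IsOpen (D ∩ (fun z => ‖t z‖) ⁻¹' Iio 1) :=
      htd.continuousOn.norm.isOpen_inter_preimage isOpen_ball isOpen_Iio
    obtain ⟨w, ⟨hw1, hw2⟩, hw3⟩ := hdense.inter_open_nonempty _ hop ⟨z, hz, hlt⟩
    exact absurd (h1 w hw1 hw3) (not_le.2 hw2)
  have hz0D : z0 ∈ D := mem_ball_self hρ
  have h3 : ‖t z0‖ ≤ 1 := by
    refine le_of_forall_pos_le_add fun ε hε => ?_
    refine le_of_tendsto (ht z0 hz0D).norm ?_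
    have h4 : Tendsto (fun n : ℕ => (1 + ε) ^ 2 ^ n) atTop atTop :=
      (tendsto_pow_atTop_atTop_of_one_lt (by linarith)).comp
        (tendsto_pow_atTop_atTop_of_one_lt (by norm_num : (1 : ℕ) < 2))
    have h5 : ∀ᶠ n : ℕ in atTop, 2 * (2 + ‖c‖) ≤ (1 + ε) ^ 2 ^ n := h4.eventually_ge_atTop _
    filter_upwards [hU h5] with n hn
    apply hpow' n z0 (1 + ε) hz0D (by linarith)
    have h6 := norm_b_le (hbK n)
    have h7 : ‖(f c)^[n] z0‖ ≤ 2 + ‖c‖ := by
      have := hz0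
      rw [(R4C.stmt_ELM c).2.2.2.1] at this
      exact this n
    have h8 := norm_sub_le ((f c)^[n] z0) (b n)
    linarith
  -- a point with larger modulus
  obtain ⟨w1, hw1D, hw1K⟩ : ∃ w ∈ D, w ∉ K c := by
    obtain ⟨w, hw1, hw2⟩ := hdense.inter_open_nonempty D isOpen_ball ⟨z0, hz0D⟩
    exact ⟨w, hw1, hw2⟩
  obtain ⟨m, hm⟩ : ∃ m : ℕ, 4 + ‖c‖ ≤ ‖(f c)^[m] w1‖ :=
    ((htend w1 hw1K).eventually_ge_atTop _).exists
  obtain ⟨κ, hκ1, hκ⟩ : ∃ κ : ℝ, 1 < κ ∧ κ ^ 2 ^ m = 2 := by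
    refine ⟨(2 : ℝ) ^ (((2 ^ m : ℕ) : ℝ)⁻¹), Real.one_lt_rpow (by norm_num) (by positivity), ?_⟩
    exact Real.rpow_inv_natCast_pow (by norm_num) (by positivity)
  have h4 : κ ≤ ‖t w1‖ := by
    refine ge_of_tendsto (ht w1 hw1D).norm ?_
    filter_upwards [hU (eventually_ge_atTop m)] with n hn
    obtain ⟨k, rfl⟩ := Nat.exists_eq_add_of_le hn
    apply hpow _ w1 κ hw1D (by linarith)
    rw [pow_add, pow_mul, hκ, add_comm m k, Function.iterate_add_apply]
    have h5 := (growth_lower c ((f c)^[m] w1) (by linarith) k).1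
    have h6 := norm_b_le (hbK (k + m))
    have h7 := norm_sub_norm_le ((f c)^[k] ((f c)^[m] w1)) (b (k + m))
    have h8 : (3 : ℝ) ^ 2 ^ k ≤ (‖(f c)^[m] w1‖ - ‖c‖ - 1) ^ 2 ^ k :=
      pow_le_pow_left₀ (by norm_num) (by linarith) _
    have h9 : (2 : ℝ) ^ 2 ^ k + 1 ≤ 3 ^ 2 ^ k := by
      have hN : ∀ N : ℕ, 1 ≤ N → (2 : ℝ) ^ N + 1 ≤ 3 ^ N := by
        intro N hN
        induction N, hN using Nat.le_induction with
        | base => norm_num
        | succ N hN ih =>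
          rw [pow_succ, pow_succ]
          have : (0 : ℝ) < 2 ^ N := by positivity
          linarith
      exact hN _ Nat.one_le_two_pow
    linarith
  have htne : ∀ z ∈ D, t z ≠ 0 := by
    intro z hz h5
    have := h2 z hz
    rw [h5, norm_zero] at this
    linarith
  have hmax : IsMaxOn (norm ∘ fun z => (t z)⁻¹) D z0 := by
    intro z hz
    simp only [Set.mem_ofPred_eq, Function.comp_apply, norm_inv]
    have h5 := h2 z hz
    have h6 : 0 < ‖t z0‖ := norm_pos_iff.2 (htne z0 hz0D)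
    have h7 : ‖t z0‖ ≤ ‖t z‖ := h3.trans h5
    exact inv_anti₀ h6 h7
  have heq := Complex.eqOn_of_isPreconnected_of_isMaxOn_norm
    (convex_ball z0 ρ).isPreconnected isOpen_ball (htd.inv htne) hz0D hmax
  have h5 := heq hw1D
  simp only [Function.const_apply] at h5
  have h6 : t w1 = t z0 := inv_injective h5
  rw [h6] at h4
  linarith

end HH
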