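import Mathlib

/-!
# Logarithms and square roots off connected sets
-/

set_option autoImplicit false

open Topology Metric Filter Set

namespace HH

/-- `(z - a) / (z - y)` has a continuous logarithm on `Y`. -/
def Good (Y : Set ℂ) (y a : ℂ) : Prop :=
  ∃ g : ℂ → ℂ, ContinuousOn g Y ∧ ∀ z ∈ Y, Complex.exp (g z) = (z - a) / (z - y)

lemma good_step {Y : Set ℂ} {y a a' : ℂ} (h : ∀ z ∈ Y, ‖a' - a‖ < ‖z - a‖) (hg : Good Y y a) :
    Good Y y a' := by
  obtain ⟨g, hgc, hge⟩ := hg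
  have hne : ∀ z ∈ Y, z - a ≠ 0 := by
    intro z hz h0
    have := h z hz
    rw [h0, norm_zero] at this
    exact absurd this (not_lt.2 (norm_nonneg _))
  have hsl : ∀ z ∈ Y, (z - a') / (z - a) ∈ Complex.slitPlane := by
    intro z hz
    have h1 : (z - a') / (z - a) = 1 + -((a' - a) / (z - a)) := by
      field_simp [hne z hz]
      ring
    rw [h1]
    apply Complex.mem_slitPlane_of_norm_lt_one
    rw [norm_neg, norm_div, div_lt_one (norm_pos_iff.2 (hne z hz))]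
    exact h z hz
  refine ⟨fun z => g z + Complex.log ((z - a') / (z - a)), ?_, ?_⟩
  · refine hgc.add (ContinuousOn.clog ?_ hsl)
    exact ContinuousOn.div (by fun_prop) (by fun_prop) hne
  · intro z hz
    rw [Complex.exp_add, hge z hz, Complex.exp_log (Complex.slitPlane_ne_zero (hsl z hz))]
    rw [div_mul_div_comm, mul_comm (z - y), mul_div_mul_left _ _ (hne z hz)]

lemma exists_rad {Y : Set ℂ} (hY : IsClosed Y) {a : ℂ} (ha : a ∉ Y) :
    ∃ r : ℝ, 0 < r ∧ ∀ z ∈ Y, 2 * r ≤ ‖z - a‖ := by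
  obtain ⟨ε, hε, hb⟩ := Metric.isOpen_iff.1 hY.isOpen_compl a ha
  refine ⟨ε / 2, by linarith, fun z hz => ?_⟩
  by_contra hcon
  push Not at hcon
  apply hb _ hz
  rw [mem_ball, dist_eq_norm]
  linarith

lemma good_iff {Y : Set ℂ} {y a a' : ℂ} {r : ℝ} (hr : ∀ z ∈ Y, 2 * r ≤ ‖z - a‖)
    (ha : ‖a' - a‖ < r) : (Good Y y a' ↔ Good Y y a) ∧ a' ∉ Y := by
  have h1 : ∀ z ∈ Y, r < ‖z - a'‖ := by
    intro z hz
    have h2 := hr z hz
    have h3 : ‖z - a‖ ≤ ‖z - a'‖ + ‖a' - a‖ := norm_sub_le_norm_sub_add_norm_sub z a' a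
    linarith
  refine ⟨⟨good_step fun z hz => ?_, good_step fun z hz => ?_⟩, fun h => ?_⟩
  · rw [norm_sub_rev]
    linarith [h1 z hz]
  · have := hr z hz
    have h0 := norm_nonneg (a' - a)
    linarith
  · have := h1 a' h
    rw [sub_self, norm_zero] at this
    have h0 := norm_nonneg (a' - a)
    linarith

theorem log_pair {Y : Set ℂ} (hY : IsClosed Y) {A : Set ℂ} (hA : IsPreconnected A)
    (hd : Disjoint A Y) {x y : ℂ} (hx : x ∈ A) (hy : y ∈ A) : Good Y y x := by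
  by_contra hbad
  have hnot : ∀ a ∈ A, a ∉ Y := fun a ha h => Set.disjoint_left.1 hd ha h
  obtain ⟨w, -, ⟨h1, h2⟩, ⟨h3, h4⟩⟩ := hA {a | a ∉ Y ∧ Good Y y a} {a | a ∉ Y ∧ ¬ Good Y y a}
    (by
      rw [Metric.isOpen_iff]
      rintro a ⟨h1, h2⟩
      obtain ⟨r, hr, h3⟩ := exists_rad hY h1
      refine ⟨r, hr, fun a' ha' => ?_⟩
      rw [mem_ball, dist_eq_norm] at ha'
      exact ⟨(good_iff (y := y) h3 ha').2, (good_iff h3 ha').1.2 h2⟩)
    (by
      rw [Metric.isOpen_iff]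
      rintro a ⟨h1, h2⟩
      obtain ⟨r, hr, h3⟩ := exists_rad hY h1
      refine ⟨r, hr, fun a' ha' => ?_⟩
      rw [mem_ball, dist_eq_norm] at ha'
      exact ⟨(good_iff (y := y) h3 ha').2, fun h => h2 ((good_iff h3 ha').1.1 h)⟩)
    (by
      intro a ha
      by_cases h : Good Y y a
      · exact Or.inl ⟨hnot a ha, h⟩
      · exact Or.inr ⟨hnot a ha, h⟩)
    ⟨y, hy, hnot y hy, fun _ => 0, continuousOn_const, fun z hz => by
      rw [Complex.exp_zero, div_self]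
      intro h0
      exact hnot y hy (by rw [← sub_eq_zero.1 h0]; exact hz)⟩
    ⟨x, hx, hnot x hx, hbad⟩
  exact h4 h2

theorem log_unbdd {Y : Set ℂ} (hY : IsCompact Y) {A : Set ℂ} (hA : IsPreconnected A)
    (hu : ¬ Bornology.IsBounded A) (hd : Disjoint A Y) {x : ℂ} (hx : x ∈ A) :
    ∃ g : ℂ → ℂ, ContinuousOn g Y ∧ ∀ z ∈ Y, Complex.exp (g z) = z - x := by
  obtain ⟨R, hR⟩ := hY.isBounded.subset_closedBall 0
  obtain ⟨y, hy, hRy⟩ : ∃ y ∈ A, R < ‖y‖ := by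
    by_contra hcon
    push Not at hcon
    exact hu ((Metric.isBounded_closedBall (x := (0 : ℂ)) (r := R)).subset fun a ha =>
      mem_closedBall_zero_iff.2 (hcon a ha))
  obtain ⟨g, hg, he⟩ := log_pair hY.isClosed hA hd hx hy
  have hYn : ∀ z ∈ Y, ‖z‖ < ‖y‖ := fun z hz =>
    lt_of_le_of_lt (mem_closedBall_zero_iff.1 (hR hz)) hRy
  by_cases hY0 : Y = ∅
  · exact ⟨fun _ => 0, continuousOn_const, fun z hz => by rw [hY0] at hz; exact absurd hz (by simp)⟩
  obtain ⟨z0, hz0⟩ := Set.nonempty_iff_ne_empty.2 hY0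
  have hy0 : y ≠ 0 := by
    intro h
    have := hYn z0 hz0
    rw [h, norm_zero] at this
    exact absurd this (not_lt.2 (norm_nonneg _))
  have hsl : ∀ z ∈ Y, 1 + -(z / y) ∈ Complex.slitPlane := by
    intro z hz
    apply Complex.mem_slitPlane_of_norm_lt_one
    rw [norm_neg, norm_div, div_lt_one (norm_pos_iff.2 hy0)]
    exact hYn z hz
  refine ⟨fun z => g z + Complex.log (1 + -(z / y)) + Complex.log (-y), ?_, ?_⟩
  · refine (hg.add (ContinuousOn.clog (by fun_prop) hsl)).add continuousOn_const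
  · intro z hz
    rw [Complex.exp_add, Complex.exp_add, he z hz, Complex.exp_log
      (Complex.slitPlane_ne_zero (hsl z hz)), Complex.exp_log (neg_ne_zero.2 hy0)]
    have hzy : z - y ≠ 0 := by
      intro h
      have := hYn z hz
      rw [sub_eq_zero.1 h] at this
      exact lt_irrefl _ this
    field_simp
    ring

/-- Square roots on compact subsets give a square root. -/
theorem sqrt_lim {O : Set ℂ} (hO : IsOpen O) {h : ℂ → ℂ} (h0 : ∀ z ∈ O, h z ≠ 0)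
    (hs : ∀ Y : Set ℂ, IsCompact Y → Y ⊆ O → ∃ s : ℂ → ℂ, ContinuousOn s Y ∧
      ∀ z ∈ Y, s z ^ 2 = h z) :
    ∃ B : ℂ → ℂ, ContinuousOn B O ∧ ∀ z ∈ O, B z ^ 2 = h z := by
  classical
  let ι := {Y : Set ℂ // IsCompact Y ∧ Y ⊆ O}
  have : Nonempty ι := ⟨⟨∅, isCompact_empty, Set.empty_subset _⟩⟩
  have : IsDirectedOrder ι := ⟨fun a b => ⟨⟨a.1 ∪ b.1, a.2.1.union b.2.1,
    Set.union_subset a.2.2 b.2.2⟩, Set.subset_union_left, Set.subset_union_right⟩⟩
  obtain ⟨U, hU⟩ : ∃ U : Ultrafilter ι, (U : Filter ι) ≤ atTop :=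
    ⟨Ultrafilter.of atTop, Ultrafilter.of_le atTop⟩
  have hev : ∀ Y0 : Set ℂ, IsCompact Y0 → Y0 ⊆ O → ∀ᶠ Y : ι in (U : Filter ι), Y0 ⊆ Y.1 := by
    intro Y0 h1 h2
    have h3 : ∀ᶠ Y : ι in atTop, (⟨Y0, h1, h2⟩ : ι) ≤ Y := eventually_ge_atTop _
    exact hU h3
  choose s hsc hse using fun Y : ι => hs Y.1 Y.2.1 Y.2.2
  have hloc : ∀ Y0 : Set ℂ, IsCompact Y0 → Y0 ⊆ O → IsPreconnected Y0 →
      ∃ b : ℂ → ℂ, ContinuousOn b Y0 ∧ ∀ᶠ Y in (U : Filter ι), ∀ z ∈ Y0, s Y z = b z := by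
    intro Y0 h1 h2 h3
    set Y0' : ι := ⟨Y0, h1, h2⟩ with hY0'
    have hc := hsc Y0'
    have h4 : ∀ᶠ Y in (U : Filter ι), EqOn (s Y) (s Y0') Y0 ∨ EqOn (s Y) (-(s Y0')) Y0 := by
      filter_upwards [hev Y0 h1 h2] with Y hY
      refine h3.eq_or_eq_neg_of_sq_eq ((hsc Y).mono hY) hc (fun z hz => ?_) (fun {z} hz => ?_)
      · simp only [Pi.pow_apply]
        rw [hse Y z (hY hz), hse Y0' z hz]
      · intro h5
        have h6 := hse Y0' z hz
        rw [h5] at h6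
        exact h0 z (h2 hz) (by rw [← h6]; simp)
    rcases Ultrafilter.eventually_or.1 h4 with h5 | h5
    · exact ⟨s Y0', hc, h5⟩
    · exact ⟨-(s Y0'), hc.neg, h5⟩
  have hpt : ∀ z ∈ O, ∃ b : ℂ, ∀ᶠ Y in (U : Filter ι), s Y z = b := by
    intro z hz
    obtain ⟨b, -, hb⟩ := hloc {z} isCompact_singleton (Set.singleton_subset_iff.2 hz)
      isPreconnected_singleton
    exact ⟨b z, hb.mono fun Y hY => hY z rfl⟩
  choose! B hB using hpt
  refine ⟨B, fun z0 hz0 => ?_, fun z hz => ?_⟩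
  · obtain ⟨r, hr, hb⟩ := Metric.isOpen_iff.1 hO z0 hz0
    have hsub : closedBall z0 (r / 2) ⊆ O := (closedBall_subset_ball (by linarith)).trans hb
    obtain ⟨b, hbc, hbe⟩ := hloc (closedBall z0 (r / 2)) (isCompact_closedBall _ _) hsub
      (convex_closedBall _ _).isPreconnected
    have h1 : ∀ z ∈ closedBall z0 (r / 2), B z = b z := by
      intro z hz
      obtain ⟨Y, h2, h3⟩ := ((hB z (hsub hz)).and hbe).exists
      rw [← h2, h3 z hz]
    have hn : closedBall z0 (r / 2) ∈ 𝓝 z0 := closedBall_mem_nhds _ (by linarith)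
    exact ((hbc.congr h1).continuousAt hn).continuousWithinAt
  · obtain ⟨Y, h2, h3⟩ := ((hB z hz).and (hev {z} isCompact_singleton
      (Set.singleton_subset_iff.2 hz))).exists
    rw [← h2]
    exact hse Y z (h3 rfl)

lemma sqrt_of_log {Y : Set ℂ} {h : ℂ → ℂ}
    (H : ∃ g : ℂ → ℂ, ContinuousOn g Y ∧ ∀ z ∈ Y, Complex.exp (g z) = h z) :
    ∃ s : ℂ → ℂ, ContinuousOn s Y ∧ ∀ z ∈ Y, s z ^ 2 = h z := by
  obtain ⟨g, hg, he⟩ := H
  refine ⟨fun z => Complex.exp (g z / 2), (hg.div_const 2).cexp, fun z hz => ?_⟩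
  rw [← Complex.exp_nat_mul, ← he z hz]
  congr 1
  push_cast
  ring

/-- A square root of `(z - x) / (z - y)` off a connected closed set that contains `x, y`. -/
theorem sqrt_pair {A : Set ℂ} (hAc : IsClosed A) (hA : IsPreconnected A) {x y : ℂ} (hx : x ∈ A)
    (hy : y ∈ A) : ∃ B : ℂ → ℂ, ContinuousOn B Aᶜ ∧ ∀ z ∉ A, B z ^ 2 = (z - x) / (z - y) := by
  refine sqrt_lim hAc.isOpen_compl (fun z hz => ?_) (fun Y hY hYA => ?_)
  · apply div_ne_zero
    · intro h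
      exact hz (by rw [sub_eq_zero.1 h]; exact hx)
    · intro h
      exact hz (by rw [sub_eq_zero.1 h]; exact hy)
  · exact sqrt_of_log (log_pair hY.isClosed hA
      (Set.disjoint_left.2 fun a ha h => hYA h ha) hx hy)

/-- A square root of `z - x` off an unbounded connected closed set that contains `x`. -/
theorem sqrt_unbdd {A : Set ℂ} (hAc : IsClosed A) (hA : IsPreconnected A)
    (hu : ¬ Bornology.IsBounded A) {x : ℂ} (hx : x ∈ A) :
    ∃ B : ℂ → ℂ, ContinuousOn B Aᶜ ∧ ∀ z ∉ A, B z ^ 2 = z - x := by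
  refine sqrt_lim hAc.isOpen_compl (fun z hz => ?_) (fun Y hY hYA => ?_)
  · intro h
    exact hz (by rw [sub_eq_zero.1 h]; exact hx)
  · exact sqrt_of_log (log_unbdd hY hA hu (Set.disjoint_left.2 fun a ha h => hYA h ha) hx)

end HH
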