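import Pool.Agent.Work.MP_065151_hh.Irred
import Pool.Agent.Work.MP_065151_hh.Final

/-!
# Rays whose principal set is the whole Julia set
-/

set_option autoImplicit false

open Topology Metric Filter Set

namespace HH

open R4C (f K Bot Cof IsDisk rad)

variable {c : ℂ} {ψ : ℂ → ℂ}

/-- A proper subcontinuum through the two preimages of a fixed point gives one through the
critical value. -/
theorem exists_S2 (h0 : (0 : ℂ) ∈ K c) (hi : interior (K c) = ∅) {β : ℂ} (hβ : f c β = β)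
    {S : Set ℂ} (hS : IsCompact S) (hSc : IsPreconnected S) (hSK : S ⊆ K c) (hne : ¬ K c ⊆ S)
    (h1 : β ∈ S) (h2 : -β ∈ S) : ∃ S' : Set ℂ, IsCompact S' ∧ IsPreconnected S' ∧ c ∈ S' ∧
      S' ⊆ K c ∧ (∃ z ∈ K c, z ∉ S') ∧ β ∈ S' := by
  have hc := c_ne_zero hi
  have hβ0 : β ≠ 0 := by
    rintro rfl
    rw [f_zero] at hβ
    exact hc hβ
  by_cases hcS : c ∈ S
  · exact ⟨S, hS, hSc, hcS, hSK, Set.not_subset.1 hne, h1⟩
  by_cases hcS' : -c ∈ S
  · refine ⟨nH S, neg_cpt hS, neg_con hSc, hcS', fun z hz => (neg_mem_K c z).1 (hSK hz), ?_, ?_⟩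
    · obtain ⟨z, hz, hzS⟩ := Set.not_subset.1 hne
      exact ⟨-z, (neg_mem_K c z).2 hz, by rw [mem_nH, neg_neg]; exact hzS⟩
    · rw [mem_nH]; exact h2
  · have hT : IsCompact (f c '' S) := hS.image (f_cont c)
    have hTc : IsPreconnected (f c '' S) := hSc.image _ (f_cont c).continuousOn
    have hTK : f c '' S ⊆ K c := by
      rintro _ ⟨z, hz, rfl⟩
      exact (f_mem_K c z).2 (hSK hz)
    refine ⟨f c '' S, hT, hTc, ?_, hTK, ?_, ⟨β, h1, hβ⟩⟩
    · by_contra hcT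
      obtain ⟨s, hs, hsq⟩ := sqrt_of_log (log_unbdd hT (full_sub h0 hi hTK)
        (compl_unbdd hT.isBounded) disjoint_compl_left (x := c) hcT)
      have hcont : ContinuousOn (fun z => s (f c z)) S :=
        hs.comp (f_cont c).continuousOn fun z hz => ⟨z, hz, rfl⟩
      have hsq2 : ∀ z ∈ S, s (f c z) ^ 2 = z ^ 2 := by
        intro z hz
        rw [hsq _ ⟨z, hz, rfl⟩]
        show z ^ 2 + c - c = z ^ 2
        ring
      have hz0 : ∀ z ∈ S, z ≠ 0 := by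
        rintro z hz rfl
        exact hcT ⟨0, hz, f_zero c⟩
      rcases hSc.eq_or_eq_neg_of_sq_eq (f := fun z => s (f c z)) (g := fun z => z) hcont
        continuousOn_id (fun z hz => hsq2 z hz) (fun {z} hz => hz0 z hz) with h | h
      · have e1 : s (f c β) = β := h h1
        have e2 : s (f c (-β)) = -β := h h2
        rw [f_neg, e1] at e2
        exact hβ0 (self_eq_neg.1 e2)
      · have e1 : s (f c β) = -β := h h1
        have e2 : s (f c (-β)) = - -β := h h2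
        rw [f_neg, e1, neg_neg] at e2
        exact hβ0 (self_eq_neg.1 e2.symm)
    · refine ⟨f c c, (f_mem_K c c).2 (c_mem_K h0), ?_⟩
      rintro ⟨u, hu, hu2⟩
      rcases f_eq hu2 with h | h
      · exact hcS (h ▸ hu)
      · exact hcS' (h ▸ hu)

/-- An image that covers the Julia set gives a half. -/
lemma half_of_image {A : Set ℂ} (hA : IsCompact A) (hAc : IsPreconnected A) (hAK : A ⊆ K c)
    (hAne : ¬ K c ⊆ A) (hex : ∃ n, K c ⊆ (f c)^[n] '' A) : ∃ T, Half c T := by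
  classical
  set m := Nat.find hex with hm
  have hm1 : K c ⊆ (f c)^[m] '' A := Nat.find_spec hex
  have hm0 : m ≠ 0 := by
    intro h0
    rw [h0, Function.iterate_zero, Set.image_id] at hm1
    exact hAne hm1
  obtain ⟨k, hk⟩ : ∃ k, m = k + 1 := ⟨m - 1, by omega⟩
  have hmin : ¬ K c ⊆ (f c)^[k] '' A := Nat.find_min hex (by omega)
  have hcont : Continuous (f c)^[k] := R4C.DSK.continuous_iter c k
  refine ⟨(f c)^[k] '' A, hA.image hcont, hAc.image _ hcont.continuousOn, ?_, hmin, ?_⟩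
  · rintro _ ⟨a, ha, rfl⟩
    exact (iter_mem_K c k a).2 (hAK ha)
  · intro z hz
    rw [hk] at hm1
    obtain ⟨a, ha, ha2⟩ := hm1 ((f_mem_K c z).2 hz)
    rw [Function.iterate_succ_apply'] at ha2
    rcases f_eq ha2 with h | h
    · left; exact ⟨a, ha, h⟩
    · right; exact ⟨a, ha, h⟩

/-! ### The map in polar coordinates -/

/-- The inverse Boettcher map in polar coordinates. -/
noncomputable def Ph (ψ : ℂ → ℂ) (p : ℝ × ℝ) : ℂ :=
  ψ (p.1 * Complex.exp (2 * Real.pi * Complex.I * p.2))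

lemma norm_pol {r : ℝ} (hr : 0 ≤ r) (t : ℝ) :
    ‖(r : ℂ) * Complex.exp (2 * Real.pi * Complex.I * t)‖ = r := by
  have h1 : (2 * Real.pi * Complex.I * t : ℂ) = ((2 * Real.pi * t : ℝ) : ℂ) * Complex.I := by
    push_cast
    ring
  rw [norm_mul, h1, Complex.norm_exp_ofReal_mul_I, mul_one, Complex.norm_real,
    Real.norm_of_nonneg hr]

lemma Ph_cont (h : Bo c ψ) : ContinuousOn (Ph ψ) (Ioi 1 ×ˢ univ) := by
  refine h.hol.continuousOn.comp (by fun_prop) ?_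
  rintro ⟨r, t⟩ ⟨hr, -⟩
  have hr : (1 : ℝ) < r := hr
  show 1 < ‖(r : ℂ) * Complex.exp (2 * Real.pi * Complex.I * t)‖
  rw [norm_pol (by linarith)]
  exact hr

lemma psi_compl (h : Bo c ψ) {w : ℂ} (hw : 1 < ‖w‖) : ψ w ∉ K c := by
  have h1 : ψ w ∈ (K c)ᶜ := by
    rw [← h.img]
    exact ⟨w, hw, rfl⟩
  exact h1

lemma psi_bdd (h : Bo c ψ) : ∃ B : ℝ, ∀ w : ℂ, 1 < ‖w‖ → ‖w‖ ≤ 2 → ‖ψ w‖ ≤ B := by
  have hcpt : IsCompact (closedBall (0 : ℂ) 4 ∩ (ball 0 2)ᶜ) :=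
    (isCompact_closedBall _ _).inter_right isOpen_ball.isClosed_compl
  have hcont : ContinuousOn ψ (closedBall (0 : ℂ) 4 ∩ (ball 0 2)ᶜ) := by
    refine h.hol.continuousOn.mono fun w hw => ?_
    have h1 := hw.2
    rw [Set.mem_compl_iff, mem_ball_zero_iff, not_lt] at h1
    show 1 < ‖w‖
    linarith
  obtain ⟨R, hR⟩ := (hcpt.image_of_continuousOn hcont).isBounded.subset_closedBall 0
  refine ⟨max R (rad c), fun w hw hw2 => ?_⟩
  have hl : 0 < Real.log ‖w‖ := Real.log_pos hw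
  have hex : ∃ n : ℕ, 2 ≤ ‖w‖ ^ 2 ^ n := by
    obtain ⟨n, hn⟩ := pow_unbounded_of_one_lt (2 : ℝ) hw
    refine ⟨n, hn.le.trans ?_⟩
    exact pow_le_pow_right₀ hw.le Nat.lt_two_pow_self.le
  classical
  set n := Nat.find hex with hn
  have hn1 : 2 ≤ ‖w‖ ^ 2 ^ n := Nat.find_spec hex
  have hn2 : ‖w‖ ^ 2 ^ n ≤ 4 := by
    rcases Nat.eq_zero_or_pos n with h1 | h1
    · rw [h1]
      simp only [pow_zero, pow_one]
      linarith
    · obtain ⟨k, hk⟩ : ∃ k, n = k + 1 := ⟨n - 1, by omega⟩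
      have h2 := Nat.find_min hex (m := k) (by omega)
      push Not at h2
      rw [hk, pow_succ, pow_mul]
      have h3 : 0 ≤ ‖w‖ ^ 2 ^ k := by positivity
      nlinarith
  apply (R4C.stmt_ELM c).2.2.1 (ψ w) n (max R (rad c)) (le_max_right _ _)
  rw [iter_psi h n hw]
  refine (mem_closedBall_zero_iff.1 (hR ⟨w ^ 2 ^ n, ⟨?_, ?_⟩, rfl⟩)).trans (le_max_left _ _)
  · rw [mem_closedBall_zero_iff, norm_pow]
    exact hn2
  · rw [Set.mem_compl_iff, mem_ball_zero_iff, not_lt, norm_pow]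
    exact hn1

lemma isOpen_outer (r : ℝ) : IsOpen {w : ℂ | r < ‖w‖} := isOpen_lt continuous_const continuous_norm

/-- The image of an open set is open. -/
lemma psi_open (h : Bo c ψ) {U : Set ℂ} (hU : IsOpen U) (hUs : U ⊆ {w | 1 < ‖w‖}) :
    IsOpen (ψ '' U) := by
  rcases (h.hol.analyticOnNhd (isOpen_outer 1)).is_constant_or_isOpen
    isConnected_outside.isPreconnected with ⟨v, hv⟩ | hop
  · exfalso
    have h2 : (2 : ℂ) ∈ {w : ℂ | 1 < ‖w‖} := by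
      show 1 < ‖(2 : ℂ)‖
      simp
    have h3 : (3 : ℂ) ∈ {w : ℂ | 1 < ‖w‖} := by
      show 1 < ‖(3 : ℂ)‖
      simp
    have h4 := h.inj h2 h3 ((hv _ h2).trans (hv _ h3).symm)
    norm_num at h4
  · exact hop U hUs hU

/-- Points off the filled Julia set are away from the images of points near the circle. -/
lemma psi_far (h : Bo c ψ) {z : ℂ} (hz : z ∉ K c) : ∃ r : ℝ, 1 < r ∧ ∃ ε : ℝ, 0 < ε ∧
    ∀ w : ℂ, 1 < ‖w‖ → ‖w‖ ≤ r → ε ≤ ‖ψ w - z‖ := by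
  have hz2 : z ∈ ψ '' {w | 1 < ‖w‖} := by rw [h.img]; exact hz
  obtain ⟨w0, hw0, rfl⟩ := hz2
  have hw0 : 1 < ‖w0‖ := hw0
  have hsub : {w : ℂ | (1 + ‖w0‖) / 2 < ‖w‖} ⊆ {w | 1 < ‖w‖} := by
    intro w hw
    have hw : (1 + ‖w0‖) / 2 < ‖w‖ := hw
    show 1 < ‖w‖
    linarith
  obtain ⟨ε, hε, hb⟩ := Metric.isOpen_iff.1 (psi_open h (isOpen_outer _) hsub) (ψ w0)
    ⟨w0, show (1 + ‖w0‖) / 2 < ‖w0‖ by linarith, rfl⟩
  refine ⟨(1 + ‖w0‖) / 2, by linarith, ε, hε, fun w hw1 hw2 => ?_⟩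
  by_contra hcon
  push Not at hcon
  obtain ⟨v, hv, hvw⟩ := hb (by rw [mem_ball, dist_eq_norm]; exact hcon : ψ w ∈ ball (ψ w0) ε)
  have h1 := h.inj (hsub hv) hw1 hvw
  rw [h1] at hv
  have hv : (1 + ‖w0‖) / 2 < ‖w‖ := hv
  linarith

/-- Points of the filled Julia set are limits of images of points near the circle. -/
lemma psi_near (h : Bo c ψ) (hi : interior (K c) = ∅) {z : ℂ} (hz : z ∈ K c) {r : ℝ} (hr : 1 < r)
    {ε : ℝ} (hε : 0 < ε) : ∃ w : ℂ, 1 < ‖w‖ ∧ ‖w‖ < r ∧ ‖ψ w - z‖ < ε := by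
  obtain ⟨T, hT1, hT⟩ := psi_large h (‖z‖ + 1)
  have hcpt : IsCompact (closedBall (0 : ℂ) T ∩ (ball 0 r)ᶜ) :=
    (isCompact_closedBall _ _).inter_right isOpen_ball.isClosed_compl
  have hsub : closedBall (0 : ℂ) T ∩ (ball 0 r)ᶜ ⊆ {w | 1 < ‖w‖} := by
    intro w hw
    have h1 := hw.2
    rw [Set.mem_compl_iff, mem_ball_zero_iff, not_lt] at h1
    show 1 < ‖w‖
    linarith
  have hcl := (hcpt.image_of_continuousOn (h.hol.continuousOn.mono hsub)).isClosed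
  have hzn : z ∈ (ψ '' (closedBall (0 : ℂ) T ∩ (ball 0 r)ᶜ))ᶜ := by
    rintro ⟨w, hw, rfl⟩
    exact psi_compl h (hsub hw) hz
  obtain ⟨δ, hδ, hb⟩ := Metric.isOpen_iff.1 hcl.isOpen_compl z hzn
  set η := min (min δ ε) 1 with hη
  have hη0 : 0 < η := lt_min (lt_min hδ hε) one_pos
  obtain ⟨u, hu1, hu2⟩ : ∃ u ∈ ball z η, u ∉ K c := by
    by_contra hcon
    push Not at hcon
    have h1 : z ∈ interior (K c) := mem_interior.2 ⟨ball z η, hcon, isOpen_ball, mem_ball_self hη0⟩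
    rw [hi] at h1
    exact h1
  have hu3 : u ∈ ψ '' {w | 1 < ‖w‖} := by rw [h.img]; exact hu2
  obtain ⟨w, hw, rfl⟩ := hu3
  rw [mem_ball, dist_eq_norm] at hu1
  refine ⟨w, hw, ?_, hu1.trans_le ((min_le_left _ _).trans (min_le_right _ _))⟩
  by_contra hcon
  push Not at hcon
  have h1 : ‖w‖ ≤ T := by
    by_contra h2
    push Not at h2
    have h3 := hT w h2
    have h4 : ‖ψ w‖ ≤ ‖ψ w - z‖ + ‖z‖ := by
      have := norm_add_le (ψ w - z) z
      rwa [sub_add_cancel] at this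
    have h5 : η ≤ 1 := min_le_right _ _
    linarith
  refine hb (a := ψ w) ?_ ⟨w, ⟨mem_closedBall_zero_iff.2 h1, ?_⟩, rfl⟩
  · rw [mem_ball, dist_eq_norm]
    exact hu1.trans_le ((min_le_left _ _).trans (min_le_left _ _))
  · rw [Set.mem_compl_iff, mem_ball_zero_iff, not_lt]
    exact hcon

/-- The image of a thin sector. -/
def Sec (ψ : ℂ → ℂ) (n : ℕ) (a b : ℝ) : Set ℂ :=
  Ph ψ '' (Ioo (1 : ℝ) (1 + 1 / ((n : ℝ) + 1)) ×ˢ Icc a b)

lemma width_pos (n : ℕ) : (0 : ℝ) < 1 / ((n : ℝ) + 1) := by positivity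

lemma width_le (n : ℕ) : (1 : ℝ) / ((n : ℝ) + 1) ≤ 1 := by
  rw [div_le_one (by positivity)]
  have : (0 : ℝ) ≤ n := Nat.cast_nonneg n
  linarith

lemma Sec_anti (ψ : ℂ → ℂ) (a b : ℝ) : Antitone fun n => Sec ψ n a b := by
  intro n m hnm
  apply Set.image_mono
  apply Set.prod_mono_left
  apply Set.Ioo_subset_Ioo_right
  have h1 : (n : ℝ) ≤ m := by exact_mod_cast hnm
  have h2 : (1 : ℝ) / ((m : ℝ) + 1) ≤ 1 / ((n : ℝ) + 1) :=
    one_div_le_one_div_of_le (by positivity) (by linarith)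
  linarith

lemma Sec_mem {n : ℕ} {a b : ℝ} {z : ℂ} (hz : z ∈ Sec ψ n a b) : ∃ w : ℂ, 1 < ‖w‖ ∧
    ‖w‖ < 1 + 1 / ((n : ℝ) + 1) ∧ ψ w = z := by
  obtain ⟨⟨r, t⟩, ⟨⟨hr1, hr2⟩, ht⟩, rfl⟩ := hz
  refine ⟨_, ?_, ?_, rfl⟩
  · simp only at hr1 ⊢
    rw [norm_pol (by linarith)]
    exact hr1
  · simp only at hr1 hr2 ⊢
    rw [norm_pol (by linarith)]
    exact hr2

lemma Sec_bdd (h : Bo c ψ) (n : ℕ) (a b : ℝ) : Bornology.IsBounded (Sec ψ n a b) := by
  obtain ⟨B, hB⟩ := psi_bdd h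
  refine (Metric.isBounded_closedBall (x := (0 : ℂ)) (r := B)).subset fun z hz => ?_
  obtain ⟨w, hw1, hw2, rfl⟩ := Sec_mem hz
  rw [mem_closedBall_zero_iff]
  exact hB w hw1 (by have := width_le n; linarith)

lemma Sec_conn (h : Bo c ψ) (n : ℕ) (a b : ℝ) : IsPreconnected (Sec ψ n a b) := by
  refine (isPreconnected_Ioo.prod isPreconnected_Icc).image _ ((Ph_cont h).mono ?_)
  rintro ⟨r, t⟩ ⟨⟨hr, -⟩, -⟩
  exact ⟨hr, Set.mem_univ _⟩

/-- The limit set of a sector. -/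
def CI (ψ : ℂ → ℂ) (a b : ℝ) : Set ℂ := ⋂ n, closure (Sec ψ n a b)

lemma CI_anti (ψ : ℂ → ℂ) (a b : ℝ) : Antitone fun n => closure (Sec ψ n a b) :=
  fun _ _ hnm => closure_mono (Sec_anti ψ a b hnm)

lemma CI_compact (h : Bo c ψ) (a b : ℝ) : IsCompact (CI ψ a b) :=
  ((Sec_bdd h 0 a b).isCompact_closure).of_isClosed_subset
    (isClosed_iInter fun _ => isClosed_closure) (Set.iInter_subset _ 0)

lemma CI_conn (h : Bo c ψ) (a b : ℝ) : IsPreconnected (CI ψ a b) :=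
  conn_iInter _ (CI_anti ψ a b) (fun n => (Sec_bdd h n a b).isCompact_closure)
    fun n => (Sec_conn h n a b).closure

lemma CI_sub (h : Bo c ψ) (a b : ℝ) : CI ψ a b ⊆ K c := by
  intro z hz
  by_contra hzK
  obtain ⟨r, hr, ε, hε, hfar⟩ := psi_far h hzK
  obtain ⟨n, hn⟩ := exists_nat_one_div_lt (K := ℝ) (sub_pos.2 hr)
  obtain ⟨y, hy, hyz⟩ := Metric.mem_closure_iff.1 (Set.mem_iInter.1 hz n) ε hε
  obtain ⟨w, hw1, hw2, rfl⟩ := Sec_mem hy
  rw [dist_comm, dist_eq_norm] at hyz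
  exact absurd (hfar w hw1 (by linarith)) (not_le.2 hyz)

/-- Choice of an angle in a long interval. -/
lemma exists_angle {a b : ℝ} {m : ℕ} (hab : 1 ≤ 2 ^ m * (b - a)) (w : ℂ) (hw : 1 < ‖w‖) :
    ∃ r t : ℝ, 1 < r ∧ r ≤ ‖w‖ ∧ t ∈ Icc a b ∧
      ((r : ℂ) * Complex.exp (2 * Real.pi * Complex.I * t)) ^ 2 ^ m = w := by
  set α : ℝ := w.arg / (2 * Real.pi) with hα
  set j : ℤ := ⌈2 ^ m * a - α⌉ with hj
  have hp : (0 : ℝ) < 2 ^ m := by positivity
  have hj1 : 2 ^ m * a - α ≤ j := Int.le_ceil _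
  have hj2 : (j : ℝ) < 2 ^ m * a - α + 1 := Int.ceil_lt_add_one _
  have hw0 : 0 < ‖w‖ := by linarith
  have hl : 0 < Real.log ‖w‖ := Real.log_pos hw
  refine ⟨Real.exp (Real.log ‖w‖ / 2 ^ m), (α + j) / 2 ^ m, ?_, ?_, ⟨?_, ?_⟩, ?_⟩
  · exact Real.one_lt_exp_iff.2 (by positivity)
  · calc Real.exp (Real.log ‖w‖ / 2 ^ m) ≤ Real.exp (Real.log ‖w‖) := by
          apply Real.exp_le_exp.2
          exact div_le_self hl.le (one_le_pow₀ (by norm_num))
      _ = ‖w‖ := Real.exp_log hw0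
  · rw [le_div_iff₀ hp]
    linarith
  · rw [div_le_iff₀ hp]
    nlinarith
  · rw [mul_pow, ← Complex.ofReal_pow, ← Real.exp_nat_mul, ← Complex.exp_nat_mul]
    have e1 : ((2 ^ m : ℕ) : ℝ) * (Real.log ‖w‖ / 2 ^ m) = Real.log ‖w‖ := by
      push_cast
      field_simp
    have e2 : ((2 ^ m : ℕ) : ℂ) * (2 * Real.pi * Complex.I * (((α + j) / 2 ^ m : ℝ) : ℂ)) =
        w.arg * Complex.I + j * (2 * Real.pi * Complex.I) := by
      have hpi : (Real.pi : ℂ) ≠ 0 := by exact_mod_cast Real.pi_ne_zero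
      rw [hα]
      push_cast
      field_simp
    rw [e1, Real.exp_log hw0, e2, Complex.exp_add, Complex.exp_int_mul_two_pi_mul_I, mul_one]
    exact Complex.norm_mul_exp_arg_mul_I w

lemma CI_image (h : Bo c ψ) (hi : interior (K c) = ∅) {a b : ℝ} {m : ℕ}
    (hab : 1 ≤ 2 ^ m * (b - a)) : K c ⊆ (f c)^[m] '' CI ψ a b := by
  have hcont : Continuous (f c)^[m] := R4C.DSK.continuous_iter c m
  intro z hz
  have hstep : ∀ n, z ∈ (f c)^[m] '' closure (Sec ψ n a b) := by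
    intro n
    have hcl : IsClosed ((f c)^[m] '' closure (Sec ψ n a b)) :=
      ((Sec_bdd h n a b).isCompact_closure.image hcont).isClosed
    rw [← hcl.closure_eq, Metric.mem_closure_iff]
    intro ε hε
    obtain ⟨w, hw1, hw2, hw3⟩ := psi_near h hi hz (r := 1 + 1 / ((n : ℝ) + 1))
      (by have := width_pos n; linarith) hε
    obtain ⟨r, t, hr1, hr2, ht, hrt⟩ := exists_angle hab w hw1
    refine ⟨ψ w, ⟨Ph ψ (r, t), subset_closure ⟨(r, t), ⟨⟨hr1, by linarith⟩, ht⟩, rfl⟩, ?_⟩, ?_⟩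
    · show (f c)^[m] (ψ ((r : ℂ) * Complex.exp (2 * Real.pi * Complex.I * t))) = ψ w
      rw [iter_psi h m (by rw [norm_pol (by linarith)]; exact hr1), hrt]
    · rw [dist_comm, dist_eq_norm]
      exact hw3
  obtain ⟨y, hy⟩ := IsCompact.nonempty_iInter_of_sequence_nonempty_isCompact_isClosed
    (fun n => closure (Sec ψ n a b) ∩ (f c)^[m] ⁻¹' {z})
    (fun n => Set.inter_subset_inter_left _ (CI_anti ψ a b (Nat.le_succ n)))
    (fun n => by
      obtain ⟨y, hy, hyz⟩ := hstep n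
      exact ⟨y, hy, hyz⟩)
    ((Sec_bdd h 0 a b).isCompact_closure.inter_right (isClosed_singleton.preimage hcont))
    (fun n => isClosed_closure.inter (isClosed_singleton.preimage hcont))
  rw [Set.mem_iInter] at hy
  exact ⟨y, Set.mem_iInter.2 fun n => (hy n).1, (hy 0).2⟩

lemma CI_full (h : Bo c ψ) (hi : interior (K c) = ∅) (hno : ∀ T, ¬ Half c T) {a b : ℝ}
    (hab : a < b) : K c ⊆ CI ψ a b := by
  by_contra hne
  obtain ⟨m, hm⟩ := pow_unbounded_of_one_lt (1 / (b - a)) (one_lt_two)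
  rw [div_lt_iff₀ (sub_pos.2 hab)] at hm
  obtain ⟨T, hT⟩ := half_of_image (CI_compact h a b) (CI_conn h a b) (CI_sub h a b) hne
    ⟨m, CI_image h hi hm.le⟩
  exact hno T hT

/-- **Mayer and Rogers.** If there is no half, some ray accumulates at every point. -/
theorem exists_dense_ray (h : Bo c ψ) (hi : interior (K c) = ∅) (hno : ∀ T, ¬ Half c T) :
    ∃ t : ℝ, K c ⊆ closure ((fun r : ℝ => Ph ψ (r, t)) '' Ioi 1) := by
  let B : Set (Set ℂ) := TopologicalSpace.countableBasis ℂ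
  have hBc : Countable B := (TopologicalSpace.countable_countableBasis ℂ).to_subtype
  let O : B → Set ℝ := fun U => {t | ((U : Set ℂ) ∩ K c).Nonempty →
    ∃ r : ℝ, 1 < r ∧ Ph ψ (r, t) ∈ (U : Set ℂ)}
  have hOo : ∀ U, IsOpen (O U) := by
    intro U
    by_cases hU : ((U : Set ℂ) ∩ K c).Nonempty
    · have hUo : IsOpen (U : Set ℂ) := TopologicalSpace.isOpen_of_mem_countableBasis U.2
      have h1 : IsOpen ((Ioi (1 : ℝ) ×ˢ (univ : Set ℝ)) ∩ Ph ψ ⁻¹' (U : Set ℂ)) :=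
        (Ph_cont h).isOpen_inter_preimage (isOpen_Ioi.prod isOpen_univ) hUo
      have h2 : O U = Prod.snd '' ((Ioi (1 : ℝ) ×ˢ (univ : Set ℝ)) ∩ Ph ψ ⁻¹' (U : Set ℂ)) := by
        ext t
        constructor
        · intro ht
          obtain ⟨r, hr1, hr2⟩ := ht hU
          exact ⟨(r, t), ⟨⟨hr1, Set.mem_univ _⟩, hr2⟩, rfl⟩
        · rintro ⟨⟨r, t'⟩, ⟨⟨hr1, -⟩, hr2⟩, rfl⟩ -
          exact ⟨r, hr1, hr2⟩
      rw [h2]
      exact isOpenMap_snd _ h1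
    · have h2 : O U = univ := Set.eq_univ_of_forall fun t ht => absurd ht hU
      rw [h2]
      exact isOpen_univ
  have hOd : ∀ U, Dense (O U) := by
    intro U
    rw [dense_iff_inter_open]
    intro W hW hWn
    obtain ⟨x, hx⟩ := hWn
    obtain ⟨ε, hε, hb⟩ := Metric.isOpen_iff.1 hW x hx
    by_cases hU : ((U : Set ℂ) ∩ K c).Nonempty
    · have hUo : IsOpen (U : Set ℂ) := TopologicalSpace.isOpen_of_mem_countableBasis U.2
      obtain ⟨z, hzU, hzK⟩ := hU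
      have h1 := Set.mem_iInter.1 (CI_full h hi hno (a := x) (b := x + ε / 2) (by linarith) hzK) 0
      obtain ⟨y, hyU, hyS⟩ := mem_closure_iff.1 h1 (U : Set ℂ) hUo hzU
      obtain ⟨⟨r, t⟩, ⟨⟨hr1, hr2⟩, ht1, ht2⟩, rfl⟩ := hyS
      refine ⟨t, hb ?_, fun _ => ⟨r, hr1, hyU⟩⟩
      simp only at ht1 ht2
      rw [mem_ball, Real.dist_eq, abs_lt]
      constructor <;> linarith
    · exact ⟨x, hx, fun h1 => absurd h1 hU⟩
  obtain ⟨t, ht⟩ := (dense_iInter_of_isOpen hOo hOd).nonempty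
  refine ⟨t, fun z hz => ?_⟩
  rw [(TopologicalSpace.isBasis_countableBasis ℂ).mem_closure_iff]
  intro U hU hzU
  obtain ⟨r, hr1, hr2⟩ := Set.mem_iInter.1 ht ⟨U, hU⟩ ⟨z, hzU, hz⟩
  exact ⟨_, hr2, r, hr1, rfl⟩

/-- The principal set of a ray lies in the filled Julia set. -/
lemma closure_ray_sub (h : Bo c ψ) (t : ℝ) {z : ℂ}
    (hz : z ∈ closure ((fun r : ℝ => Ph ψ (r, t)) '' Ioi 1))
    (hz2 : z ∉ (fun r : ℝ => Ph ψ (r, t)) '' Ioi 1) : z ∈ K c := by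
  by_contra hzK
  obtain ⟨r0, hr0, ε, hε, hfar⟩ := psi_far h hzK
  obtain ⟨T, hT1, hT⟩ := psi_large h (‖z‖ + 1)
  have hcl : IsClosed ((fun r : ℝ => Ph ψ (r, t)) '' Icc r0 T) := by
    refine (isCompact_Icc.image_of_continuousOn ?_).isClosed
    refine (Ph_cont h).comp (by fun_prop) fun r hr => ⟨?_, Set.mem_univ _⟩
    show 1 < r
    linarith [hr.1]
  have hzn : z ∈ ((fun r : ℝ => Ph ψ (r, t)) '' Icc r0 T)ᶜ := by
    intro h1
    apply hz2
    refine Set.image_mono (fun r hr => ?_) h1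
    show 1 < r
    linarith [hr.1]
  obtain ⟨δ, hδ, hb⟩ := Metric.isOpen_iff.1 hcl.isOpen_compl z hzn
  obtain ⟨y, ⟨r, hr, rfl⟩, hy⟩ := Metric.mem_closure_iff.1 hz (min (min δ ε) 1)
    (lt_min (lt_min hδ hε) one_pos)
  have hr : 1 < r := hr
  rw [dist_comm, dist_eq_norm] at hy
  have hnorm : ‖(r : ℂ) * Complex.exp (2 * Real.pi * Complex.I * t)‖ = r := norm_pol (by linarith) t
  have h1 : r0 ≤ r := by
    by_contra hcon
    push Not at hcon
    have := hfar ((r : ℂ) * Complex.exp (2 * Real.pi * Complex.I * t)) (by rw [hnorm]; exact hr)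
      (by rw [hnorm]; exact hcon.le)
    have h3 : ‖Ph ψ (r, t) - z‖ < ε := hy.trans_le ((min_le_left _ _).trans (min_le_right _ _))
    exact absurd this (not_le.2 h3)
  have h2 : r ≤ T := by
    by_contra hcon
    push Not at hcon
    have h3 : ‖z‖ + 1 < ‖Ph ψ (r, t)‖ :=
      hT ((r : ℂ) * Complex.exp (2 * Real.pi * Complex.I * t)) (by rw [hnorm]; exact hcon)
    have h4 : ‖Ph ψ (r, t)‖ ≤ ‖Ph ψ (r, t) - z‖ + ‖z‖ := by
      have := norm_add_le (Ph ψ (r, t) - z) z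
      rwa [sub_add_cancel] at this
    have h5 : ‖Ph ψ (r, t) - z‖ < 1 := hy.trans_le (min_le_right _ _)
    linarith
  refine hb (a := Ph ψ (r, t)) ?_ ⟨r, ⟨h1, h2⟩, rfl⟩
  rw [mem_ball, dist_eq_norm]
  exact hy.trans_le ((min_le_left _ _).trans (min_le_left _ _))

end HH
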