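import Pool.Agent.Work.MP_065151_hh.Basic

/-!
# The ray of angle zero lands at a fixed point
-/

set_option autoImplicit false

open Topology Metric Filter Set

namespace HH

open R4C (f K Bot Cof IsDisk rad)

/-- A conformal map of the outside of the disc onto the basin of infinity that fixes infinity and
conjugates `z ^ 2` to `z ^ 2 + c`. -/
structure Bo (c : ℂ) (ψ : ℂ → ℂ) : Prop where
  hol : DifferentiableOn ℂ ψ {w | 1 < ‖w‖}
  inj : Set.InjOn ψ {w | 1 < ‖w‖}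
  img : ψ '' {w | 1 < ‖w‖} = (K c)ᶜ
  eqn : ∀ w, 1 < ‖w‖ → ψ (w ^ 2) = f c (ψ w)
  inf : Tendsto ψ (Bornology.cobounded ℂ) (Bornology.cobounded ℂ)

variable {c : ℂ} {ψ : ℂ → ℂ}

lemma iter_psi (h : Bo c ψ) (n : ℕ) {w : ℂ} (hw : 1 < ‖w‖) :
    (f c)^[n] (ψ w) = ψ (w ^ 2 ^ n) := by
  induction n generalizing w with
  | zero => simp
  | succ n ih =>
    rw [Function.iterate_succ_apply, ← h.eqn w hw,
      ih (by rw [norm_pow]; exact one_lt_pow₀ hw two_ne_zero), ← pow_mul, pow_succ' 2 n]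

lemma one_lt_norm_of_mem {w : ℂ} (hw : w ∈ closedBall (3 : ℂ) (3 / 2)) : 1 < ‖w‖ := by
  rw [mem_closedBall, dist_eq_norm] at hw
  have h1 : ‖(3 : ℂ)‖ ≤ ‖w‖ + ‖w - 3‖ := by
    have := norm_sub_le w (w - 3)
    rwa [sub_sub_cancel] at this
  have h2 : ‖(3 : ℂ)‖ = 3 := by simp
  rw [h2] at h1
  linarith

lemma slit_of_mem {w : ℂ} (hw : w ∈ closedBall (3 : ℂ) (3 / 2)) : w ∈ Complex.slitPlane := by
  left
  rw [mem_closedBall, dist_eq_norm] at hw
  have h1 := (Complex.abs_re_le_norm (w - 3)).trans hw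
  rw [abs_le, Complex.sub_re] at h1
  have h2 : (3 : ℂ).re = 3 := by simp
  rw [h2] at h1
  linarith

lemma norm_ofReal_gt {t : ℝ} (ht : 1 < t) : 1 < ‖(t : ℂ)‖ := by
  rwa [Complex.norm_real, Real.norm_of_nonneg (by linarith)]

lemma small_arcs (h : Bo c ψ) (ε : ℝ) (hε : 0 < ε) : ∃ N0 : ℕ, ∀ N, N0 ≤ N →
    ∀ t ∈ Icc (2 : ℝ) 4, ∀ t' ∈ Icc (2 : ℝ) 4,
      ‖ψ (Real.exp (Real.log t / 2 ^ N) : ℝ) - ψ (Real.exp (Real.log t' / 2 ^ N) : ℝ)‖ < ε := by
  have hDK : ball (3 : ℂ) (3 / 2) ⊆ closedBall (3 : ℂ) (3 / 2) := ball_subset_closedBall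
  have hout : ∀ w ∈ ball (3 : ℂ) (3 / 2), 1 < ‖w‖ := fun w hw => one_lt_norm_of_mem (hDK hw)
  have hcont : ContinuousOn ψ (closedBall (3 : ℂ) (3 / 2)) :=
    h.hol.continuousOn.mono fun w hw => one_lt_norm_of_mem hw
  have hA : IsCompact ((fun t : ℝ => (t : ℂ)) '' Icc (2 : ℝ) 4) :=
    isCompact_Icc.image Complex.continuous_ofReal
  have hAD : ((fun t : ℝ => (t : ℂ)) '' Icc (2 : ℝ) 4) ⊆ ball (3 : ℂ) (3 / 2) := by
    rintro _ ⟨t, ⟨ht1, ht2⟩, rfl⟩
    rw [mem_ball, dist_eq_norm]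
    have : ((t : ℂ) - 3) = ((t - 3 : ℝ) : ℂ) := by push_cast; ring
    rw [this, Complex.norm_real, Real.norm_eq_abs, abs_lt]
    constructor <;> linarith
  obtain ⟨N0, hN0⟩ := R4C.stmt_SML R4C.stmt_ELM c (ball (3 : ℂ) (3 / 2)) _ ψ isOpen_ball
    (convex_ball _ _).isPreconnected (hcont.mono hDK)
    (((isCompact_closedBall _ _).image_of_continuousOn hcont).isBounded.subset (image_mono hDK))
    ⟨3, mem_ball_self (by norm_num), by
      have h1 : ψ 3 ∈ (K c)ᶜ := by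
        rw [← h.img]
        exact ⟨3, hout 3 (mem_ball_self (by norm_num)), rfl⟩
      exact h1⟩ hAD hA ε hε
  refine ⟨N0, fun N hN t ht t' ht' => ?_⟩
  have hroot : ∀ w ∈ ball (3 : ℂ) (3 / 2), 1 < ‖Complex.exp (Complex.log w / 2 ^ N)‖ := by
    intro w hw
    rw [Complex.norm_exp]
    have h1 : (Complex.log w / 2 ^ N).re = Real.log ‖w‖ / 2 ^ N := by
      have : (Complex.log w / 2 ^ N) = Complex.log w / ((2 ^ N : ℝ) : ℂ) := by push_cast; ring
      rw [this, Complex.div_ofReal_re, Complex.log_re]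
    rw [h1]
    have h2 := Real.log_pos (hout w hw)
    exact Real.one_lt_exp_iff.2 (by positivity)
  have key := hN0 N hN (fun w => ψ (Complex.exp (Complex.log w / 2 ^ N))) ?_ ?_
    t ⟨t, ht, rfl⟩ t' ⟨t', ht', rfl⟩
  · have e1 : ∀ u ∈ Icc (2 : ℝ) 4, Complex.exp (Complex.log (u : ℂ) / 2 ^ N) =
        ((Real.exp (Real.log u / 2 ^ N) : ℝ) : ℂ) := by
      intro u hu
      rw [← Complex.ofReal_log (by linarith [hu.1])]
      push_cast
      rfl
    rw [← e1 t ht, ← e1 t' ht']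
    exact key
  · refine h.hol.comp ?_ hroot
    refine DifferentiableOn.cexp ?_
    refine DifferentiableOn.div_const ?_ _
    exact DifferentiableOn.clog differentiableOn_id fun w hw => slit_of_mem (hDK hw)
  · intro w hw
    rw [iter_psi h N (hroot w hw), ← Complex.exp_nat_mul]
    congr 1
    have h2 : ((2 ^ N : ℕ) : ℂ) * (Complex.log w / 2 ^ N) = Complex.log w := by
      push_cast
      field_simp
    rw [h2, Complex.exp_log (Complex.slitPlane_ne_zero (slit_of_mem (hDK hw)))]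

theorem land (h : Bo c ψ) : ∃ p, f c p = p ∧
    Tendsto (fun t : ℝ => ψ (t : ℂ)) (𝓝[>] 1) (𝓝 p) := by
  set r : ℕ → ℂ := fun N => ψ (Real.exp (Real.log 2 / 2 ^ N) : ℝ) with hr
  have hl2 : 0 < Real.log 2 := Real.log_pos (by norm_num)
  have hl4 : Real.log 4 = 2 * Real.log 2 := by
    rw [show (4 : ℝ) = 2 ^ 2 by norm_num, Real.log_pow]
    norm_num
  have hr4 : ∀ N, r N = ψ (Real.exp (Real.log 4 / 2 ^ (N + 1)) : ℝ) := by
    intro N
    rw [hr]
    simp only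
    congr 3
    rw [hl4, pow_succ]
    field_simp
  have hfr : ∀ N, f c (r (N + 1)) = r N := by
    intro N
    have h1 : 1 < ‖((Real.exp (Real.log 2 / 2 ^ (N + 1)) : ℝ) : ℂ)‖ :=
      norm_ofReal_gt (Real.one_lt_exp_iff.2 (by positivity))
    rw [hr]
    simp only
    rw [← h.eqn _ h1]
    congr 1
    rw [← Complex.ofReal_pow, ← Real.exp_nat_mul]
    congr 2
    rw [pow_succ]
    push_cast
    field_simp
  have hstep : Tendsto (fun n => ‖r (n + 1) - r n‖) atTop (𝓝 0) := by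
    rw [Metric.tendsto_atTop]
    intro ε hε
    obtain ⟨N0, hN0⟩ := small_arcs h ε hε
    refine ⟨N0, fun n hn => ?_⟩
    rw [dist_zero_right, norm_norm, hr4 n]
    exact hN0 (n + 1) (by omega) 2 ⟨le_rfl, by norm_num⟩ 4 ⟨by norm_num, le_rfl⟩
  obtain ⟨p, hp, hlim⟩ := seq_lim hfr hstep
  refine ⟨p, hp, ?_⟩
  rw [Metric.tendsto_nhds]
  intro ε hε
  obtain ⟨N0, hN0⟩ := small_arcs h (ε / 2) (by linarith)
  obtain ⟨N1, hN1⟩ := Metric.tendsto_atTop.1 hlim (ε / 2) (by linarith)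
  set N := max N0 N1 with hN
  have h1 : (1 : ℝ) < Real.exp (Real.log 2 / 2 ^ N) := Real.one_lt_exp_iff.2 (by positivity)
  filter_upwards [Ioo_mem_nhdsGT h1] with t ht
  have ht0 : 0 < Real.log t := Real.log_pos ht.1
  have htl : Real.log t < Real.log 2 / 2 ^ N := by
    rw [← Real.log_exp (Real.log 2 / 2 ^ N)]
    exact Real.log_lt_log (by linarith [ht.1]) ht.2
  have hex : ∃ M : ℕ, Real.log 2 ≤ 2 ^ M * Real.log t := by
    obtain ⟨M, hM⟩ := pow_unbounded_of_one_lt (Real.log 2 / Real.log t) (one_lt_two)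
    refine ⟨M, ?_⟩
    rw [div_lt_iff₀ ht0] at hM
    exact hM.le
  classical
  set M := Nat.find hex with hM
  have hM1 : Real.log 2 ≤ 2 ^ M * Real.log t := Nat.find_spec hex
  have hMN : N < M := by
    by_contra hcon
    push Not at hcon
    have h2 : (2 : ℝ) ^ M ≤ 2 ^ N := pow_le_pow_right₀ (by norm_num) hcon
    rw [lt_div_iff₀ (by positivity)] at htl
    nlinarith
  have hM2 : 2 ^ M * Real.log t ≤ 2 * Real.log 2 := by
    obtain ⟨m, hm⟩ : ∃ m, M = m + 1 := ⟨M - 1, by omega⟩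
    have h3 := Nat.find_min hex (m := m) (by omega)
    push Not at h3
    rw [hm, pow_succ]
    linarith
  set t' := Real.exp (2 ^ M * Real.log t) with ht'
  have ht'1 : t' ∈ Icc (2 : ℝ) 4 := by
    constructor
    · have := Real.exp_le_exp.2 hM1
      rwa [Real.exp_log (by norm_num)] at this
    · have := Real.exp_le_exp.2 hM2
      rw [← hl4, Real.exp_log (by norm_num)] at this
      exact this
  have ht2 : Real.exp (Real.log t' / 2 ^ M) = t := by
    rw [ht', Real.log_exp, mul_div_cancel_left₀ _ (by positivity), Real.exp_log (by linarith [ht.1])]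
  have h4 := hN0 M (by omega) t' ht'1 2 ⟨le_rfl, by norm_num⟩
  rw [ht2] at h4
  have h5 := hN1 M (by omega)
  rw [dist_eq_norm] at h5 ⊢
  have h6 : ψ t - p = (ψ t - r M) + (r M - p) := by ring
  rw [h6]
  exact (norm_add_le _ _).trans_lt (by
    have : ‖ψ (t : ℂ) - r M‖ < ε / 2 := h4
    linarith)

/-- The norm of `ψ w` tends to infinity. -/
lemma psi_large (h : Bo c ψ) (R : ℝ) : ∃ T : ℝ, 1 ≤ T ∧ ∀ w : ℂ, T < ‖w‖ → R < ‖ψ w‖ := by
  have h2 : ∀ᶠ w in Bornology.cobounded ℂ, R < ‖ψ w‖ :=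
    (tendsto_norm_cobounded_atTop.comp h.inf).eventually_gt_atTop R
  rw [← comap_norm_atTop, eventually_comap] at h2
  obtain ⟨T, hT⟩ := (eventually_atTop.1 h2)
  refine ⟨max 1 T, le_max_left _ _, fun w hw => hT ‖w‖ ?_ w rfl⟩
  exact (le_max_right _ _).trans hw.le

/-- The inverse Boettcher map of the library. -/
lemma exists_Bo (h0 : (0 : ℂ) ∈ K c) : ∃ ψ, Bo c ψ := by
  obtain ⟨ψ, h⟩ := R4C.stmt_BOT R4C.stmt_ELM c h0
  refine ⟨ψ, h.hol, h.inj, h.img, h.eqn, ?_⟩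
  rw [← tendsto_norm_atTop_iff_cobounded]
  have h2 : ∀ᶠ w in Bornology.cobounded ℂ, ψ w / w ∈ ball (1 : ℂ) (1 / 2) :=
    h.inf (ball_mem_nhds _ (by norm_num))
  have h3 : Tendsto (fun w : ℂ => ‖w‖ / 2) (Bornology.cobounded ℂ) atTop :=
    tendsto_norm_cobounded_atTop.atTop_div_const (by norm_num)
  refine tendsto_atTop_mono' _ ?_ h3
  have h4 : ∀ᶠ w : ℂ in Bornology.cobounded ℂ, 0 < ‖w‖ :=
    tendsto_norm_cobounded_atTop.eventually_gt_atTop 0
  filter_upwards [h2, h4] with w hw hw0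
  rw [mem_ball, dist_eq_norm] at hw
  have h5 : 1 / 2 ≤ ‖ψ w / w‖ := by
    have : ‖(1 : ℂ)‖ ≤ ‖ψ w / w‖ + ‖ψ w / w - 1‖ := by
      have := norm_sub_le (ψ w / w) (ψ w / w - 1)
      rw [sub_sub_cancel] at this
      exact this
    rw [norm_one] at this
    linarith
  rw [norm_div, le_div_iff₀ hw0] at h5
  linarith

/-- The ray of angle zero. -/
def zray (ψ : ℂ → ℂ) : Set ℂ := (fun t : ℝ => ψ (t : ℂ)) '' Ioi 1

lemma zray_cont (h : Bo c ψ) : ContinuousOn (fun t : ℝ => ψ (t : ℂ)) (Ioi 1) :=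
  h.hol.continuousOn.comp Complex.continuous_ofReal.continuousOn fun _ ht => norm_ofReal_gt ht

lemma zray_conn (h : Bo c ψ) : IsPreconnected (zray ψ) := isPreconnected_Ioi.image _ (zray_cont h)

lemma zray_compl (h : Bo c ψ) {z : ℂ} (hz : z ∈ zray ψ) : z ∉ K c := by
  obtain ⟨t, ht, rfl⟩ := hz
  have h1 : ψ (t : ℂ) ∈ (K c)ᶜ := by
    rw [← h.img]
    exact ⟨_, norm_ofReal_gt ht, rfl⟩
  exact h1

lemma zray_unbdd (h : Bo c ψ) : ¬ Bornology.IsBounded (zray ψ) := by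
  intro hb
  obtain ⟨R, hR⟩ := hb.subset_closedBall 0
  obtain ⟨T, hT1, hT⟩ := psi_large h R
  have h1 : ψ ((T + 1 : ℝ) : ℂ) ∈ zray ψ := ⟨T + 1, by
    show (1 : ℝ) < T + 1
    linarith, rfl⟩
  have h2 := mem_closedBall_zero_iff.1 (hR h1)
  have h3 := hT ((T + 1 : ℝ) : ℂ) (by
    rw [Complex.norm_real, Real.norm_of_nonneg (by linarith)]
    linarith)
  linarith

lemma closure_zray (h : Bo c ψ) {p : ℂ}
    (hp : Tendsto (fun t : ℝ => ψ (t : ℂ)) (𝓝[>] 1) (𝓝 p)) :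
    closure (zray ψ) = insert p (zray ψ) := by
  apply Set.Subset.antisymm
  · intro z hz
    obtain ⟨x, hx, hxz⟩ := mem_closure_iff_seq_limit.1 hz
    choose t ht htx using hx
    have ht1 : ∀ n, 1 < t n := ht
    have htx' : ∀ n, ψ (t n : ℂ) = x n := htx
    obtain ⟨R, hR⟩ : ∃ R, ∀ n, ‖x n‖ ≤ R := by
      obtain ⟨R, hR⟩ := (hxz.norm.bddAbove_range)
      exact ⟨R, fun n => hR ⟨n, rfl⟩⟩
    obtain ⟨T, hT1, hT⟩ := psi_large h R
    have hmem : ∀ n, t n ∈ Icc 1 T := by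
      intro n
      refine ⟨(ht1 n).le, ?_⟩
      by_contra hcon
      push Not at hcon
      have h1 := hT (t n : ℂ) (by
        rw [Complex.norm_real, Real.norm_of_nonneg (by linarith [ht1 n])]
        exact hcon)
      rw [htx'] at h1
      exact absurd h1 (not_lt.2 (hR n))
    obtain ⟨a, ha, φ, hφ, hlim⟩ := isCompact_Icc.tendsto_subseq hmem
    have hz2 : Tendsto (fun n => ψ (t (φ n) : ℂ)) atTop (𝓝 z) := by
      have := hxz.comp hφ.tendsto_atTop
      refine this.congr fun n => ?_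
      rw [Function.comp, ← htx']
    rcases ha.1.eq_or_lt with h1 | h1
    · left
      have h2 : Tendsto (fun n => t (φ n)) atTop (𝓝[>] 1) := by
        rw [tendsto_nhdsWithin_iff]
        refine ⟨?_, Eventually.of_forall fun n => ht1 (φ n)⟩
        rw [h1]
        exact hlim
      exact tendsto_nhds_unique hz2 (hp.comp h2)
    · right
      have h2 : Tendsto (fun n => ψ (t (φ n) : ℂ)) atTop (𝓝 (ψ (a : ℂ))) :=
        ((zray_cont h).continuousAt (Ioi_mem_nhds h1)).tendsto.comp hlim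
      exact ⟨a, h1, (tendsto_nhds_unique hz2 h2).symm⟩
  · apply Set.insert_subset _ subset_closure
    refine mem_closure_of_tendsto hp ?_
    filter_upwards [self_mem_nhdsWithin] with t ht
    exact ⟨t, ht, rfl⟩

lemma fixed_mem_K {p : ℂ} (hp : f c p = p) : p ∈ K c := by
  refine ⟨‖p‖, fun n => ?_⟩
  have : (f c)^[n] p = p := Function.iterate_fixed hp n
  rw [this]

end HH
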