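import Pool.Agent.Work.MP_065151_hh.Mr
import Pool.Agent.Work.MP_065151_hh.Defs

/-!
# The criterion for principal sets, and the translation of the definitions
-/

set_option autoImplicit false

open Topology Metric Filter Set

namespace HH

open R4C (f K Bot Cof IsDisk rad)

variable {c : ℂ} {ψ : ℂ → ℂ}

lemma pol_gt {r : ℝ} (hr : 1 < r) (t : ℝ) :
    1 < ‖(r : ℂ) * Complex.exp (2 * Real.pi * Complex.I * t)‖ := by
  rw [norm_pol (by linarith)]
  exact hr

lemma ray_conn (h : Bo c ψ) (t : ℝ) : IsPreconnected (ray ψ t) :=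
  isPreconnected_Ioi.image _
    ((Ph_cont h).comp (by fun_prop : ContinuousOn (fun r : ℝ => ((r, t) : ℝ × ℝ)) (Ioi 1))
      fun _ hr => ⟨hr, Set.mem_univ _⟩)

lemma ray_compl (h : Bo c ψ) {t : ℝ} {z : ℂ} (hz : z ∈ ray ψ t) : z ∉ K c := by
  obtain ⟨r, hr, rfl⟩ := hz
  exact psi_compl h (pol_gt hr t)

lemma ray_unbdd (h : Bo c ψ) (t : ℝ) : ¬ Bornology.IsBounded (ray ψ t) := by
  intro hb
  obtain ⟨R, hR⟩ := hb.subset_closedBall 0
  obtain ⟨T, hT1, hT⟩ := psi_large h R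
  have h1 := mem_closedBall_zero_iff.1 (hR ⟨T + 1, show (1 : ℝ) < T + 1 by linarith, rfl⟩)
  have h2 := hT (((T + 1 : ℝ) : ℂ) * Complex.exp (2 * Real.pi * Complex.I * t))
    (by rw [norm_pol (by linarith)]; linarith)
  exact absurd h1 (not_le.2 h2)

lemma principal_sub (h : Bo c ψ) (t : ℝ) : principal ψ t ⊆ K c := fun _ hz =>
  closure_ray_sub h t hz.1 hz.2

lemma mem_principal (h : Bo c ψ) {t : ℝ} {z : ℂ} (h1 : z ∈ closure (ray ψ t)) (h2 : z ∈ K c) :
    z ∈ principal ψ t := ⟨h1, fun h3 => ray_compl h h3 h2⟩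

lemma principal_nonempty (h : Bo c ψ) (t : ℝ) : (principal ψ t).Nonempty := by
  have hn : ∀ n, (Sec ψ n t t).Nonempty := by
    intro n
    have := width_pos n
    exact ⟨_, ⟨1 + 1 / ((n : ℝ) + 1) / 2, t⟩, ⟨⟨by simp only; linarith, by simp only; linarith⟩,
      ⟨le_rfl, le_rfl⟩⟩, rfl⟩
  obtain ⟨y, hy⟩ := IsCompact.nonempty_iInter_of_sequence_nonempty_isCompact_isClosed
    (fun n => closure (Sec ψ n t t)) (fun n => CI_anti ψ t t (Nat.le_succ n))
    (fun n => (hn n).closure) (Sec_bdd h 0 t t).isCompact_closure (fun n => isClosed_closure)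
  refine ⟨y, mem_principal h ?_ (CI_sub h t t hy)⟩
  refine closure_mono ?_ (Set.mem_iInter.1 hy 0)
  rintro _ ⟨⟨r, s⟩, ⟨⟨hr, -⟩, ⟨hs1, hs2⟩⟩, rfl⟩
  simp only at hs1 hs2 hr
  have : s = t := le_antisymm hs2 hs1
  subst this
  exact ⟨r, hr, rfl⟩

lemma principal_zero (h : Bo c ψ) {p : ℂ}
    (hp : Tendsto (fun t : ℝ => ψ (t : ℂ)) (𝓝[>] 1) (𝓝 p)) : principal ψ 0 ⊆ {p} := by
  have h1 : ray ψ 0 = zray ψ := by
    unfold ray zray
    refine Set.image_congr fun r _ => ?_
    simp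
  rintro z ⟨hz1, hz2⟩
  rw [h1, closure_zray h hp] at hz1
  rw [h1] at hz2
  rcases hz1 with h3 | h3
  · exact h3
  · exact absurd h3 hz2

/-- **The criterion.** If a proper subcontinuum contains the critical value and the principal set
of some ray, then two proper subcontinua cover the Julia set, and every principal set lies in one
of them. -/
theorem crit_ray (h : Bo c ψ) (h0 : (0 : ℂ) ∈ K c) {S' : Set ℂ} (hS : IsCompact S')
    (hSc : IsPreconnected S') (hcS : c ∈ S') (hSK : S' ⊆ K c) (hne : ∃ z ∈ K c, z ∉ S') {t0 : ℝ}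
    (hP : principal ψ t0 ⊆ S') : ∃ A : Set ℂ, IsCompact A ∧ IsConnected A ∧ A ≠ K c ∧
      A ∪ reflect A = K c ∧ ∀ t, principal ψ t ⊆ A ∨ principal ψ t ⊆ reflect A := by
  obtain ⟨y, hy⟩ := principal_nonempty h t0
  obtain ⟨A, B, hA, hAc, hB, hBc, hAK, hBK, hAB, hI, hs, hR⟩ := crit (K_conn h0).isPreconnected
    hS hSc hcS hSK hne (G := closure (ray ψ t0)) isClosed_closure (ray_conn h t0).closure
    (fun hb => ray_unbdd h t0 (hb.subset subset_closure))
    (fun z hz => hP (mem_principal h hz.1 hz.2)) ⟨y, hy.1, hP hy⟩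
  have hBr : reflect A = B := by
    ext z
    show -z ∈ A ↔ z ∈ B
    rw [hs, neg_neg]
  refine ⟨A, hA, hAc, hAK, by rw [hBr]; exact hAB, fun t => ?_⟩
  rw [hBr]
  by_cases heq : Complex.exp (2 * Real.pi * Complex.I * t) ^ 2 =
      Complex.exp (2 * Real.pi * Complex.I * t0)
  · left
    intro z hz
    have h1 : z ∈ A ∩ B := by
      rw [hI, Set.mem_preimage]
      apply hP
      refine mem_principal h ?_ ((f_mem_K c z).2 (principal_sub h t hz))
      have h2 : f c z ∈ closure (f c '' ray ψ t) :=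
        (image_closure_subset_closure_image (f_cont c)) ⟨z, hz.1, rfl⟩
      refine closure_mono ?_ h2
      rintro _ ⟨_, ⟨r, hr, rfl⟩, rfl⟩
      have hr : 1 < r := hr
      refine ⟨r ^ 2, one_lt_pow₀ hr two_ne_zero, ?_⟩
      show ψ (((r ^ 2 : ℝ) : ℂ) * Complex.exp (2 * Real.pi * Complex.I * t0)) =
        f c (ψ ((r : ℂ) * Complex.exp (2 * Real.pi * Complex.I * t)))
      rw [← h.eqn _ (pol_gt hr t), mul_pow, heq, Complex.ofReal_pow]
    exact h1.1
  · have havoid : ∀ z ∈ ray ψ t, f c z ∉ S' ∪ closure (ray ψ t0) := by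
      rintro _ ⟨r, hr, rfl⟩ hmem
      have hr : 1 < r := hr
      have e1 : ψ (((r : ℂ) * Complex.exp (2 * Real.pi * Complex.I * t)) ^ 2) =
          f c (ψ ((r : ℂ) * Complex.exp (2 * Real.pi * Complex.I * t))) := h.eqn _ (pol_gt hr t)
      have hout : 1 < ‖((r : ℂ) * Complex.exp (2 * Real.pi * Complex.I * t)) ^ 2‖ := by
        rw [norm_pow]
        exact one_lt_pow₀ (pol_gt hr t) two_ne_zero
      have hnK := psi_compl h hout
      rw [e1] at hnK
      rcases hmem with h1 | h1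
      · exact hnK (hSK h1)
      · have h2 : f c (ψ ((r : ℂ) * Complex.exp (2 * Real.pi * Complex.I * t))) ∈ ray ψ t0 := by
          by_contra h3
          exact hnK (closure_ray_sub h t0 h1 h3)
        obtain ⟨r', hr', h4⟩ := h2
        have hr' : 1 < r' := hr'
        have h5 := h.inj (pol_gt hr' t0) hout (h4.trans e1.symm)
        have h6 : r' = r ^ 2 := by
          have := congrArg norm h5
          rwa [norm_pol (by linarith), norm_pow, norm_pol (by linarith)] at this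
        apply heq
        rw [mul_pow, h6, Complex.ofReal_pow] at h5
        have h7 : ((r : ℂ) ^ 2) ≠ 0 := by
          have : (r : ℂ) ≠ 0 := by
            rw [Complex.ofReal_ne_zero]
            linarith
          exact pow_ne_zero 2 this
        exact (mul_left_cancel₀ h7 h5).symm
    rcases hR (ray ψ t) (ray_conn h t) havoid with h1 | h1
    · left
      exact fun z hz => h1 ⟨principal_sub h t hz, hz.1⟩
    · right
      exact fun z hz => h1 ⟨principal_sub h t hz, hz.1⟩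

/-! ### Translation -/

lemma quad_eq (c : ℂ) : quad c = f c := rfl

lemma filledJulia_eq (c : ℂ) : filledJulia c = K c := by
  ext z
  show Bornology.IsBounded (Set.range fun n : ℕ => (quad c)^[n] z) ↔ _
  rw [isBounded_iff_forall_norm_le]
  refine exists_congr fun R => ?_
  rw [Set.forall_mem_range]
  rfl

lemma interior_empty {c : ℂ} (h : julia c = filledJulia c) : interior (K c) = ∅ := by
  rw [← filledJulia_eq]
  by_contra hne
  obtain ⟨z, hz⟩ := Set.nonempty_iff_ne_empty.2 hne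
  have h1 : z ∈ julia c := by
    rw [h]
    exact interior_subset hz
  exact h1.2 hz

lemma bo_of_bottcher {c : ℂ} {φ : ℂ → ℂ} (h : IsBottcher c φ) : Bo c φ :=
  ⟨h.differentiableOn, h.bijOn.injOn, by rw [h.bijOn.image_eq, filledJulia_eq],
    fun w hw => h.map_sq w hw, h.tendsto_infty⟩

lemma bottcher_of_bo {c : ℂ} {φ : ℂ → ℂ} (h : Bo c φ) : IsBottcher c φ :=
  ⟨h.hol, by
    rw [filledJulia_eq, ← h.img]
    exact h.inj.bijOn_image, h.inf, fun w hw => h.eqn w hw⟩

/-- **Theorem A.** -/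
theorem thmA {c : ℂ} (hJ : julia c = filledJulia c) {H : Set ℂ} (hH : CriticalHedgehog c H)
    {φ : ℂ → ℂ} (hφ : IsBottcher c φ) : ∃ A : Set ℂ, Splits c φ A := by
  have hi := interior_empty hJ
  have hB := bo_of_bottcher hφ
  have hHog : Hog c H := ⟨hH.isCompact, hH.isConnected.isPreconnected, hH.zero_mem,
    hH.bijOn.image_eq, hH.bijOn.injOn⟩
  obtain ⟨a, ha, hfa⟩ := hH.fixed_mem
  obtain ⟨p, hp, hlim⟩ := land hB
  obtain ⟨S', h1, h2, h3, h4, h5, h6⟩ := exists_S hi hHog ha hfa hp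
  obtain ⟨A, hA, hAc, hAK, hAB, hAP⟩ := crit_ray hB hHog.zero_mem_K h1 h2 h3 h4 h5 (t0 := 0)
    ((principal_zero hB hlim).trans (Set.singleton_subset_iff.2 h6))
  refine ⟨A, hA, hAc, ?_, ?_, hAP⟩
  · rw [hJ, filledJulia_eq]
    exact hAK
  · rw [hJ, filledJulia_eq]
    exact hAB

/-- A splitting set excludes dense rays. -/
lemma Splits.principal_ne {c : ℂ} {φ : ℂ → ℂ} {A : Set ℂ} (h : Splits c φ A) (t : ℝ) :
    principal φ t ≠ julia c := by
  intro ht
  rcases h.principal_subset t with h1 | h1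
  · rw [ht] at h1
    exact h.ne_julia (Set.Subset.antisymm (h.union_eq ▸ Set.subset_union_left) h1)
  · rw [ht] at h1
    apply h.ne_julia
    refine Set.Subset.antisymm (h.union_eq ▸ Set.subset_union_left) fun z hz => ?_
    have h2 : -z ∈ julia c := by
      rw [← h.union_eq] at hz ⊢
      rcases hz with h3 | h3
      · exact Or.inr (show - -z ∈ A by rwa [neg_neg])
      · exact Or.inl h3
    have h3 : - -z ∈ A := h1 h2
    rwa [neg_neg] at h3

/-- **Theorem B.** -/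
theorem thmB {c : ℂ} (hc : c ≠ -2) (h0 : (0 : ℂ) ∈ filledJulia c) (hJ : julia c = filledJulia c)
    {φ : ℂ → ℂ} (hφ : IsBottcher c φ) : ∃ β : ℂ, quad c β = β ∧
      Tendsto (fun r : ℝ => φ (r : ℂ)) (𝓝[>] 1) (𝓝 β) ∧
      List.TFAE [∃ t : ℝ, principal φ t = julia c,
        ¬ ∃ A : Set ℂ, Splits c φ A,
        ∀ S : Set ℂ, S ⊆ julia c → S ≠ julia c → IsCompact S → IsConnected S → c ∈ S →
          ∀ t : ℝ, ¬ principal φ t ⊆ S,
        IrreducibleBetween (julia c) c β,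
        IrreducibleBetween (julia c) β (-β)] := by
  have hi := interior_empty hJ
  have hB := bo_of_bottcher hφ
  rw [filledJulia_eq] at h0
  have hJK : julia c = K c := by rw [hJ, filledJulia_eq]
  obtain ⟨β, hβ, hlim⟩ := land hB
  have hβK := fixed_mem_K hβ
  have hcK := c_mem_K h0
  refine ⟨β, hβ, hlim, ?_⟩
  have hproper : ∀ {S : Set ℂ}, S ⊆ K c → S ≠ K c → ∃ z ∈ K c, z ∉ S := fun h1 h2 =>
    Set.not_subset.1 fun h3 => h2 (Set.Subset.antisymm h1 h3)
  have key : ∀ x y, Irr c x y → ∃ t : ℝ, principal φ t = K c := by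
    intro x y hxy
    obtain ⟨t, ht⟩ := exists_dense_ray hB hi fun T hT => hc (irr_forces h0 hi hxy hT)
    exact ⟨t, Set.Subset.antisymm (principal_sub hB t) fun z hz => mem_principal hB (ht hz) hz⟩
  have hirr : ∀ x y, IrreducibleBetween (K c) x y → Irr c x y := by
    rintro x y ⟨hx, hy, hxy⟩
    refine ⟨hx, hy, fun S h1 h2 h3 h4 h5 => ?_⟩
    rw [hxy S h3 h1 ⟨⟨x, h4⟩, h2⟩ h4 h5]
  tfae_have 1 → 2 := by
    rintro ⟨t, ht⟩ ⟨A, hA⟩
    exact hA.principal_ne t ht
  tfae_have 2 → 3 := by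
    intro h2 S hSJ hSne hS hSc hcS t0 hP
    rw [hJK] at hSJ hSne
    obtain ⟨A, hA, hAc, hAK, hAB, hAP⟩ := crit_ray hB h0 hS hSc.isPreconnected hcS hSJ
      (hproper hSJ hSne) hP
    exact h2 ⟨A, hA, hAc, by rw [hJK]; exact hAK, by rw [hJK]; exact hAB, hAP⟩
  tfae_have 3 → 4 := by
    intro h2
    rw [hJK] at h2 ⊢
    refine ⟨hcK, hβK, fun S hSJ hS hSc hcS hβS => ?_⟩
    by_contra hne
    exact h2 S hSJ hne hS hSc hcS 0
      ((principal_zero hB hlim).trans (Set.singleton_subset_iff.2 hβS))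
  tfae_have 4 → 1 := fun h3 => by
    rw [hJK] at h3 ⊢
    exact key _ _ (hirr _ _ h3)
  tfae_have 5 → 1 := fun h4 => by
    rw [hJK] at h4 ⊢
    exact key _ _ (hirr _ _ h4)
  tfae_have 4 → 5 := by
    rw [hJK]
    rintro ⟨-, -, h3⟩
    refine ⟨hβK, (neg_mem_K c β).2 hβK, fun S hSJ hS hSc hβS hβS' => ?_⟩
    by_contra hne
    obtain ⟨S', h1, h2, h4, h5, ⟨z, hz, hzS⟩, h6⟩ := exists_S2 h0 hi hβ hS hSc.isPreconnected hSJ
      (fun h7 => hne (Set.Subset.antisymm hSJ h7)) hβS hβS'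
    have h7 := h3 S' h5 h1 ⟨⟨c, h4⟩, h2⟩ h4 h6
    rw [h7] at hzS
    exact hzS hz
  tfae_finish

end HH
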